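import Mathlib

/-!
Towers of suspensions and the Fary-Redei problem: basic definitions and affine invariance.
-/

set_option autoImplicit false

namespace Pool.Agent.Lib.MP_725e58_gt.Tow

open MeasureTheory Set
open scoped ENNReal Pointwise

section defs
variable {E : Type*} [AddCommGroup E] [Module ℝ E]

/-- the reflection body `conv (K ∪ (2x - K))` -/
def RB (K : Set E) (x : E) : Set E :=
  convexHull ℝ (K ∪ (fun y => (2 : ℝ) • x - y) '' K)

/-- for some point `x` of `K` the volume of the reflection body is at most `C` times that of `K` -/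
def Good [MeasurableSpace E] (μ : Measure E) (C : ℝ≥0∞) (K : Set E) : Prop :=
  ∃ x ∈ K, μ (RB K x) ≤ C * μ K

variable {F : Type*} [AddCommGroup F] [Module ℝ F]

theorem RB_image (f : E →ₗ[ℝ] F) (a : F) (K : Set E) (x : E) :
    RB ((fun v => a + f v) '' K) (a + f x) = (fun v => a + f v) '' RB K x := by
  have hf : (fun v => a + f v) = ⇑(f.toAffineMap + AffineMap.const ℝ E a) := by
    funext v
    simp [add_comm]
  rw [RB, RB, hf, AffineMap.image_convexHull, image_union]
  congr 2
  ext z
  constructor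
  · rintro ⟨_, ⟨v, hv, rfl⟩, rfl⟩
    refine ⟨(2:ℝ) • x - v, ⟨v, hv, rfl⟩, ?_⟩
    simp only [AffineMap.coe_add, LinearMap.coe_toAffineMap, AffineMap.coe_const, Pi.add_apply,
      Function.const_apply, map_sub, map_smul]
    module
  · rintro ⟨_, ⟨v, hv, rfl⟩, rfl⟩
    refine ⟨_, ⟨v, hv, rfl⟩, ?_⟩
    simp only [AffineMap.coe_add, LinearMap.coe_toAffineMap, AffineMap.coe_const, Pi.add_apply,
      Function.const_apply, map_sub, map_smul]
    module

end defs

section inv
variable {E : Type*} [NormedAddCommGroup E] [NormedSpace ℝ E] [FiniteDimensional ℝ E]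
  [MeasurableSpace E] [BorelSpace E] (μ : Measure E) [μ.IsAddHaarMeasure]
variable {F : Type*} [NormedAddCommGroup F] [NormedSpace ℝ F] [FiniteDimensional ℝ F]
  [MeasurableSpace F] [BorelSpace F] (ν : Measure F) [ν.IsAddHaarMeasure]

/-- affine isomorphisms multiply all volumes by a constant -/
theorem exists_scale (L : E ≃L[ℝ] F) (a : F) : ∃ c : ℝ≥0∞, c ≠ 0 ∧ c ≠ ∞ ∧
    ∀ K : Set E, μ K = c * ν ((fun v => a + L v) '' K) := by
  have hc := Measure.isAddLeftInvariant_eq_smul (μ.map L) ν
  refine ⟨(Measure.addHaarScalarFactor (μ.map L) ν : ℝ≥0∞), ?_, ?_, ?_⟩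
  · have := Measure.addHaarScalarFactor_pos_of_isAddHaarMeasure (μ.map L) ν
    exact_mod_cast this.ne'
  · exact ENNReal.coe_ne_top
  · intro K
    have h1 : (fun v => a + L v) '' K = (fun w => a + w) '' (L '' K) := by
      rw [image_image]
    have h2 : ν ((fun w => a + w) '' (L '' K)) = ν (L '' K) := by
      rw [image_add_left, measure_preimage_add]
    rw [h1, h2]
    have h3 : (μ.map L) (L '' K) = μ K := by
      have := (L.toHomeomorph.toMeasurableEquiv).map_apply (μ := μ) (L '' K)
      have e : ((L.toHomeomorph.toMeasurableEquiv : E ≃ᵐ F) : E → F) = L := rfl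
      rw [e] at this
      rw [this, preimage_image_eq K L.injective]
    rw [← h3]
    have h4 := congrArg (fun m : Measure F => m (L '' K)) hc
    refine h4.trans ?_
    exact Measure.smul_apply _ _ _

theorem Good.image {C : ℝ≥0∞} {K : Set E} (h : Good μ C K) (L : E ≃L[ℝ] F) (a : F) :
    Good ν C ((fun v => a + L v) '' K) := by
  obtain ⟨x, hx, hle⟩ := h
  obtain ⟨c, hc0, hct, hc⟩ := exists_scale μ ν L a
  refine ⟨a + L x, mem_image_of_mem _ hx, ?_⟩
  have h1 := RB_image (L : E →ₗ[ℝ] F) a K x
  have h1' : RB ((fun v => a + L v) '' K) (a + L x) = (fun v => a + L v) '' RB K x := h1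
  rw [h1']
  rw [hc (RB K x), hc K, mul_left_comm] at hle
  exact (ENNReal.mul_le_mul_iff_right hc0 hct).mp hle

end inv

end Pool.Agent.Lib.MP_725e58_gt.Tow
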