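import Mathlib
import Pool.Agent.Lib.MP_725e58_gt.Tow.Basic
import Pool.Agent.Lib.MP_87489e_co.Fubini

/-!
The suspension lemma: moving a segment through a point of a body in a hyperplane.
-/

set_option autoImplicit false

namespace Pool.Agent.Lib.MP_725e58_gt.Tow

open MeasureTheory Set
open scoped ENNReal Pointwise
open Pool.Agent.Lib.MP_87489e_co (fib fib_convex fib_compact)

section compact
variable {E : Type*} [NormedAddCommGroup E] [NormedSpace ℝ E]

/-- the convex hull of the union of two compact convex sets is compact -/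
theorem isCompact_hull_union {A B : Set E} (hA : IsCompact A) (hB : IsCompact B)
    (hAc : Convex ℝ A) (hBc : Convex ℝ B) : IsCompact (convexHull ℝ (A ∪ B)) := by
  rcases A.eq_empty_or_nonempty with rfl | hAn
  · rw [empty_union, hBc.convexHull_eq]; exact hB
  rcases B.eq_empty_or_nonempty with rfl | hBn
  · rw [union_empty, hAc.convexHull_eq]; exact hA
  have h : convexHull ℝ (A ∪ B) =
      (fun r : (E × E) × ℝ => (1 - r.2) • r.1.1 + r.2 • r.1.2) '' ((A ×ˢ B) ×ˢ Icc (0:ℝ) 1) := by
    rw [hAc.convexHull_union hBc hAn hBn]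
    ext z
    simp only [mem_convexJoin, mem_image, mem_prod, Prod.exists, segment_eq_image]
    constructor
    · rintro ⟨a, ha, b, hb, s, hs, rfl⟩
      exact ⟨a, b, s, ⟨⟨ha, hb⟩, hs⟩, rfl⟩
    · rintro ⟨a, b, s, ⟨⟨ha, hb⟩, hs⟩, rfl⟩
      exact ⟨a, ha, b, hb, s, hs, rfl⟩
  rw [h]
  apply ((hA.prod hB).prod isCompact_Icc).image
  fun_prop

theorem RB_compact {K : Set E} (hK : IsCompact K) (hKc : Convex ℝ K) (x : E) :
    IsCompact (RB K x) := by
  have hB : (fun y => (2 : ℝ) • x - y) '' K = (fun w => (2 : ℝ) • x + w) '' (-K) := by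
    rw [← image_neg_eq_neg, image_image]
    simp only [← sub_eq_add_neg]
  apply isCompact_hull_union hK _ hKc
  · rw [hB]
    have := hKc.neg.translate ((2 : ℝ) • x)
    exact this
  · exact hK.image (by fun_prop)

theorem RB_convex (K : Set E) (x : E) : Convex ℝ (RB K x) := convex_convexHull ℝ _

theorem isCompact_hull_insert {A : Set E} (hA : IsCompact A) (hAc : Convex ℝ A) {V : Set E}
    (hV : V.Finite) : IsCompact (convexHull ℝ (A ∪ V)) := by
  have h : convexHull ℝ (A ∪ V) = convexHull ℝ (A ∪ convexHull ℝ V) := by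
    apply Subset.antisymm
    · exact convexHull_mono (union_subset_union_right _ (subset_convexHull ℝ V))
    · apply convexHull_min _ (convex_convexHull ℝ _)
      apply union_subset
      · exact subset_union_left.trans (subset_convexHull ℝ _)
      · exact convexHull_mono subset_union_right
  rw [h]
  exact isCompact_hull_union hA (hV.isCompact_convexHull ℝ) hAc (convex_convexHull ℝ _)

end compact

section coord
variable {F : Type*} [NormedAddCommGroup F] [NormedSpace ℝ F]

/-- the suspension of `{0} × P` over the points `(1 - θ, 0)` and `(-θ, 0)` -/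
def KT (P : Set F) (θ : ℝ) : Set (ℝ × F) :=
  convexHull ℝ (((fun w => ((0:ℝ), w)) '' P) ∪ {((1 - θ), 0), (-θ, 0)})

/-- the cone -/
def KC (P : Set F) : Set (ℝ × F) :=
  convexHull ℝ (((fun w => ((0:ℝ), w)) '' P) ∪ {((1:ℝ), 0)})

/-- scaling the first coordinate -/
def scl (s : ℝ) : (ℝ × F) →ₗ[ℝ] (ℝ × F) where
  toFun q := (s * q.1, q.2)
  map_add' a b := by ext <;> simp [mul_add]
  map_smul' c a := by ext <;> simp; ring

theorem scl_image {P : Set F} {θ s : ℝ} (hs : s = 1 - θ ∨ s = -θ) :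
    scl s '' KC P ⊆ KT P θ := by
  rw [KC, LinearMap.image_convexHull]
  apply convexHull_min _ (convex_convexHull ℝ _)
  rw [image_union]
  apply union_subset
  · rintro _ ⟨_, ⟨w, hw, rfl⟩, rfl⟩
    apply subset_convexHull ℝ _
    left
    exact ⟨w, hw, by simp [scl]⟩
  · rintro _ ⟨_, rfl, rfl⟩
    apply subset_convexHull ℝ _
    right
    rcases hs with rfl | rfl
    · left; simp [scl]
    · right; simp [scl]

theorem KC_nonneg {P : Set F} {q : ℝ × F} (hq : q ∈ KC P) : 0 ≤ q.1 := by
  have h : KC P ⊆ {q : ℝ × F | 0 ≤ q.1} := by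
    apply convexHull_min
    · rintro _ (⟨w, hw, rfl⟩ | rfl)
      · simp
      · simp
    · exact convex_halfSpace_ge (LinearMap.fst ℝ ℝ F).isLinear 0
  exact h hq

theorem fst_mem {P : Set F} {θ : ℝ} (h0 : 0 ≤ θ) (h1 : θ ≤ 1) {h s : ℝ} {w : F}
    (hq : (h, w) ∈ KC P) (hs : s ∈ Icc (-(θ * h)) ((1 - θ) * h)) : (s, w) ∈ KT P θ := by
  have e1 : ((1 - θ) * h, w) ∈ KT P θ := scl_image (Or.inl rfl) ⟨(h, w), hq, rfl⟩
  have e2 : ((-θ) * h, w) ∈ KT P θ := scl_image (Or.inr rfl) ⟨(h, w), hq, rfl⟩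
  have hc : Convex ℝ (fib (KT P θ) w) := fib_convex (convex_convexHull ℝ _) w
  have := hc.ordConnected.out (show (-θ) * h ∈ fib (KT P θ) w from e2)
    (show (1 - θ) * h ∈ fib (KT P θ) w from e1)
  apply this
  constructor
  · have := hs.1; linarith
  · exact hs.2

/-- the superposition of a body with its mirror image -/
def MM (R : Set (ℝ × F)) (θ : ℝ) : Set (ℝ × F) :=
  {q | ∃ r r' : ℝ, (r, q.2) ∈ R ∧ (r', q.2) ∈ R ∧ q.1 = (1 - θ) * r - θ * r'}

theorem MM_convex {R : Set (ℝ × F)} (hR : Convex ℝ R) (θ : ℝ) : Convex ℝ (MM R θ) := by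
  rintro ⟨a, w⟩ ⟨r, r', h1, h2, h3⟩ ⟨b, z⟩ ⟨s, s', g1, g2, g3⟩ c e hc he hce
  refine ⟨c * r + e * s, c * r' + e * s', ?_, ?_, ?_⟩
  · have := hR h1 g1 hc he hce
    exact this
  · have := hR h2 g2 hc he hce
    exact this
  · simp only at h3 g3
    simp only [Prod.smul_mk, Prod.mk_add_mk, smul_eq_mul, h3, g3]
    ring

theorem RB_sub {P : Set F} (hP : (0 : F) ∈ P) {θ : ℝ} {h : ℝ} {w0 : F} :
    RB (KT P θ) ((1 - 2 * θ) * h, w0) ⊆ MM (RB (KC P) (h, w0)) θ := by
  have hin : ∀ q ∈ KC P, q ∈ RB (KC P) (h, w0) := fun q hq => subset_convexHull ℝ _ (Or.inl hq)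
  have hre : ∀ q ∈ KC P, (2 : ℝ) • (h, w0) - q ∈ RB (KC P) (h, w0) :=
    fun q hq => subset_convexHull ℝ _ (Or.inr ⟨q, hq, rfl⟩)
  have hw : ∀ w ∈ P, ((0:ℝ), w) ∈ KC P := fun w hw => subset_convexHull ℝ _ (Or.inl ⟨w, hw, rfl⟩)
  have h1 : ((1:ℝ), (0 : F)) ∈ KC P := subset_convexHull ℝ _ (Or.inr rfl)
  have hconv := MM_convex (RB_convex (KC P) (h, w0)) θ
  -- the body itself
  have hA : KT P θ ⊆ MM (RB (KC P) (h, w0)) θ := by
    apply convexHull_min _ hconv
    rintro _ (⟨w, hw', rfl⟩ | rfl | rfl)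
    · exact ⟨0, 0, hin _ (hw w hw'), hin _ (hw w hw'), by simp⟩
    · exact ⟨1, 0, hin _ h1, hin _ (hw 0 hP), by simp⟩
    · exact ⟨0, 1, hin _ (hw 0 hP), hin _ h1, by simp⟩
  have hB : (fun y => (2 : ℝ) • (((1 - 2 * θ) * h, w0) : ℝ × F) - y) '' KT P θ ⊆
      MM (RB (KC P) (h, w0)) θ := by
    rw [image_subset_iff]
    apply convexHull_min
    · rintro _ (⟨w, hw', rfl⟩ | rfl | rfl)
      · refine ⟨2 * h, 2 * h, ?_, ?_, ?_⟩
        · have := hre _ (hw w hw')
          simpa using this
        · have := hre _ (hw w hw')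
          simpa using this
        · simp; ring
      · refine ⟨2 * h - 1, 2 * h, ?_, ?_, ?_⟩
        · have := hre _ h1
          simpa using this
        · have := hre _ (hw 0 hP)
          simpa using this
        · simp; ring
      · refine ⟨2 * h, 2 * h - 1, ?_, ?_, ?_⟩
        · have := hre _ (hw 0 hP)
          simpa using this
        · have := hre _ h1
          simpa using this
        · simp; ring
    · have hf : (fun y : ℝ × F => (2 : ℝ) • (((1 - 2 * θ) * h, w0) : ℝ × F) - y) =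
          ⇑(AffineMap.const ℝ (ℝ × F) ((2 : ℝ) • (((1 - 2 * θ) * h, w0) : ℝ × F)) -
            AffineMap.id ℝ (ℝ × F)) := by
        funext y
        simp
      rw [hf]
      exact hconv.affine_preimage _
  exact convexHull_min (union_subset hA hB) hconv

variable [MeasurableSpace F] [BorelSpace F] [FiniteDimensional ℝ F] (μ : Measure F)
  [μ.IsAddHaarMeasure]

theorem KC_compact {P : Set F} (hP : IsCompact P) (hPc : Convex ℝ P) : IsCompact (KC P) := by
  apply isCompact_hull_insert
  · exact hP.image (by fun_prop)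
  · have : (fun w : F => ((0:ℝ), w)) = ⇑(LinearMap.inr ℝ ℝ F) := by
      funext w; rfl
    rw [this]
    exact hPc.linear_image _
  · exact finite_singleton _

theorem KT_compact {P : Set F} (hP : IsCompact P) (hPc : Convex ℝ P) (θ : ℝ) :
    IsCompact (KT P θ) := by
  apply isCompact_hull_insert
  · exact hP.image (by fun_prop)
  · have : (fun w : F => ((0:ℝ), w)) = ⇑(LinearMap.inr ℝ ℝ F) := by
      funext w; rfl
    rw [this]
    exact hPc.linear_image _
  · exact Set.toFinite _

theorem MM_compact {R : Set (ℝ × F)} (hR : IsCompact R) (θ : ℝ) : IsCompact (MM R θ) := by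
  have h : MM R θ = (fun r : (ℝ × F) × (ℝ × F) => ((1 - θ) * r.1.1 - θ * r.2.1, r.1.2)) ''
      ((R ×ˢ R) ∩ {r | r.1.2 = r.2.2}) := by
    ext ⟨a, w⟩
    constructor
    · rintro ⟨r, r', h1, h2, h3⟩
      exact ⟨((r, w), (r', w)), ⟨⟨h1, h2⟩, rfl⟩, by simp only at h3; simp [h3]⟩
    · rintro ⟨⟨⟨r, w1⟩, ⟨r', w2⟩⟩, ⟨⟨h1, h2⟩, h3⟩, h4⟩
      rw [mem_ofPred_eq] at h3
      simp only [Prod.mk.injEq] at h3 h4
      obtain ⟨h4, h5⟩ := h4
      refine ⟨r, r', ?_, ?_, ?_⟩
      · simpa [← h5] using h1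
      · simp only [← h5, h3]; exact h2
      · exact h4.symm
  rw [h]
  apply IsCompact.image
  · apply (hR.prod hR).inter_right
    exact isClosed_eq (by fun_prop) (by fun_prop)
  · fun_prop

theorem MM_volume {R : Set (ℝ × F)} (hR : IsCompact R) (hRc : Convex ℝ R) {θ : ℝ} (h0 : 0 ≤ θ)
    (h1 : θ ≤ 1) : ((volume : Measure ℝ).prod μ) (MM R θ) ≤ ((volume : Measure ℝ).prod μ) R := by
  rw [Measure.prod_apply_symm (MM_compact hR θ).measurableSet,
    Measure.prod_apply_symm hR.measurableSet]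
  apply lintegral_mono
  intro w
  change volume (fib (MM R θ) w) ≤ volume (fib R w)
  rcases (fib R w).eq_empty_or_nonempty with he | hne
  · have : fib (MM R θ) w = ∅ := by
      rw [eq_empty_iff_forall_notMem]
      rintro t ⟨r, r', hr, -, -⟩
      have : r ∈ fib R w := hr
      rw [he] at this
      exact this
    rw [this, measure_empty]
    exact zero_le
  · have hcon : IsConnected (fib R w) := ⟨hne, (fib_convex hRc w).isPreconnected⟩
    have hIcc := eq_Icc_of_connected_compact hcon (fib_compact hR w)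
    set α := sInf (fib R w)
    set β := sSup (fib R w)
    have hsub : fib (MM R θ) w ⊆ Icc ((1 - θ) * α - θ * β) ((1 - θ) * β - θ * α) := by
      rintro t ⟨r, r', hr, hr', ht⟩
      have hr1 : r ∈ Icc α β := by rw [← hIcc]; exact hr
      have hr2 : r' ∈ Icc α β := by rw [← hIcc]; exact hr'
      simp only at ht
      have e1 := mul_le_mul_of_nonneg_left hr1.1 (sub_nonneg.mpr h1)
      have e2 := mul_le_mul_of_nonneg_left hr1.2 (sub_nonneg.mpr h1)
      have e3 := mul_le_mul_of_nonneg_left hr2.1 h0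
      have e4 := mul_le_mul_of_nonneg_left hr2.2 h0
      constructor <;> linarith
    calc volume (fib (MM R θ) w) ≤ volume (Icc ((1 - θ) * α - θ * β) ((1 - θ) * β - θ * α)) :=
          measure_mono hsub
      _ = volume (fib R w) := by
          rw [hIcc, Real.volume_Icc, Real.volume_Icc]
          congr 1
          ring

theorem KT_volume {P : Set F} (hP : IsCompact P) (hPc : Convex ℝ P) {θ : ℝ} (h0 : 0 ≤ θ)
    (h1 : θ ≤ 1) :
    ((volume : Measure ℝ).prod μ) (KC P) ≤ ((volume : Measure ℝ).prod μ) (KT P θ) := by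
  rw [Measure.prod_apply_symm (KC_compact hP hPc).measurableSet,
    Measure.prod_apply_symm (KT_compact hP hPc θ).measurableSet]
  apply lintegral_mono
  intro w
  change volume (fib (KC P) w) ≤ volume (fib (KT P θ) w)
  rcases (fib (KC P) w).eq_empty_or_nonempty with he | hne
  · rw [he, measure_empty]
    exact zero_le
  · have hcomp := fib_compact (KC_compact hP hPc) w
    have hβ := hcomp.sSup_mem hne
    set β := sSup (fib (KC P) w)
    have hsub : fib (KC P) w ⊆ Icc 0 β := by
      intro t ht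
      exact ⟨KC_nonneg (q := (t, w)) ht, le_csSup hcomp.bddAbove ht⟩
    have hsup : Icc (-(θ * β)) ((1 - θ) * β) ⊆ fib (KT P θ) w := fun s hs =>
      fst_mem h0 h1 hβ hs
    calc volume (fib (KC P) w) ≤ volume (Icc 0 β) := measure_mono hsub
      _ = volume (Icc (-(θ * β)) ((1 - θ) * β)) := by
          rw [Real.volume_Icc, Real.volume_Icc]
          congr 1
          ring
      _ ≤ _ := measure_mono hsup

/-- the suspension lemma in coordinates -/
theorem susp_coord {C : ℝ≥0∞} {P : Set F} (hP0 : (0 : F) ∈ P) (hP : IsCompact P)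
    (hPc : Convex ℝ P) {θ : ℝ} (h0 : 0 ≤ θ) (h1 : θ ≤ 1)
    (h : Good ((volume : Measure ℝ).prod μ) C (KC P)) :
    Good ((volume : Measure ℝ).prod μ) C (KT P θ) := by
  obtain ⟨⟨t, w0⟩, hx, hle⟩ := h
  have ht := KC_nonneg hx
  simp only at ht
  refine ⟨((1 - 2 * θ) * t, w0), ?_, ?_⟩
  · apply fst_mem h0 h1 hx
    constructor
    · nlinarith
    · nlinarith
  · calc ((volume : Measure ℝ).prod μ) (RB (KT P θ) ((1 - 2 * θ) * t, w0))
        ≤ ((volume : Measure ℝ).prod μ) (MM (RB (KC P) (t, w0)) θ) := measure_mono (RB_sub hP0)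
      _ ≤ ((volume : Measure ℝ).prod μ) (RB (KC P) (t, w0)) :=
          MM_volume μ (RB_compact (KC_compact hP hPc)
            (convex_convexHull ℝ _) _) (RB_convex _ _) h0 h1
      _ ≤ C * ((volume : Measure ℝ).prod μ) (KC P) := hle
      _ ≤ _ := mul_le_mul' le_rfl (KT_volume μ hP hPc h0 h1)

end coord

section general
variable {E : Type*} [NormedAddCommGroup E] [NormedSpace ℝ E] [FiniteDimensional ℝ E]
  [MeasurableSpace E] [BorelSpace E] (μ : Measure E) [μ.IsAddHaarMeasure]

omit [NormedAddCommGroup E] [NormedSpace ℝ E] [FiniteDimensional ℝ E]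
  [MeasurableSpace E] [BorelSpace E] in
/-- splitting a space along a functional -/
def split {E : Type*} [AddCommGroup E] [Module ℝ E] (φ : E →ₗ[ℝ] ℝ) (u : E) (hu : φ u = 1) :
    E ≃ₗ[ℝ] ℝ × LinearMap.ker φ where
  toFun v := (φ v, ⟨v - φ v • u, by simp [hu]⟩)
  invFun q := q.1 • u + q.2
  map_add' v w := by
    ext
    · simp
    · simp only [map_add, Prod.snd_add, Submodule.coe_add]
      module
  map_smul' c v := by
    ext
    · simp
    · simp only [map_smul, smul_eq_mul, RingHom.id_apply, Prod.smul_snd, Submodule.coe_smul]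
      module
  left_inv v := by simp
  right_inv q := by
    have h : φ (q.2 : E) = 0 := q.2.2
    ext
    · simp [hu, h]
    · simp [hu, h]

theorem Good.susp {C : ℝ≥0∞} {P : Set E} (φ : E →ₗ[ℝ] ℝ) {c u : E} (hφ : ∀ v ∈ P, φ v = φ c)
    (hu : φ u = 1) (hc : c ∈ P) (hP : IsCompact P) (hPc : Convex ℝ P) {θ : ℝ} (h0 : 0 ≤ θ)
    (h1 : θ ≤ 1) (h : Good μ C (convexHull ℝ (P ∪ {c + u}))) :
    Good μ C (convexHull ℝ (P ∪ {c + (1 - θ) • u, c - θ • u})) := by
  let F := LinearMap.ker φ
  let L : E ≃L[ℝ] ℝ × F := (split φ u hu).toContinuousLinearEquiv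
  have hLs : ∀ q : ℝ × F, L.symm q = q.1 • u + (q.2 : E) := fun q => rfl
  let P' : Set F := {w | c + (w : E) ∈ P}
  have himg : ∀ V : Set (ℝ × F), (fun q => c + L.symm q) '' convexHull ℝ V =
      convexHull ℝ ((fun q => c + L.symm q) '' V) := by
    intro V
    have hf : (fun q => c + L.symm q) = ⇑((L.symm : (ℝ × F) →ₗ[ℝ] E).toAffineMap +
        AffineMap.const ℝ (ℝ × F) c) := by
      funext v
      simp [add_comm]
    rw [hf, AffineMap.image_convexHull]
  have hP'img : (fun q => c + L.symm q) '' ((fun w => ((0:ℝ), w)) '' P') = P := by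
    rw [image_image]
    ext v
    constructor
    · rintro ⟨w, hw, rfl⟩
      have hw' : c + (w : E) ∈ P := hw
      simpa [hLs] using hw'
    · intro hv
      refine ⟨⟨v - c, ?_⟩, ?_, ?_⟩
      · rw [LinearMap.mem_ker, map_sub, hφ v hv, sub_self]
      · simpa [P'] using hv
      · simp [hLs]
  have hKC : (fun q => c + L.symm q) '' KC P' = convexHull ℝ (P ∪ {c + u}) := by
    rw [KC, himg, image_union, hP'img, image_singleton, hLs]
    simp
  have hKT : (fun q => c + L.symm q) '' KT P' θ =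
      convexHull ℝ (P ∪ {c + (1 - θ) • u, c - θ • u}) := by
    rw [KT, himg, image_union, hP'img, image_pair, hLs, hLs]
    simp [sub_eq_add_neg]
  have hP'c : IsCompact P' := by
    have : P' = (fun w : F => c + (w : E)) ⁻¹' P := rfl
    rw [this]
    have hemb : Topology.IsClosedEmbedding (fun w : F => c + (w : E)) :=
      (Homeomorph.addLeft c).isClosedEmbedding.comp
        (Submodule.closed_of_finiteDimensional F).isClosedEmbedding_subtypeVal
    exact hemb.isCompact_preimage hP
  have hP'x : Convex ℝ P' := by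
    intro x hx y hy a b ha hb hab
    have h := hPc hx hy ha hb hab
    have e : c + ((a • x + b • y : F) : E) = a • (c + (x : E)) + b • (c + (y : E)) := by
      have : c = (a + b) • c := by rw [hab, one_smul]
      rw [Submodule.coe_add, Submodule.coe_smul, Submodule.coe_smul]
      nth_rw 1 [this]
      module
    show c + ((a • x + b • y : F) : E) ∈ P
    rw [e]
    exact h
  have hP'0 : (0 : F) ∈ P' := by simpa [P'] using hc
  let ν : Measure F := Measure.addHaar
  have g1 : Good ((volume : Measure ℝ).prod ν) C (KC P') := by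
    have := h.image μ ((volume : Measure ℝ).prod ν) L (-(L c))
    rw [← hKC, image_image] at this
    simpa using this
  have g2 := susp_coord ν hP'0 hP'c hP'x h0 h1 g1
  have g3 := g2.image ((volume : Measure ℝ).prod ν) μ L.symm c
  rw [hKT] at g3
  exact g3

end general

end Pool.Agent.Lib.MP_725e58_gt.Tow
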