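import Mathlib
import Pool.Agent.Lib.MP_87489e_co.Poly
import Pool.Agent.Lib.MP_87489e_co.Coord

/-!
The volume of `K + t L` in the plane is a quadratic polynomial.
-/

set_option autoImplicit false

namespace Pool.Agent.Lib.MP_725e58_gt.Tow

open MeasureTheory Set Pointwise
open scoped RealInnerProductSpace Topology
open Pool.Agent.Lib.MP_87489e_co

/-- the Euclidean plane -/
abbrev E2 := EuclideanSpace ℝ (Fin 2)

/-- Lagrange interpolation of the determinant of a pencil at `0, 1, 2`. -/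
theorem det_interp2 (A B : E2 →L[ℝ] E2) (t : ℝ) :
    (A + t • B).det = (t - 1) * (t - 2) / 2 * A.det
      + -(t * (t - 2)) * (A + (1:ℝ) • B).det
      + t * (t - 1) / 2 * (A + (2:ℝ) • B).det := by
  let b := (EuclideanSpace.basisFun (Fin 2) ℝ).toBasis
  have key : ∀ M : E2 →L[ℝ] E2, M.det = (LinearMap.toMatrix b b (M : E2 →ₗ[ℝ] E2)).det := by
    intro M
    rw [LinearMap.det_toMatrix]
  have hlin : ∀ s : ℝ, LinearMap.toMatrix b b ((A + s • B : E2 →L[ℝ] E2) : E2 →ₗ[ℝ] E2) =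
      LinearMap.toMatrix b b (A : E2 →ₗ[ℝ] E2) + s • LinearMap.toMatrix b b (B : E2 →ₗ[ℝ] E2) := by
    intro s
    rw [← map_smul, ← map_add]
    rfl
  rw [key, key, key, key, hlin, hlin, hlin]
  generalize LinearMap.toMatrix b b (A : E2 →ₗ[ℝ] E2) = P
  generalize LinearMap.toMatrix b b (B : E2 →ₗ[ℝ] E2) = Q
  simp only [Matrix.det_fin_two, Matrix.add_apply, Matrix.smul_apply, smul_eq_mul]
  ring

/-- the area of `K + t L` -/
noncomputable def V2 (K L : Set E2) (t : ℝ) : ℝ := (volume (K + t • L)).toReal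

theorem V2_interp {K L : Set E2} (hKc : IsCompact K) (hLc : IsCompact L) (hKx : Convex ℝ K)
    (hLx : Convex ℝ L) (hKn : K.Nonempty) (hLn : L.Nonempty) {t : ℝ} (ht : 0 ≤ t) :
    V2 K L t = (t - 1) * (t - 2) / 2 * V2 K L 0
      + -(t * (t - 2)) * V2 K L 1
      + t * (t - 1) / 2 * V2 K L 2 := by
  obtain ⟨πK, hK⟩ := exists_isProj hKc hKx hKn
  obtain ⟨πL, hL⟩ := exists_isProj hLc hLx hLn
  have hlipK : LipschitzWith 1 πK := LipschitzWith.of_dist_le_mul (by
    intro x y; rw [dist_eq_norm, dist_eq_norm]; simpa using hK.dist_le x y)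
  have hlipL : LipschitzWith 1 πL := LipschitzWith.of_dist_le_mul (by
    intro x y; rw [dist_eq_norm, dist_eq_norm]; simpa using hL.dist_le x y)
  have haeK := hlipK.ae_differentiableAt (μ := (volume : Measure E2))
  have haeL := hlipL.ae_differentiableAt (μ := (volume : Measure E2))
  -- the integrand
  let g : ℝ → E2 → ℝ := fun s x => (fderiv ℝ (sumMap πK πL s) x).det
  have hfd : ∀ s : ℝ, ∀ᵐ x ∂(volume : Measure E2),
      fderiv ℝ (sumMap πK πL s) x = fderiv ℝ πK x + s • fderiv ℝ πL x := by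
    intro s
    filter_upwards [haeK, haeL] with x h1 h2
    have : sumMap πK πL s = πK + s • πL := by
      funext y; rfl
    rw [this, fderiv_add h1 (h2.const_smul s), fderiv_const_smul h2]
  have hpos : ∀ s : ℝ, 0 ≤ s → ∀ᵐ x ∂(volume : Measure E2), 0 ≤ g s x := by
    intro s hs
    filter_upwards [haeK, haeL] with x h1 h2
    have hd : DifferentiableAt ℝ (sumMap πK πL s) x := by
      have : sumMap πK πL s = πK + s • πL := by
        funext y; rfl
      rw [this]
      exact h1.add (h2.const_smul s)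
    apply det_nonneg_of_mono
    apply fderiv_mono _ hd
    intro y z
    have h3 := sumMap_mono hK hL hs y z
    have h4 := sq_nonneg ‖πK y - πK z‖
    have h5 := mul_nonneg hs (sq_nonneg ‖πL y - πL z‖)
    linarith
  have hmeas : ∀ s : ℝ, Measurable (g s) := fun s =>
    ContinuousLinearMap.continuous_det.measurable.comp (measurable_fderiv ℝ _)
  have hvol : ∀ s : ℝ, 0 ≤ s → volume (K + s • L) = ∫⁻ x, ENNReal.ofReal |g s x| := fun s hs =>
    volume_formula volume hK hL hKc hLc hKx hLx hs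
  have hint : ∀ s : ℝ, 0 ≤ s → Integrable (g s) volume := by
    intro s hs
    refine ⟨(hmeas s).aestronglyMeasurable, ?_⟩
    have : ∫⁻ x, ‖g s x‖ₑ = volume (K + s • L) := by
      rw [hvol s hs]
      apply lintegral_congr
      intro x
      rw [← ofReal_norm, Real.norm_eq_abs]
    rw [HasFiniteIntegral, this]
    exact (hKc.add (hLc.smul s)).measure_lt_top
  have hV : ∀ s : ℝ, 0 ≤ s → V2 K L s = ∫ x, g s x := by
    intro s hs
    rw [V2, hvol s hs, integral_eq_lintegral_of_nonneg_ae (hpos s hs)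
      (hmeas s).aestronglyMeasurable]
    congr 1
    apply lintegral_congr_ae
    filter_upwards [hpos s hs] with x hx
    rw [abs_of_nonneg hx]
  have hae : ∀ᵐ x ∂(volume : Measure E2), g t x =
      (t - 1) * (t - 2) / 2 * g 0 x
      + -(t * (t - 2)) * g 1 x
      + t * (t - 1) / 2 * g 2 x := by
    filter_upwards [hfd t, hfd 0, hfd 1, hfd 2] with x h h0 h1 h2
    simp only [g]
    have e0 : fderiv ℝ πK x + (0:ℝ) • fderiv ℝ πL x = fderiv ℝ πK x := by
      have e1 : (0:ℝ) • fderiv ℝ πL x = 0 := by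
        apply ContinuousLinearMap.ext
        intro v
        simp
      rw [e1, add_zero]
    rw [h, h0, h1, h2, det_interp2, e0]
  rw [hV t ht, hV 0 le_rfl, hV 1 zero_le_one, hV 2 zero_le_two, integral_congr_ae hae]
  have i0 := (hint 0 le_rfl).const_mul ((t - 1) * (t - 2) / 2)
  have i1 := (hint 1 zero_le_one).const_mul (-(t * (t - 2)))
  have i2 := (hint 2 zero_le_two).const_mul (t * (t - 1) / 2)
  have i01 : Integrable (fun x => (t - 1) * (t - 2) / 2 * g 0 x +
      -(t * (t - 2)) * g 1 x) volume := i0.add i1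
  rw [integral_add i01 i2, integral_add i0 i1]
  simp only [integral_const_mul]

/-- the area of `K + t L` in the coordinate plane -/
noncomputable def W2 (K L : Set (Fin 2 → ℝ)) (t : ℝ) : ℝ := (volume (K + t • L)).toReal

theorem toLp_volume2 {S : Set (Fin 2 → ℝ)} (hS : MeasurableSet S) :
    volume ((EuclideanSpace.equiv (Fin 2) ℝ).symm '' S) = volume S := by
  have h := (PiLp.volume_preserving_ofLp (Fin 2)).measure_preimage hS.nullMeasurableSet
  rw [← h]
  congr 1
  ext x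
  simp only [mem_image, mem_preimage]
  constructor
  · rintro ⟨y, hy, rfl⟩
    exact hy
  · intro hx
    exact ⟨_, hx, rfl⟩

theorem W2_eq {K L : Set (Fin 2 → ℝ)} (hKc : IsCompact K) (hLc : IsCompact L) (t : ℝ) :
    W2 K L t = V2 ((EuclideanSpace.equiv (Fin 2) ℝ).symm '' K)
      ((EuclideanSpace.equiv (Fin 2) ℝ).symm '' L) t := by
  rw [W2, V2, ← toLp_volume2 (hKc.add (hLc.smul t)).measurableSet]
  congr 2
  have h1 : (EuclideanSpace.equiv (Fin 2) ℝ).symm '' (t • L) =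
      t • ((EuclideanSpace.equiv (Fin 2) ℝ).symm '' L) := by
    ext x
    simp only [mem_image, mem_smul_set, exists_exists_and_eq_and, map_smul]
  rw [← h1]
  exact image_add (EuclideanSpace.equiv (Fin 2) ℝ).symm

theorem W2_poly {K L : Set (Fin 2 → ℝ)} (hKc : IsCompact K) (hLc : IsCompact L) (hKx : Convex ℝ K)
    (hLx : Convex ℝ L) (hKn : K.Nonempty) (hLn : L.Nonempty) :
    ∃ a0 a1 a2 : ℝ, ∀ t : ℝ, 0 ≤ t → W2 K L t = a0 + a1 * t + a2 * t ^ 2 := by
  have h := fun (t : ℝ) (ht : 0 ≤ t) => V2_interp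
    (hKc.image (EuclideanSpace.equiv (Fin 2) ℝ).symm.continuous)
    (hLc.image (EuclideanSpace.equiv (Fin 2) ℝ).symm.continuous)
    (hKx.linear_image ((EuclideanSpace.equiv (Fin 2) ℝ).symm.toLinearEquiv : (Fin 2 → ℝ) →ₗ[ℝ] E2))
    (hLx.linear_image ((EuclideanSpace.equiv (Fin 2) ℝ).symm.toLinearEquiv : (Fin 2 → ℝ) →ₗ[ℝ] E2))
    (hKn.image _) (hLn.image _) ht
  generalize hv0 : V2 (((EuclideanSpace.equiv (Fin 2) ℝ).symm.toLinearEquiv :
    (Fin 2 → ℝ) →ₗ[ℝ] E2) '' K) (((EuclideanSpace.equiv (Fin 2) ℝ).symm.toLinearEquiv :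
    (Fin 2 → ℝ) →ₗ[ℝ] E2) '' L) 0 = v0 at h
  generalize hv1 : V2 (((EuclideanSpace.equiv (Fin 2) ℝ).symm.toLinearEquiv :
    (Fin 2 → ℝ) →ₗ[ℝ] E2) '' K) (((EuclideanSpace.equiv (Fin 2) ℝ).symm.toLinearEquiv :
    (Fin 2 → ℝ) →ₗ[ℝ] E2) '' L) 1 = v1 at h
  generalize hv2 : V2 (((EuclideanSpace.equiv (Fin 2) ℝ).symm.toLinearEquiv :
    (Fin 2 → ℝ) →ₗ[ℝ] E2) '' K) (((EuclideanSpace.equiv (Fin 2) ℝ).symm.toLinearEquiv :
    (Fin 2 → ℝ) →ₗ[ℝ] E2) '' L) 2 = v2 at h
  refine ⟨v0, -3 / 2 * v0 + 2 * v1 - v2 / 2, v0 / 2 - v1 + v2 / 2, ?_⟩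
  intro t ht
  rw [W2_eq hKc hLc]
  have h1 := h t ht
  rw [h1]
  ring

/-- The polynomial `V (K - t K)` is palindromic. -/
theorem W2_sym {K : Set (Fin 2 → ℝ)} (hKc : IsCompact K) (hKx : Convex ℝ K) (hKn : K.Nonempty) :
    ∃ a1 : ℝ, ∀ t : ℝ, 0 ≤ t → W2 K (-K) t = (volume K).toReal + a1 * t +
      (volume K).toReal * t ^ 2 := by
  obtain ⟨a0, a1, a2, h⟩ := W2_poly hKc hKc.neg hKx hKx.neg hKn hKn.neg
  have hsym : ∀ t : ℝ, 0 < t → W2 K (-K) t = t ^ 2 * W2 K (-K) t⁻¹ := by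
    intro t ht
    have hset : K + t • (-K) = (-t) • (K + t⁻¹ • (-K)) := by
      rw [smul_add, smul_smul, neg_mul, mul_inv_cancel₀ ht.ne', Set.neg_smul_set, Set.neg_smul_set,
        one_smul, neg_neg, Set.smul_set_neg, add_comm]
    rw [W2, W2, hset, Measure.addHaar_smul]
    simp only [Module.finrank_fintype_fun_eq_card, Fintype.card_fin]
    rw [ENNReal.toReal_mul, ENNReal.toReal_ofReal (abs_nonneg _), abs_pow, abs_neg, abs_of_pos ht]
  have h0 : W2 K (-K) 0 = (volume K).toReal := by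
    rw [W2, zero_smul_set hKn.neg, add_zero]
  have e0 := h 0 le_rfl
  rw [h0] at e0
  have e2 := hsym 2 two_pos
  rw [h 2 two_pos.le, h _ (by norm_num)] at e2
  have ha : a0 = a2 := by linarith
  refine ⟨a1, fun t ht => ?_⟩
  rw [h t ht, ← ha, e0]
  ring

end Pool.Agent.Lib.MP_725e58_gt.Tow
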