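import Mathlib

/-!
One-sided signs of a linear path.
-/

set_option autoImplicit false

namespace Pool.Agent.Lib.MP_725e58_gt.Tow

open Finset

/-- the sign vector with positive set `J` -/
def sg {κ : Type*} [DecidableEq κ] (J : Finset κ) (i : κ) : ℝ := if i ∈ J then 1 else -1

theorem sg_sq {κ : Type*} [DecidableEq κ] (J : Finset κ) (i : κ) : sg J i * sg J i = 1 := by
  unfold sg
  split_ifs <;> norm_num

theorem sg_abs {κ : Type*} [DecidableEq κ] (J : Finset κ) (i : κ) : |sg J i| = 1 := by
  unfold sg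
  split_ifs <;> norm_num

theorem sg_mul_le {κ : Type*} [DecidableEq κ] (J : Finset κ) (i : κ) (x : ℝ) :
    sg J i * x ≤ |x| := by
  unfold sg
  split_ifs
  · rw [one_mul]; exact le_abs_self x
  · rw [neg_one_mul]; exact neg_le_abs x

/-- along a short segment the signs of the coordinates can be chosen constant -/
theorem exists_sign {κ : Type*} [Fintype κ] [DecidableEq κ] (c q : κ → ℝ) :
    ∃ J : Finset κ, ∃ ε0 : ℝ, 0 < ε0 ∧ ∀ ε : ℝ, 0 ≤ ε → ε ≤ ε0 → ∀ i,
      |c i + ε * q i| = sg J i * (c i + ε * q i) := by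
  classical
  let J : Finset κ := univ.filter fun i => 0 < c i ∨ (c i = 0 ∧ 0 ≤ q i)
  have hJ : ∀ i, ∃ e : ℝ, 0 < e ∧ ∀ ε : ℝ, 0 ≤ ε → ε ≤ e →
      |c i + ε * q i| = sg J i * (c i + ε * q i) := by
    intro i
    have hmem : i ∈ J ↔ (0 < c i ∨ (c i = 0 ∧ 0 ≤ q i)) := by simp [J]
    rcases lt_trichotomy (c i) 0 with h | h | h
    · refine ⟨-c i / (|q i| + 1), by apply div_pos <;> [linarith; positivity], ?_⟩
      intro ε h0 h1
      have hn : i ∉ J := by
        rw [hmem]
        rintro (h2 | h2)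
        · linarith
        · linarith [h2.1]
      rw [le_div_iff₀ (by positivity)] at h1
      have h2 : ε * q i ≤ ε * |q i| := mul_le_mul_of_nonneg_left (le_abs_self _) h0
      have h3 : c i + ε * q i ≤ 0 := by nlinarith
      rw [abs_of_nonpos h3, sg, if_neg hn]
      ring
    · refine ⟨1, one_pos, ?_⟩
      intro ε h0 _
      rw [h, zero_add]
      by_cases hq : 0 ≤ q i
      · have hm : i ∈ J := hmem.mpr (Or.inr ⟨h, hq⟩)
        rw [abs_of_nonneg (mul_nonneg h0 hq), sg, if_pos hm, one_mul]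
      · push Not at hq
        have hn : i ∉ J := by
          rw [hmem]
          rintro (h2 | h2)
          · linarith
          · linarith [h2.2]
        rw [abs_of_nonpos (mul_nonpos_of_nonneg_of_nonpos h0 hq.le), sg, if_neg hn]
        ring
    · refine ⟨c i / (|q i| + 1), by positivity, ?_⟩
      intro ε h0 h1
      have hm : i ∈ J := hmem.mpr (Or.inl h)
      rw [le_div_iff₀ (by positivity)] at h1
      have h2 : -(ε * |q i|) ≤ ε * q i := by
        have := mul_le_mul_of_nonneg_left (neg_abs_le (q i)) h0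
        linarith
      have h3 : 0 ≤ c i + ε * q i := by nlinarith
      rw [abs_of_nonneg h3, sg, if_pos hm, one_mul]
  choose e he1 he2 using hJ
  rcases isEmpty_or_nonempty κ with hem | hne
  · exact ⟨J, 1, one_pos, fun ε _ _ i => (hem.false i).elim⟩
  · obtain ⟨i0, hi0⟩ := Finite.exists_min e
    exact ⟨J, e i0, he1 i0, fun ε h0 h1 i => he2 i ε h0 (h1.trans (hi0 i))⟩

end Pool.Agent.Lib.MP_725e58_gt.Tow
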