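import Mathlib
import Pool.Agent.Lib.MP_725e58_gt.Tow.Basic
import Pool.Agent.Lib.MP_725e58_gt.Tow.Sign

/-!
Reflection bodies of simplices: the upper bound by a signed sum.
-/

set_option autoImplicit false

namespace Pool.Agent.Lib.MP_725e58_gt.Tow

open MeasureTheory Set
open scoped ENNReal Pointwise

section simplex
variable {ι : Type*} [Fintype ι] [DecidableEq ι]

/-- hull of the signed basis vectors and one more point -/
def Sy (σ : ι → ℝ) (y : ι → ℝ) : Set (ι → ℝ) :=
  convexHull ℝ (range (fun i : ι => (Pi.single i (σ i) : ι → ℝ)) ∪ {y})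

theorem Sy_one_volume (y : ι → ℝ) :
    volume (Sy (fun _ => 1) y) = ENNReal.ofReal |1 - ∑ i, y i| * volume (Sy (fun _ : ι => 1) 0) := by
  let f : Module.Dual ℝ (ι → ℝ) := ∑ i, LinearMap.proj i
  have hf : ∀ x : ι → ℝ, f x = ∑ i, x i := by
    intro x
    simp [f]
  let M := LinearMap.transvection f (-y)
  have hM : ∀ x, M x = x - (∑ i, x i) • y := by
    intro x
    rw [LinearMap.transvection.apply, hf, smul_neg, sub_eq_add_neg]
  have himg : Sy (fun _ => 1) y = (fun x => y + x) '' (M '' Sy (fun _ : ι => 1) 0) := by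
    rw [image_image, Sy, Sy]
    have hg : (fun x => y + M x) = ⇑(M.toAffineMap + AffineMap.const ℝ (ι → ℝ) y) := by
      funext x
      simp [add_comm]
    rw [hg, AffineMap.image_convexHull, image_union, ← hg, image_singleton, ← range_comp]
    congr 2
    · congr 1
      funext i
      simp [hM]
    · simp [hM]
  rw [himg, image_add_left, measure_preimage_add, Measure.addHaar_image_linearMap,
    LinearMap.transvection.det, map_neg, hf, ← sub_eq_add_neg]

theorem Sy_volume (J : Finset ι) (y : ι → ℝ) :
    volume (Sy (sg J) y) = ENNReal.ofReal |1 - ∑ i, sg J i * y i| *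
      volume (Sy (fun _ : ι => 1) 0) := by
  rw [← Sy_one_volume]
  let M : (ι → ℝ) →ₗ[ℝ] (ι → ℝ) := Matrix.toLin' (Matrix.diagonal (sg J))
  have hM : ∀ x, M x = fun i => sg J i * x i := by
    intro x
    funext i
    simp [M, Matrix.mulVec_diagonal]
  have himg : Sy (sg J) y = M '' Sy (fun _ : ι => 1) (fun i => sg J i * y i) := by
    rw [Sy, Sy, LinearMap.image_convexHull, image_union, image_singleton, ← range_comp, hM]
    congr 2
    · congr 1
      funext i
      simp only [Function.comp_apply, hM]
      funext j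
      by_cases h : j = i
      · subst h; simp
      · simp [h]
    · congr 1
      funext i
      rw [← mul_assoc, sg_sq, one_mul]
  rw [himg, Measure.addHaar_image_linearMap, LinearMap.det_toLin', Matrix.det_diagonal,
    Finset.abs_prod]
  simp [sg_abs]

/-- weights: `1` for the last vertex, `a` for the others -/
def wt (a : ι → ℝ) : Option ι → ℝ := fun o => o.elim 1 a

/-- the linear map with kernel spanned by the weights -/
def GG (a : ι → ℝ) (c : Option ι → ℝ) : ι → ℝ := fun j => c (some j) - c none * a j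

theorem GG_mem (a : ι → ℝ) {c : Option ι → ℝ} {J : Finset (Option ι)}
    (hc : ∀ i, |c i| = sg J i * c i) (h1 : ∑ i, |c i| = 1) :
    GG a c ∈ Sy (fun j => sg J (some j)) (-(sg J none) • a) := by
  have hconv := convex_convexHull ℝ
    (range (fun i : ι => (Pi.single i (sg J (some i)) : ι → ℝ)) ∪ {(-(sg J none) • a)})
  let z : Option ι → (ι → ℝ) := fun o => o.elim (-(sg J none) • a)
    (fun j => Pi.single j (sg J (some j)))
  have hz : ∀ o, z o ∈ convexHull ℝ
      (range (fun i : ι => (Pi.single i (sg J (some i)) : ι → ℝ)) ∪ {(-(sg J none) • a)}) := by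
    intro o
    apply subset_convexHull ℝ _
    rcases o with _ | j
    · right; rfl
    · left; exact ⟨j, rfl⟩
  have hmem := hconv.sum_mem (t := Finset.univ) (w := fun o => |c o|) (z := z)
    (fun i _ => abs_nonneg _) h1 (fun o _ => hz o)
  rw [Sy]
  convert hmem using 1
  funext j
  simp only [Fintype.sum_option, Pi.add_apply, Pi.smul_apply, Finset.sum_apply, smul_eq_mul, z,
    Option.elim, GG]
  rw [Finset.sum_eq_single j]
  · rw [hc, hc]
    simp only [Pi.single_eq_same]
    have e1 := sg_sq J none
    have e2 := sg_sq J (some j)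
    linear_combination (-(c (some j))) * e2 + (c none * a j) * e1
  · intro b _ hb
    rw [Pi.single_eq_of_ne hb.symm, mul_zero]
  · simp

/-- the octahedral body covered by the signed simplices of nonnegative weight -/
theorem cover (a : ι → ℝ) (ha : ∀ i, 0 < a i) {c : Option ι → ℝ} (hc : ∑ i, |c i| ≤ 1) :
    ∃ J : Finset (Option ι), 0 ≤ ∑ i, sg J i * wt a i ∧
      GG a c ∈ Sy (fun j => sg J (some j)) (-(sg J none) • a) := by
  have hw : ∀ i, 0 < wt a i := by
    rintro (_ | j)
    · exact one_pos
    · exact ha j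
  let A : Set ℝ := {l | 0 ≤ l ∧ ∑ i, |c i + l * wt a i| ≤ 1}
  have hAcl : IsClosed A := by
    have hcont : Continuous fun l : ℝ => ∑ i, |c i + l * wt a i| := by fun_prop
    exact (isClosed_le continuous_const continuous_id).inter (isClosed_le hcont continuous_const)
  have hAsub : A ⊆ Icc 0 (1 + |c none|) := by
    rintro l ⟨h0, h1⟩
    refine ⟨h0, ?_⟩
    have h2 := Finset.single_le_sum (f := fun i => |c i + l * wt a i|)
      (fun i _ => abs_nonneg _) (Finset.mem_univ none)
    have h3 : |c none + l * wt a none| ≤ 1 := h2.trans h1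
    have h4 : wt a none = 1 := rfl
    rw [h4, mul_one] at h3
    have h5 := (abs_le.mp h3).2
    have h6 := neg_abs_le (c none)
    linarith
  have hAc : IsCompact A := isCompact_Icc.of_isClosed_subset hAcl hAsub
  have hAn : A.Nonempty := ⟨0, le_rfl, by simpa using hc⟩
  have hmax := hAc.sSup_mem hAn
  set l := sSup A with hl
  obtain ⟨J, ε0, hε0, hJ⟩ := exists_sign (fun i => c i + l * wt a i) (wt a)
  set δ := ∑ i, sg J i * wt a i with hδ
  have hout : ∀ ε : ℝ, 0 < ε → ε ≤ ε0 → 1 < ∑ i, |c i + l * wt a i| + ε * δ := by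
    intro ε h0 h1
    have hnot : l + ε ∉ A := by
      intro hmem
      have := le_csSup hAc.bddAbove hmem
      linarith
    have h2 : 1 < ∑ i, |c i + (l + ε) * wt a i| := by
      by_contra h3
      push Not at h3
      exact hnot ⟨by linarith [hmax.1], h3⟩
    have h3 : ∑ i, |c i + (l + ε) * wt a i| = ∑ i, |c i + l * wt a i| + ε * δ := by
      rw [hδ, Finset.mul_sum, ← Finset.sum_add_distrib]
      apply Finset.sum_congr rfl
      intro i _
      have e1 := hJ ε h0.le h1 i
      have e2 := hJ 0 le_rfl hε0.le i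
      simp only [zero_mul, add_zero] at e2
      have e3 : c i + (l + ε) * wt a i = c i + l * wt a i + ε * wt a i := by ring
      rw [e3, e1, e2]
      ring
    rw [← h3]
    exact h2
  have hle : ∑ i, |c i + l * wt a i| ≤ 1 := hmax.2
  have hδ0 : 0 < δ := by
    have h1 := hout ε0 hε0 le_rfl
    by_contra h2
    push Not at h2
    have := mul_nonpos_of_nonneg_of_nonpos hε0.le h2
    linarith
  have hge : 1 ≤ ∑ i, |c i + l * wt a i| := by
    by_contra h1
    push Not at h1
    let η := 1 - ∑ i, |c i + l * wt a i|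
    have hη : 0 < η := by simp only [η]; linarith
    have h2 := hout (min ε0 (η / δ)) (lt_min hε0 (div_pos hη hδ0)) (min_le_left _ _)
    have h3 : min ε0 (η / δ) * δ ≤ η / δ * δ :=
      mul_le_mul_of_nonneg_right (min_le_right _ _) hδ0.le
    rw [div_mul_cancel₀ _ hδ0.ne'] at h3
    simp only [η] at h3
    linarith
  refine ⟨J, hδ0.le, ?_⟩
  have hmem := GG_mem a (c := fun i => c i + l * wt a i) (J := J)
    (fun i => by simpa using hJ 0 le_rfl hε0.le i) (le_antisymm hle hge)
  convert hmem using 1
  funext j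
  simp only [GG, wt, Option.elim]
  ring

/-- the octahedral body -/
def Oct (a : ι → ℝ) : Set (ι → ℝ) := {y | ∃ c : Option ι → ℝ, ∑ i, |c i| ≤ 1 ∧ y = GG a c}

theorem Oct_convex (a : ι → ℝ) : Convex ℝ (Oct a) := by
  rintro _ ⟨c, hc, rfl⟩ _ ⟨e, he, rfl⟩ s t hs ht hst
  refine ⟨s • c + t • e, ?_, ?_⟩
  · calc ∑ i, |(s • c + t • e) i| ≤ ∑ i, (s * |c i| + t * |e i|) := by
          apply Finset.sum_le_sum
          intro i _
          simp only [Pi.add_apply, Pi.smul_apply, smul_eq_mul]
          calc |s * c i + t * e i| ≤ |s * c i| + |t * e i| := abs_add_le _ _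
            _ = _ := by rw [abs_mul, abs_mul, abs_of_nonneg hs, abs_of_nonneg ht]
      _ = s * ∑ i, |c i| + t * ∑ i, |e i| := by
          rw [Finset.sum_add_distrib, Finset.mul_sum, Finset.mul_sum]
      _ ≤ s * 1 + t * 1 := by gcongr
      _ = 1 := by linarith
  · funext j
    simp only [GG, Pi.add_apply, Pi.smul_apply, smul_eq_mul]
    ring

theorem Oct_neg {a : ι → ℝ} {y : ι → ℝ} (hy : y ∈ Oct a) : -y ∈ Oct a := by
  obtain ⟨c, hc, rfl⟩ := hy
  refine ⟨-c, by simpa using hc, ?_⟩
  funext j
  simp only [GG, Pi.neg_apply]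
  ring

theorem RB_simplex_sub (a : ι → ℝ) : RB (Sy (fun _ => 1) (-a)) 0 ⊆ Oct a := by
  have h1 : Sy (fun _ => 1) (-a) ⊆ Oct a := by
    apply convexHull_min _ (Oct_convex a)
    rintro _ (⟨i, rfl⟩ | rfl)
    · refine ⟨Pi.single (some i) 1, ?_, ?_⟩
      · rw [Fintype.sum_option]
        simp only [ne_eq, reduceCtorEq, not_false_eq_true, Pi.single_eq_of_ne, abs_zero, zero_add]
        rw [Finset.sum_eq_single i]
        · simp
        · intro j _ hj
          rw [Pi.single_eq_of_ne (by simpa using hj), abs_zero]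
        · simp
      · funext j
        simp only [GG, ne_eq, reduceCtorEq, not_false_eq_true, Pi.single_eq_of_ne, zero_mul,
          sub_zero]
        by_cases h : j = i
        · subst h; simp
        · rw [Pi.single_eq_of_ne h, Pi.single_eq_of_ne (by simpa using h)]
    · refine ⟨Pi.single none 1, ?_, ?_⟩
      · rw [Fintype.sum_option]
        simp
      · funext j
        simp [GG]
  apply convexHull_min _ (Oct_convex a)
  apply union_subset h1
  rintro _ ⟨y, hy, rfl⟩
  have := Oct_neg (h1 hy)
  simpa using this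

/-- the signed sum bounding the volume of the reflection body -/
noncomputable def SS (w : Option ι → ℝ) : ℝ :=
  ∑ J : Finset (Option ι), max (∑ i, sg J i * w i) 0

theorem RB_simplex_volume (a : ι → ℝ) (ha : ∀ i, 0 < a i) :
    volume (RB (Sy (fun _ => 1) (-a)) 0) ≤
      ENNReal.ofReal (SS (wt a)) * volume (Sy (fun _ : ι => 1) 0) := by
  have hcov : RB (Sy (fun _ => 1) (-a)) 0 ⊆
      ⋃ J ∈ (Finset.univ.filter fun J : Finset (Option ι) => 0 ≤ ∑ i, sg J i * wt a i),
        Sy (fun j => sg J (some j)) (-(sg J none) • a) := by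
    intro y hy
    obtain ⟨c, hc, rfl⟩ := RB_simplex_sub a hy
    obtain ⟨J, hJ, hmem⟩ := cover a ha hc
    simp only [mem_iUnion]
    exact ⟨J, by simpa using hJ, hmem⟩
  calc volume (RB (Sy (fun _ => 1) (-a)) 0)
      ≤ volume (⋃ J ∈ (Finset.univ.filter
          fun J : Finset (Option ι) => 0 ≤ ∑ i, sg J i * wt a i),
        Sy (fun j => sg J (some j)) (-(sg J none) • a)) := measure_mono hcov
    _ ≤ ∑ J ∈ (Finset.univ.filter
          fun J : Finset (Option ι) => 0 ≤ ∑ i, sg J i * wt a i),
        volume (Sy (fun j => sg J (some j)) (-(sg J none) • a)) :=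
        measure_biUnion_finset_le _ _
    _ = ∑ J ∈ (Finset.univ.filter
          fun J : Finset (Option ι) => 0 ≤ ∑ i, sg J i * wt a i),
        ENNReal.ofReal (max (∑ i, sg J i * wt a i) 0) * volume (Sy (fun _ : ι => 1) 0) := by
        apply Finset.sum_congr rfl
        intro J hJ
        have hJ' : 0 ≤ ∑ i, sg J i * wt a i := by simpa using hJ
        rw [max_eq_left hJ']
        let J' : Finset ι := Finset.univ.filter fun j => some j ∈ J
        have hJJ : (fun j => sg J (some j)) = sg J' := by
          funext j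
          simp [sg, J']
        rw [hJJ, Sy_volume]
        congr 2
        have e1 : 1 - ∑ i, sg J' i * (-(sg J none) • a) i =
            sg J none * ∑ i, sg J i * wt a i := by
          rw [Fintype.sum_option, ← hJJ]
          simp only [Pi.smul_apply, smul_eq_mul, wt, Option.elim, mul_one, mul_add,
            Finset.mul_sum]
          rw [sg_sq, sub_eq_add_neg, ← Finset.sum_neg_distrib]
          congr 1
          apply Finset.sum_congr rfl
          intro i _
          ring
        rw [e1, abs_mul, sg_abs, one_mul, abs_of_nonneg hJ']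
    _ ≤ ∑ J : Finset (Option ι),
        ENNReal.ofReal (max (∑ i, sg J i * wt a i) 0) * volume (Sy (fun _ : ι => 1) 0) :=
        Finset.sum_le_sum_of_subset (Finset.filter_subset _ _)
    _ = _ := by
        rw [← Finset.sum_mul, SS, ENNReal.ofReal_sum_of_nonneg]
        intro J _
        exact le_max_right _ _

theorem simplex_volume (a : ι → ℝ) (ha : ∀ i, 0 < a i) :
    volume (Sy (fun _ => 1) (-a)) =
      ENNReal.ofReal (1 + ∑ i, a i) * volume (Sy (fun _ : ι => 1) 0) := by
  rw [Sy_one_volume]
  have : 1 - ∑ i, (-a) i = 1 + ∑ i, a i := by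
    simp
  rw [this, abs_of_nonneg]
  have := Finset.sum_nonneg (s := Finset.univ) (f := a) fun i _ => (ha i).le
  linarith

theorem simplex_le (a : ι → ℝ) (ha : ∀ i, 0 < a i) {C : ℝ}
    (hSS : SS (wt a) ≤ C * (1 + ∑ i, a i)) :
    volume (RB (Sy (fun _ => 1) (-a)) 0) ≤
      ENNReal.ofReal C * volume (Sy (fun _ => 1) (-a)) := by
  rw [simplex_volume a ha, ← mul_assoc, ← ENNReal.ofReal_mul']
  · refine (RB_simplex_volume a ha).trans ?_
    gcongr
  · have := Finset.sum_nonneg (s := Finset.univ) (f := a) fun i _ => (ha i).le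
    linarith

end simplex

end Pool.Agent.Lib.MP_725e58_gt.Tow
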