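import Mathlib
import Pool.Agent.Lib.MP_725e58_gt.Tow.Poly2
import Pool.Agent.Lib.MP_725e58_gt.Tow.Simp
import Pool.Agent.Lib.MP_87489e_co.Simplex
import Pool.Agent.Lib.MP_87489e_co.Mixed

/-!
Comparison of `α D - β D` with the same combination of a simplex, in dimensions two and three.
-/

set_option autoImplicit false

namespace Pool.Agent.Lib.MP_725e58_gt.Tow

open MeasureTheory Set Pointwise
open scoped ENNReal
open Pool.Agent.Lib.MP_87489e_co

/-- the reference simplex with centroid at the origin -/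
abbrev TT (n : ℕ) : Set (Fin n → ℝ) := Sy (fun _ => 1) (-(fun _ => 1))

/-- `D` has asymmetry at most `n` about the origin -/
def Asym (n : ℕ) (D : Set (Fin n → ℝ)) : Prop := ∀ y ∈ D, -y ∈ (n : ℝ) • D

/-- the combinations `α D - β D` are at most as large as those of a simplex -/
def Cmp (n : ℕ) : Prop :=
  ∀ D : Set (Fin n → ℝ), IsCompact D → Convex ℝ D → (0 : Fin n → ℝ) ∈ D → Asym n D →
    ∀ α β : ℝ, 0 ≤ α → 0 ≤ β →
      volume (α • D + β • (-D)) * volume (TT n) ≤ volume (α • TT n + β • (-TT n)) * volume D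

theorem Tn_eq (n : ℕ) : Tn n = Sy (fun _ : Fin n => 1) 0 := by
  apply Subset.antisymm
  · intro x hx
    let z : Option (Fin n) → (Fin n → ℝ) := fun o => o.elim 0 (fun j => Pi.single j 1)
    let w : Option (Fin n) → ℝ := fun o => o.elim (1 - ∑ i, x i) x
    have hz : ∀ o, z o ∈ Sy (fun _ : Fin n => 1) 0 := by
      intro o
      apply subset_convexHull ℝ _
      rcases o with _ | j
      · right; rfl
      · left; exact ⟨j, rfl⟩
    have hw : ∀ o ∈ (Finset.univ : Finset (Option (Fin n))), 0 ≤ w o := by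
      rintro (_ | j) _
      · have := hx.2
        simp only [w, Option.elim]
        linarith
      · exact hx.1 j
    have h1 : ∑ o, w o = 1 := by
      rw [Fintype.sum_option]
      simp [w]
    have := (convex_convexHull ℝ _).sum_mem hw h1 (fun o _ => hz o)
    rw [Sy]
    convert this using 1
    funext j
    rw [Fintype.sum_option]
    simp only [z, w, Option.elim, smul_zero, zero_add, Finset.sum_apply, Pi.smul_apply,
      smul_eq_mul]
    rw [Finset.sum_eq_single j]
    · simp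
    · intro b _ hb
      rw [Pi.single_eq_of_ne hb.symm, mul_zero]
    · simp
  · apply convexHull_min _ (Tn_convex n)
    rintro _ (⟨i, rfl⟩ | rfl)
    · refine ⟨fun j => ?_, ?_⟩
      · by_cases h : j = i
        · subst h; simp
        · simp [h]
      · simp
    · exact ⟨by simp, by simp⟩

theorem TT_image (n : ℕ) : ∃ M : (Fin n → ℝ) →ₗ[ℝ] (Fin n → ℝ), LinearMap.det M ≠ 0 ∧
    TT n = (fun x => (-(fun _ => (1:ℝ))) + x) '' (M '' Tn n) := by
  let y : Fin n → ℝ := -(fun _ => 1)
  let f : Module.Dual ℝ (Fin n → ℝ) := ∑ i, LinearMap.proj i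
  have hf : ∀ x : Fin n → ℝ, f x = ∑ i, x i := by
    intro x
    simp [f]
  let M := LinearMap.transvection f (-y)
  have hM : ∀ x, M x = x - (∑ i, x i) • y := by
    intro x
    rw [LinearMap.transvection.apply, hf, smul_neg, sub_eq_add_neg]
  refine ⟨M, ?_, ?_⟩
  · rw [LinearMap.transvection.det, map_neg, hf]
    have : (1 : ℝ) + -∑ i, y i = 1 + n := by simp [y]
    rw [this]
    positivity
  · rw [Tn_eq, image_image, TT, Sy, Sy]
    change _ = (fun x => y + M x) '' _
    have hg : (fun x => y + M x) = ⇑(M.toAffineMap + AffineMap.const ℝ (Fin n → ℝ) y) := by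
      funext x
      simp [add_comm]
    rw [hg, AffineMap.image_convexHull, image_union, ← hg, image_singleton, ← range_comp]
    congr 2
    · congr 1
      funext i
      simp [hM]
    · simp [hM, y]

theorem TT_diff {n : ℕ} {c : ℝ≥0∞} (h : c * volume (Tn n) ≤ volume (Tn n + -Tn n)) :
    c * volume (TT n) ≤ volume (TT n + -TT n) := by
  obtain ⟨M, -, hT⟩ := TT_image n
  have h2 : TT n + -TT n = M '' (Tn n + -Tn n) := by
    rw [hT]
    ext z
    simp only [Set.mem_add, Set.mem_neg, mem_image]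
    constructor
    · rintro ⟨_, ⟨_, ⟨x, hx, rfl⟩, rfl⟩, w, ⟨_, ⟨x', hx', rfl⟩, h3⟩, rfl⟩
      refine ⟨x - x', ⟨x, hx, -x', by simpa using hx', by abel⟩, ?_⟩
      have h4 : w = -((-(fun _ => (1:ℝ))) + M x') := by rw [h3, neg_neg]
      rw [h4, map_sub]
      abel
    · rintro ⟨_, ⟨x, hx, x', hx', rfl⟩, rfl⟩
      refine ⟨_, ⟨_, ⟨x, hx, rfl⟩, rfl⟩, -((-(fun _ => (1:ℝ))) + M (-x')),
        ⟨_, ⟨-x', hx', rfl⟩, by rw [neg_neg]⟩, ?_⟩
      rw [map_add, map_neg]
      abel
  rw [h2, hT, image_add_left, measure_preimage_add, Measure.addHaar_image_linearMap,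
    Measure.addHaar_image_linearMap, mul_left_comm]
  gcongr

theorem Tn2_diff : 6 * volume (Tn 2) ≤ volume (Tn 2 + -Tn 2) := by
  have hle : volume (Tn 2) ≤ ENNReal.ofReal (1 / 2) := by
    have := Tn_volume_le 2
    simpa [Nat.factorial] using this
  have hfin : volume (Tn 2) ≠ ⊤ := (Tn_compact 2).measure_lt_top.ne
  have hsq : volume (Icc (fun _ => -1) (fun _ => 1) : Set (Fin 2 → ℝ)) = 4 := by
    rw [Real.volume_Icc_pi]
    simp only [Finset.prod_const, Finset.card_univ, Fintype.card_fin]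
    rw [← ENNReal.ofReal_pow (by norm_num)]
    norm_num
  let A1 : Set (Fin 2 → ℝ) := (fun z : Fin 2 → ℝ => fun i => (1:ℝ) * (1 - z i)) '' (Tn 2)
  let A2 : Set (Fin 2 → ℝ) := (fun z : Fin 2 → ℝ => fun i => (-1:ℝ) * (1 - z i)) '' (Tn 2)
  have hA1 : volume A1 = volume (Tn 2) := flip_volume (fun _ => 1) (by simp) (Tn 2)
  have hA2 : volume A2 = volume (Tn 2) := flip_volume (fun _ => -1) (by simp) (Tn 2)
  have hcov : (Icc (fun _ => -1) (fun _ => 1) : Set (Fin 2 → ℝ)) ⊆ (Tn 2 + -Tn 2) ∪ (A1 ∪ A2) := by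
    intro y hy
    have h0 := hy.1 0; have h0' := hy.2 0; have h1 := hy.1 1; have h1' := hy.2 1
    simp only at h0 h0' h1 h1'
    have mk : ∀ a b : ℝ, 0 ≤ a → 0 ≤ b → a + b ≤ 1 → (![a, b] : Fin 2 → ℝ) ∈ Tn 2 := by
      intro a b ha hb hab
      refine ⟨fun i => ?_, ?_⟩
      · fin_cases i
        · exact ha
        · exact hb
      · rw [Fin.sum_univ_two]; simpa using hab
    by_cases g1 : 1 ≤ y 0 + y 1
    · right; left
      refine ⟨![1 - y 0, 1 - y 1], mk _ _ (by linarith) (by linarith) (by linarith), ?_⟩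
      funext i
      fin_cases i <;> simp
    by_cases g2 : y 0 + y 1 ≤ -1
    · right; right
      refine ⟨![1 + y 0, 1 + y 1], mk _ _ (by linarith) (by linarith) (by linarith), ?_⟩
      funext i
      fin_cases i <;> simp
    push Not at g1 g2
    left
    rw [Set.mem_add]
    rcases le_total 0 (y 0) with a0 | a0 <;> rcases le_total 0 (y 1) with a1 | a1
    · refine ⟨![y 0, y 1], mk _ _ a0 a1 g1.le, ![0, 0], ?_, ?_⟩
      · rw [Set.mem_neg]
        have : -(![0, 0] : Fin 2 → ℝ) = ![0, 0] := by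
          funext i; fin_cases i <;> simp
        rw [this]
        exact mk 0 0 le_rfl le_rfl (by norm_num)
      · funext i; fin_cases i <;> simp
    · refine ⟨![y 0, 0], mk _ _ a0 le_rfl (by linarith), ![0, y 1], ?_, ?_⟩
      · rw [Set.mem_neg]
        have : -(![0, y 1] : Fin 2 → ℝ) = ![0, -y 1] := by
          funext i; fin_cases i <;> simp
        rw [this]
        exact mk 0 _ le_rfl (by linarith) (by linarith)
      · funext i; fin_cases i <;> simp
    · refine ⟨![0, y 1], mk _ _ le_rfl a1 (by linarith), ![y 0, 0], ?_, ?_⟩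
      · rw [Set.mem_neg]
        have : -(![y 0, 0] : Fin 2 → ℝ) = ![-y 0, 0] := by
          funext i; fin_cases i <;> simp
        rw [this]
        exact mk _ 0 (by linarith) le_rfl (by linarith)
      · funext i; fin_cases i <;> simp
    · refine ⟨![0, 0], mk _ _ le_rfl le_rfl (by norm_num), ![y 0, y 1], ?_, ?_⟩
      · rw [Set.mem_neg]
        have : -(![y 0, y 1] : Fin 2 → ℝ) = ![-y 0, -y 1] := by
          funext i; fin_cases i <;> simp
        rw [this]
        exact mk _ _ (by linarith) (by linarith) (by linarith)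
      · funext i; fin_cases i <;> simp
  have h1 : (4 : ℝ≥0∞) ≤ volume (Tn 2 + -Tn 2) + 2 * volume (Tn 2) := by
    calc (4 : ℝ≥0∞) = volume (Icc (fun _ => -1) (fun _ => 1) : Set (Fin 2 → ℝ)) := hsq.symm
      _ ≤ volume ((Tn 2 + -Tn 2) ∪ (A1 ∪ A2)) := measure_mono hcov
      _ ≤ volume (Tn 2 + -Tn 2) + (volume A1 + volume A2) :=
          (measure_union_le _ _).trans (by gcongr; exact measure_union_le _ _)
      _ = _ := by rw [hA1, hA2, two_mul]
  have h2 : 6 * volume (Tn 2) + 2 * volume (Tn 2) ≤ 4 := by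
    calc 6 * volume (Tn 2) + 2 * volume (Tn 2) = 8 * volume (Tn 2) := by ring
      _ ≤ 8 * ENNReal.ofReal (1 / 2) := by gcongr
      _ = 4 := by
        have : (8 : ENNReal) = ENNReal.ofReal 8 := by norm_num
        rw [this, ← ENNReal.ofReal_mul (by norm_num)]
        norm_num
  exact (ENNReal.add_le_add_iff_right (ENNReal.mul_ne_top (by simp) hfin)).mp (h2.trans h1)

theorem Tn3_diff : 20 * volume (Tn 3) ≤ volume (Tn 3 + -Tn 3) := by
  have h1 := tetra_diff
  have h2 : tetra - tetra = vL tv '' (Tn 3 + -Tn 3) := by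
    rw [tetra, ← sub_eq_add_neg]
    exact (image_sub (vL tv)).symm
  rw [h2, tetra, Measure.addHaar_image_linearMap, Measure.addHaar_image_linearMap, vL_det, tv_det,
    mul_left_comm] at h1
  have h3 : ENNReal.ofReal |(-2:ℝ)| ≠ 0 := by simp
  have h4 : ENNReal.ofReal |(-2:ℝ)| ≠ ⊤ := ENNReal.ofReal_ne_top
  exact (ENNReal.mul_le_mul_iff_right h3 h4).mp h1

theorem TT_compact (n : ℕ) : IsCompact (TT n) := by
  apply Set.Finite.isCompact_convexHull
  exact (Set.finite_range _).union (Set.finite_singleton _)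

theorem TT_convex (n : ℕ) : Convex ℝ (TT n) := convex_convexHull ℝ _

theorem TT_nonempty (n : ℕ) : (TT n).Nonempty := ⟨_, subset_convexHull ℝ _ (Or.inr rfl)⟩

theorem TT_volume_ne_top (n : ℕ) : volume (TT n) ≠ ⊤ := (TT_compact n).measure_lt_top.ne

theorem Tn_volume_ne_zero (n : ℕ) : volume (Tn n) ≠ 0 := by
  have hU : IsOpen {x : Fin n → ℝ | (∀ i, 0 < x i) ∧ ∑ i, x i < 1} := by
    have h1 : IsOpen {x : Fin n → ℝ | ∀ i, 0 < x i} := by
      have : {x : Fin n → ℝ | ∀ i, 0 < x i} = ⋂ i, {x : Fin n → ℝ | 0 < x i} := by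
        ext x; simp
      rw [this]
      exact isOpen_iInter_of_finite fun i => isOpen_lt continuous_const (continuous_apply i)
    have h2 : IsOpen {x : Fin n → ℝ | ∑ i, x i < 1} := isOpen_lt (by fun_prop) continuous_const
    exact h1.inter h2
  have hne : {x : Fin n → ℝ | (∀ i, 0 < x i) ∧ ∑ i, x i < 1}.Nonempty := by
    refine ⟨fun _ => 1 / (n + 1), fun i => by positivity, ?_⟩
    simp only [Finset.sum_const, Finset.card_univ, Fintype.card_fin, nsmul_eq_mul]
    rw [mul_one_div, div_lt_one (by positivity)]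
    linarith
  have hpos := hU.measure_pos volume hne
  have hsub : {x : Fin n → ℝ | (∀ i, 0 < x i) ∧ ∑ i, x i < 1} ⊆ Tn n :=
    fun x hx => ⟨fun i => (hx.1 i).le, hx.2.le⟩
  exact (lt_of_lt_of_le hpos (measure_mono hsub)).ne'

theorem TT_volume_ne_zero (n : ℕ) : volume (TT n) ≠ 0 := by
  obtain ⟨M, hM, hT⟩ := TT_image n
  rw [hT, image_add_left, measure_preimage_add, Measure.addHaar_image_linearMap]
  apply mul_ne_zero
  · simpa using hM
  · exact Tn_volume_ne_zero n

theorem Asym.sub {n : ℕ} {D : Set (Fin n → ℝ)} (hD : Convex ℝ D) (h : Asym n D) {t : ℝ}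
    (ht : 0 ≤ t) : D + t • (-D) ⊆ (1 + n * t) • D := by
  rintro _ ⟨x, hx, _, ⟨y, hy, rfl⟩, rfl⟩
  have hy' : -y ∈ D := hy
  obtain ⟨w, hw, hwy⟩ := h (-y) hy'
  rw [neg_neg] at hwy
  rw [hD.add_smul zero_le_one (by positivity), one_smul]
  refine ⟨x, hx, t • y, ?_, rfl⟩
  refine ⟨w, hw, ?_⟩
  show ((n : ℝ) * t) • w = t • y
  rw [← hwy]
  show ((n : ℝ) * t) • w = t • ((n : ℝ) • w)
  rw [smul_smul, mul_comm]

/-- reduction of the comparison to `α = 1` -/
theorem cmp_of_one {n : ℕ} (h : ∀ D : Set (Fin n → ℝ), IsCompact D → Convex ℝ D →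
    (0 : Fin n → ℝ) ∈ D → Asym n D → ∀ t : ℝ, 0 ≤ t →
      volume (D + t • (-D)) * volume (TT n) ≤ volume (TT n + t • (-TT n)) * volume D) :
    Cmp n := by
  intro D hDc hD h0 hA α β hα hβ
  rcases hα.eq_or_lt with rfl | hα
  · have e : ∀ S : Set (Fin n → ℝ), S.Nonempty → volume ((0:ℝ) • S + β • (-S)) =
        ENNReal.ofReal |β ^ n| * volume S := by
      intro S hS
      rw [zero_smul_set hS, zero_add, Measure.addHaar_smul, Measure.measure_neg]
      simp
    rw [e D ⟨0, h0⟩, e _ (TT_nonempty n)]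
    rw [mul_assoc, mul_assoc, mul_comm (volume D)]
  · have e : ∀ S : Set (Fin n → ℝ), volume (α • S + β • (-S)) =
        ENNReal.ofReal |α ^ n| * volume (S + (β / α) • (-S)) := by
      intro S
      have : α • S + β • (-S) = α • (S + (β / α) • (-S)) := by
        rw [smul_add, smul_smul, mul_div_cancel₀ _ hα.ne']
      rw [this, Measure.addHaar_smul]
      simp
    rw [e D, e (TT n), mul_assoc, mul_assoc]
    exact mul_le_mul' le_rfl (h D hDc hD h0 hA _ (by positivity))

theorem cmp_two : Cmp 2 := by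
  apply cmp_of_one
  intro D hDc hD h0 hA t ht
  obtain ⟨a, ha⟩ := W2_sym hDc hD ⟨0, h0⟩
  obtain ⟨b, hb⟩ := W2_sym (TT_compact 2) (TT_convex 2) (TT_nonempty 2)
  set V := (volume D).toReal with hV
  set U := (volume (TT 2)).toReal with hU
  have hfin : ∀ s : ℝ, volume (D + s • (-D)) ≠ ⊤ := fun s =>
    (hDc.add (hDc.neg.smul s)).measure_lt_top.ne
  have hfinT : ∀ s : ℝ, volume (TT 2 + s • (-TT 2)) ≠ ⊤ := fun s =>
    ((TT_compact 2).add ((TT_compact 2).neg.smul s)).measure_lt_top.ne
  have haV : a ≤ 4 * V := by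
    have key : ∀ s : ℝ, 0 < s → a ≤ 4 * V + s * (3 * V) := by
      intro s hs
      have h1 : volume (D + s • (-D)) ≤ ENNReal.ofReal ((1 + 2 * s) ^ 2) * volume D := by
        have h2 := measure_mono (μ := volume) (hA.sub hD hs.le)
        rw [Measure.addHaar_smul] at h2
        simpa [abs_of_nonneg (show (0:ℝ) ≤ 1 + 2 * s by linarith)] using h2
      have h3 : W2 D (-D) s ≤ (1 + 2 * s) ^ 2 * V := by
        rw [W2, hV, ← ENNReal.toReal_ofReal (show (0:ℝ) ≤ (1 + 2 * s) ^ 2 by positivity),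
          ← ENNReal.toReal_mul]
        apply ENNReal.toReal_mono _ h1
        exact ENNReal.mul_ne_top ENNReal.ofReal_ne_top hDc.measure_lt_top.ne
      rw [ha s hs.le] at h3
      have h4 : a * s ≤ (4 * V + s * (3 * V)) * s := by linarith
      exact le_of_mul_le_mul_right h4 hs
    have hV0 : 0 ≤ V := ENNReal.toReal_nonneg
    apply le_of_forall_pos_le_add
    intro e he
    have h5 := key (e / (3 * V + 1)) (by positivity)
    have h6 : e / (3 * V + 1) * (3 * V) ≤ e := by
      rw [div_mul_eq_mul_div, div_le_iff₀ (by positivity)]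
      nlinarith
    linarith
  have hbU : 4 * U ≤ b := by
    have h1 := TT_diff Tn2_diff
    have h2 := hb 1 zero_le_one
    rw [W2, one_smul] at h2
    have h3 : 6 * U ≤ (volume (TT 2 + -TT 2)).toReal := by
      have := ENNReal.toReal_mono (by have := hfinT 1; rwa [one_smul] at this) h1
      rw [ENNReal.toReal_mul] at this
      simpa using this
    rw [h2] at h3
    linarith
  rw [← ENNReal.toReal_le_toReal (ENNReal.mul_ne_top (hfin t) (TT_volume_ne_top 2))
    (ENNReal.mul_ne_top (hfinT t) hDc.measure_lt_top.ne), ENNReal.toReal_mul,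
    ENNReal.toReal_mul]
  change W2 D (-D) t * U ≤ W2 (TT 2) (-TT 2) t * V
  rw [ha t ht, hb t ht]
  have hV0 : 0 ≤ V := ENNReal.toReal_nonneg
  have hU0 : 0 ≤ U := ENNReal.toReal_nonneg
  have e1 : a * U ≤ 4 * V * U := mul_le_mul_of_nonneg_right haV hU0
  have e2 : 4 * U * V ≤ b * V := mul_le_mul_of_nonneg_right hbU hV0
  have e3 : t * (a * U) ≤ t * (b * V) := mul_le_mul_of_nonneg_left (by linarith) ht
  nlinarith

theorem cmp_three : Cmp 3 := by
  apply cmp_of_one
  intro D hDc hD h0 hA t ht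
  obtain ⟨a, ha⟩ := W3_sym hDc hD ⟨0, h0⟩
  obtain ⟨b, hb⟩ := W3_sym (TT_compact 3) (TT_convex 3) (TT_nonempty 3)
  set V := (volume D).toReal with hV
  set U := (volume (TT 3)).toReal with hU
  have hfin : ∀ s : ℝ, volume (D + s • (-D)) ≠ ⊤ := fun s =>
    (hDc.add (hDc.neg.smul s)).measure_lt_top.ne
  have hfinT : ∀ s : ℝ, volume (TT 3 + s • (-TT 3)) ≠ ⊤ := fun s =>
    ((TT_compact 3).add ((TT_compact 3).neg.smul s)).measure_lt_top.ne
  have hV0 : 0 ≤ V := ENNReal.toReal_nonneg
  have hU0 : 0 ≤ U := ENNReal.toReal_nonneg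
  have haV : a ≤ 9 * V := by
    rcases le_total a 0 with hneg | hpos
    · linarith
    have key : ∀ s : ℝ, 0 < s → s ≤ 1 → a ≤ 9 * V + s * (53 * V) := by
      intro s hs hs1
      have h1 : volume (D + s • (-D)) ≤ ENNReal.ofReal ((1 + 3 * s) ^ 3) * volume D := by
        have h2 := measure_mono (μ := volume) (hA.sub hD hs.le)
        rw [Measure.addHaar_smul] at h2
        simpa [abs_of_nonneg (show (0:ℝ) ≤ 1 + 3 * s by linarith)] using h2
      have h3 : W3 D (-D) s ≤ (1 + 3 * s) ^ 3 * V := by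
        rw [W3, hV, ← ENNReal.toReal_ofReal (show (0:ℝ) ≤ (1 + 3 * s) ^ 3 by positivity),
          ← ENNReal.toReal_mul]
        apply ENNReal.toReal_mono _ h1
        exact ENNReal.mul_ne_top ENNReal.ofReal_ne_top hDc.measure_lt_top.ne
      rw [ha s hs.le] at h3
      have h4 : a * s ≤ (9 * V + s * (53 * V)) * s := by
        have e1 : 0 ≤ a * s ^ 2 := by positivity
        have e2 : s ^ 3 * V ≤ s ^ 2 * V := by
          apply mul_le_mul_of_nonneg_right _ hV0
          nlinarith [sq_nonneg s]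
        nlinarith
      exact le_of_mul_le_mul_right h4 hs
    apply le_of_forall_pos_le_add
    intro e he
    have h5 := key (min 1 (e / (53 * V + 1))) (lt_min one_pos (by positivity)) (min_le_left _ _)
    have h6 : min 1 (e / (53 * V + 1)) * (53 * V) ≤ e := by
      calc min 1 (e / (53 * V + 1)) * (53 * V) ≤ e / (53 * V + 1) * (53 * V) :=
            mul_le_mul_of_nonneg_right (min_le_right _ _) (by positivity)
        _ ≤ e := by
            rw [div_mul_eq_mul_div, div_le_iff₀ (by positivity)]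
            nlinarith
    linarith
  have hbU : 9 * U ≤ b := by
    have h1 := TT_diff Tn3_diff
    have h2 := hb 1 zero_le_one
    rw [W3, one_smul] at h2
    have h3 : 20 * U ≤ (volume (TT 3 + -TT 3)).toReal := by
      have := ENNReal.toReal_mono (by have := hfinT 1; rwa [one_smul] at this) h1
      rw [ENNReal.toReal_mul] at this
      simpa using this
    rw [h2] at h3
    linarith
  rw [← ENNReal.toReal_le_toReal (ENNReal.mul_ne_top (hfin t) (TT_volume_ne_top 3))
    (ENNReal.mul_ne_top (hfinT t) hDc.measure_lt_top.ne), ENNReal.toReal_mul,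
    ENNReal.toReal_mul]
  change W3 D (-D) t * U ≤ W3 (TT 3) (-TT 3) t * V
  rw [ha t ht, hb t ht]
  have e1 : a * U ≤ 9 * V * U := mul_le_mul_of_nonneg_right haV hU0
  have e2 : 9 * U * V ≤ b * V := mul_le_mul_of_nonneg_right hbU hV0
  have e3 : (t + t ^ 2) * (a * U) ≤ (t + t ^ 2) * (b * V) :=
    mul_le_mul_of_nonneg_left (by linarith) (by positivity)
  nlinarith

end Pool.Agent.Lib.MP_725e58_gt.Tow
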