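import Mathlib
import Pool.Agent.Lib.MP_725e58_gt.Tow.Sign

/-!
Evaluation of the signed sums.
-/

set_option autoImplicit false

namespace Pool.Agent.Lib.MP_725e58_gt.Tow

open Finset

section
variable {κ : Type*} [Fintype κ] [DecidableEq κ]

theorem sum_sg (J : Finset κ) : ∑ i, sg J i = 2 * (J.card : ℝ) - Fintype.card κ := by
  have h : ∀ i, sg J i = 2 * (if i ∈ J then 1 else 0) - 1 := by
    intro i
    unfold sg
    split_ifs <;> norm_num
  simp_rw [h]
  rw [sum_sub_distrib, ← mul_sum]
  simp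

theorem choose_term {h q : ℕ} (hh : 1 ≤ h) :
    ((2 * h).choose (h + q) : ℝ) * (2 * q) =
      2 * h * (((2 * h - 1).choose (h + q - 1) : ℝ) - (2 * h - 1).choose (h + q)) := by
  obtain ⟨m, rfl⟩ : ∃ m, h = m + 1 := ⟨h - 1, by omega⟩
  have e1 : 2 * (m + 1) = (2 * m + 1) + 1 := by ring
  have e2 : m + 1 + q = (m + q) + 1 := by ring
  have e3 : 2 * (m + 1) - 1 = 2 * m + 1 := by omega
  have e4 : m + 1 + q - 1 = m + q := by omega
  rw [e3, e4, e1, e2]
  -- k * C(M+1,k) = (M+1) * C(M,k-1)
  have h1 := Nat.add_one_mul_choose_eq (2 * m + 1) (m + q)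
  have h1' : ((2 * m + 1 + 1 : ℕ) : ℝ) * ((2 * m + 1).choose (m + q) : ℝ) =
      ((2 * m + 1 + 1).choose (m + q + 1) : ℝ) * ((m + q + 1 : ℕ) : ℝ) := by
    exact_mod_cast h1
  have h2 := Nat.choose_succ_succ (2 * m + 1) (m + q)
  have h2' : ((2 * m + 1 + 1).choose (m + q + 1) : ℝ) =
      ((2 * m + 1).choose (m + q) : ℝ) + ((2 * m + 1).choose (m + q + 1) : ℝ) := by
    exact_mod_cast h2
  push_cast at h1'
  push_cast
  set A := ((2 * m + 1).choose (m + q) : ℝ)
  set B := ((2 * m + 1).choose (m + q + 1) : ℝ)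
  rw [h2'] at h1' ⊢
  linear_combination (-2 : ℝ) * h1'

theorem half_sum {h : ℕ} (hh : 1 ≤ h) :
    ∑ k ∈ range (2 * h + 1), ((2 * h).choose k : ℝ) * max (2 * (k : ℝ) - 2 * h) 0 =
      2 * h * (2 * h - 1).choose (h - 1) := by
  have key : ∀ q : ℕ, ∑ k ∈ range (h + q), ((2 * h).choose k : ℝ) * max (2 * (k : ℝ) - 2 * h) 0 =
      2 * h * (((2 * h - 1).choose (h - 1) : ℝ) - (2 * h - 1).choose (h + q - 1)) := by
    intro q
    induction q with
    | zero =>
      rw [add_zero, sub_self, mul_zero]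
      apply sum_eq_zero
      intro k hk
      rw [mem_range] at hk
      have : (k : ℝ) < h := by exact_mod_cast hk
      rw [max_eq_right (by linarith), mul_zero]
    | succ q ih =>
      rw [← add_assoc, sum_range_succ, ih]
      have h1 := choose_term (q := q) hh
      have h2 : max (2 * (((h + q : ℕ) : ℝ)) - 2 * h) 0 = 2 * q := by
        push_cast
        rw [max_eq_left (by linarith [Nat.cast_nonneg (α := ℝ) q])]
        ring
      have h3 : h + q + 1 - 1 = h + q := by omega
      rw [h2, h1, h3]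
      ring
  have h1 := key (h + 1)
  have h2 : h + (h + 1) = 2 * h + 1 := by ring
  have h3 : (2 * h - 1).choose (2 * h + 1 - 1) = 0 := by
    apply Nat.choose_eq_zero_of_lt
    omega
  rw [h2, h3] at h1
  simpa using h1

theorem sum_finset_card {β : Type*} [Fintype β] [DecidableEq β] (f : ℕ → ℝ) :
    ∑ J : Finset β, f J.card = ∑ k ∈ range (Fintype.card β + 1), ((Fintype.card β).choose k : ℝ) * f k := by
  have h := sum_powerset_apply_card (x := (univ : Finset β)) f
  rw [powerset_univ] at h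
  rw [h]
  simp [card_univ]

/-- all weights equal to one, odd dimension -/
theorem SS_one {d : ℕ} (hd : Odd d) (hκ : Fintype.card κ = d + 1) :
    ∑ J : Finset κ, max (∑ i, sg J i * (1 : ℝ)) 0 = (d.choose (d / 2) : ℝ) * (d + 1) := by
  obtain ⟨m, rfl⟩ := hd
  simp_rw [mul_one, sum_sg]
  have h1 := sum_finset_card (β := κ) (fun k => max (2 * (k : ℝ) - Fintype.card κ) 0)
  rw [h1, hκ]
  have h2 := half_sum (h := m + 1) (by omega)
  have e1 : 2 * (m + 1) = 2 * m + 1 + 1 := by ring
  have e2 : 2 * m + 1 + 1 - 1 = 2 * m + 1 := by omega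
  have e3 : (2 * m + 1) / 2 = m := by omega
  have e4 : m + 1 - 1 = m := by omega
  rw [e1, e2, e4] at h2
  rw [e3]
  push_cast at h2 ⊢
  have e5 : (2 : ℝ) * (m + 1) = 2 * m + 1 + 1 := by ring
  rw [e5] at h2
  rw [h2]
  ring

/-- one weight equal to two, the others to one, even dimension -/
theorem SS_two {d : ℕ} (hd : Even d) (hd0 : 2 ≤ d) (hκ : Fintype.card κ = d + 1) (k0 : κ) :
    ∑ J : Finset κ, max (∑ i, sg J i * (if i = k0 then 2 else 1 : ℝ)) 0 =
      (d.choose (d / 2) : ℝ) * (d + 2) := by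
  obtain ⟨h, rfl⟩ := hd
  have hh : 1 ≤ h := by omega
  have hsum : ∀ J : Finset κ, ∑ i, sg J i * (if i = k0 then 2 else 1 : ℝ) =
      2 * (J.card : ℝ) - (h + h + 1) + sg J k0 := by
    intro J
    have e : ∀ i, sg J i * (if i = k0 then 2 else 1 : ℝ) =
        sg J i + (if i = k0 then sg J i else 0) := by
      intro i
      split_ifs <;> ring
    simp_rw [e]
    rw [sum_add_distrib, sum_sg, hκ]
    simp
  simp_rw [hsum]
  have huniv : (univ : Finset κ) = insert k0 (univ.erase k0) := by simp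
  have h1 : ∑ J : Finset κ, max (2 * (J.card : ℝ) - (h + h + 1) + sg J k0) 0 =
      ∑ J ∈ (univ : Finset κ).powerset, max (2 * (J.card : ℝ) - (h + h + 1) + sg J k0) 0 := by
    rw [powerset_univ]
  rw [h1, huniv, sum_powerset_insert (by simp), ← sum_add_distrib]
  have hcard : ((univ : Finset κ).erase k0).card = 2 * h := by
    rw [card_erase_of_mem (mem_univ _), card_univ, hκ]
    omega
  have h2 : ∑ t ∈ ((univ : Finset κ).erase k0).powerset,
      (max (2 * (t.card : ℝ) - (h + h + 1) + sg t k0) 0 +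
        max (2 * ((insert k0 t).card : ℝ) - (h + h + 1) + sg (insert k0 t) k0) 0) =
      ∑ t ∈ ((univ : Finset κ).erase k0).powerset,
        (2 * max (2 * (t.card : ℝ) - 2 * h) 0 + (if t.card = h then 2 else 0)) := by
    apply sum_congr rfl
    intro t ht
    rw [mem_powerset] at ht
    have hk : k0 ∉ t := fun h => by simpa using ht h
    have hk' : k0 ∈ insert k0 t := mem_insert_self _ _
    rw [card_insert_of_notMem hk]
    unfold sg
    rw [if_neg hk, if_pos hk']
    push_cast
    rcases lt_trichotomy t.card h with h3 | h3 | h3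
    · have h4 : (t.card : ℝ) + 1 ≤ h := by exact_mod_cast h3
      rw [if_neg h3.ne, max_eq_right (by linarith), max_eq_right (by linarith),
        max_eq_right (by linarith)]
      ring
    · rw [if_pos h3, h3, max_eq_right (by linarith), max_eq_left (by linarith),
        max_eq_left (by linarith)]
      ring
    · have h4 : (h : ℝ) + 1 ≤ t.card := by exact_mod_cast h3
      rw [if_neg h3.ne', max_eq_left (by linarith), max_eq_left (by linarith),
        max_eq_left (by linarith)]
      ring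
  rw [h2]
  have h3 := sum_powerset_apply_card (x := (univ : Finset κ).erase k0)
    (fun k => (2 * max (2 * (k : ℝ) - 2 * h) 0 + (if k = h then 2 else 0)))
  rw [h3, hcard]
  simp only [nsmul_eq_mul, mul_add]
  rw [sum_add_distrib]
  have h4 : ∑ k ∈ range (2 * h + 1), ((2 * h).choose k : ℝ) * (2 * max (2 * (k : ℝ) - 2 * h) 0) =
      2 * ∑ k ∈ range (2 * h + 1), ((2 * h).choose k : ℝ) * max (2 * (k : ℝ) - 2 * h) 0 := by
    rw [mul_sum]
    apply sum_congr rfl
    intro k _
    ring
  rw [h4, half_sum hh]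
  have h5 : ∑ k ∈ range (2 * h + 1), ((2 * h).choose k : ℝ) * (if k = h then 2 else 0) =
      ((2 * h).choose h : ℝ) * 2 := by
    rw [sum_eq_single h]
    · simp
    · intro b _ hb
      rw [if_neg hb, mul_zero]
    · intro hn
      exfalso
      apply hn
      rw [mem_range]
      omega
  rw [h5]
  have h6 : ((2 * h).choose h : ℝ) = 2 * ((2 * h - 1).choose (h - 1) : ℝ) := by
    obtain ⟨m, rfl⟩ : ∃ m, h = m + 1 := ⟨h - 1, by omega⟩
    have e1 : 2 * (m + 1) = 2 * m + 1 + 1 := by ring
    have e2 : 2 * (m + 1) - 1 = 2 * m + 1 := by omega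
    have e3 : m + 1 - 1 = m := by omega
    rw [e2, e3, e1, Nat.choose_succ_succ]
    have e4 : (2 * m + 1).choose (m + 1) = (2 * m + 1).choose m := by
      apply Nat.choose_symm_of_eq_add
      ring
    push_cast
    rw [e4]
    ring
  have e7 : h + h = 2 * h := by ring
  have e8 : (h + h) / 2 = h := by omega
  rw [e8, e7, h6]
  push_cast
  ring

end

end Pool.Agent.Lib.MP_725e58_gt.Tow
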