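import Mathlib
import Pool.Agent.Lib.MP_725e58_gt.Tow.Sign
import Pool.Agent.Lib.MP_725e58_gt.Tow.Area

/-!
The best parameter and the inclusion of all slices in one.
-/

set_option autoImplicit false

namespace Pool.Agent.Lib.MP_725e58_gt.Tow

open Set Pointwise

section slope
variable {κ : Type*} [Fintype κ] [DecidableEq κ]

/-- the mass left for the base -/
def Mf (t p : κ → ℝ) (ν : ℝ) : ℝ := 1 - ∑ i, |t i - ν * p i|

/-- the difference of the two base coefficients -/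
def ef (t p : κ → ℝ) (ν : ℝ) : ℝ := (1 - ∑ i, t i) - ν * (1 - ∑ i, p i)

theorem exists_best (t p : κ → ℝ) {δ : ℝ} (hp0 : 0 < 1 - ∑ i, p i)
    (hδ : ∀ J : Finset κ, δ ≤ |∑ i, sg J i * p i|) {ν0 : ℝ} (h0 : |ef t p ν0| ≤ Mf t p ν0) :
    ∃ ν1 : ℝ, |ef t p ν1| ≤ Mf t p ν1 ∧ ∀ ν : ℝ, |ef t p ν| ≤ Mf t p ν →
      δ * |ν1 - ν| ≤ Mf t p ν1 - Mf t p ν := by
  have hMc : Continuous (Mf t p) := by unfold Mf; fun_prop
  have hec : Continuous (ef t p) := by unfold ef; fun_prop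
  let I : Set ℝ := {ν | |ef t p ν| ≤ Mf t p ν}
  have hIcl : IsClosed I := isClosed_le hec.abs hMc
  set q := 1 - ∑ i, p i with hq
  set t0 := 1 - ∑ i, t i with ht0
  have hIsub : I ⊆ Icc (-((1 + |t0|) / q)) ((1 + |t0|) / q) := by
    intro ν hν
    have h1 : |ef t p ν| ≤ Mf t p ν := hν
    have h2 : Mf t p ν ≤ 1 := by
      unfold Mf
      have : 0 ≤ ∑ i, |t i - ν * p i| := Finset.sum_nonneg fun i _ => abs_nonneg _
      linarith
    have h3 : |t0 - ν * q| ≤ 1 := h1.trans h2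
    have h4 := abs_le.mp h3
    have h5 := le_abs_self t0
    have h6 := neg_abs_le t0
    constructor
    · rw [neg_le, le_div_iff₀ hp0]
      linarith
    · rw [le_div_iff₀ hp0]
      linarith
  have hIc : IsCompact I := isCompact_Icc.of_isClosed_subset hIcl hIsub
  obtain ⟨ν1, hν1, hmax⟩ := hIc.exists_isMaxOn ⟨ν0, h0⟩ hMc.continuousOn
  refine ⟨ν1, hν1, ?_⟩
  intro ν hν
  have hν1' : |ef t p ν1| ≤ Mf t p ν1 := hν1
  -- convexity of `I`
  have hconv : ∀ ε : ℝ, 0 ≤ ε → ε ≤ 1 → ν1 + ε * (ν - ν1) ∈ I := by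
    intro ε he0 he1
    show |ef t p (ν1 + ε * (ν - ν1))| ≤ Mf t p (ν1 + ε * (ν - ν1))
    have e1 : ef t p (ν1 + ε * (ν - ν1)) = (1 - ε) * ef t p ν1 + ε * ef t p ν := by
      unfold ef; ring
    have e2 : (1 - ε) * Mf t p ν1 + ε * Mf t p ν ≤ Mf t p (ν1 + ε * (ν - ν1)) := by
      unfold Mf
      have : ∑ i, |t i - (ν1 + ε * (ν - ν1)) * p i| ≤
          (1 - ε) * ∑ i, |t i - ν1 * p i| + ε * ∑ i, |t i - ν * p i| := by
        rw [Finset.mul_sum, Finset.mul_sum, ← Finset.sum_add_distrib]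
        apply Finset.sum_le_sum
        intro i _
        have e3 : t i - (ν1 + ε * (ν - ν1)) * p i =
            (1 - ε) * (t i - ν1 * p i) + ε * (t i - ν * p i) := by ring
        rw [e3]
        refine (abs_add_le _ _).trans ?_
        rw [abs_mul, abs_mul, abs_of_nonneg he0, abs_of_nonneg (sub_nonneg.mpr he1)]
      linarith
    have e4 : |(1 - ε) * ef t p ν1 + ε * ef t p ν| ≤ (1 - ε) * |ef t p ν1| + ε * |ef t p ν| := by
      refine (abs_add_le _ _).trans ?_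
      rw [abs_mul, abs_mul, abs_of_nonneg he0, abs_of_nonneg (sub_nonneg.mpr he1)]
    rw [e1]
    have e5 := mul_le_mul_of_nonneg_left hν1' (sub_nonneg.mpr he1)
    have e6 := mul_le_mul_of_nonneg_left hν he0
    linarith
  obtain ⟨J, ε0, hε0, hJ⟩ := exists_sign (fun i => t i - ν1 * p i) (fun i => -(ν - ν1) * p i)
  set s := ∑ i, sg J i * (-(ν - ν1) * p i) with hs
  have hs' : s = -(ν - ν1) * ∑ i, sg J i * p i := by
    rw [hs, Finset.mul_sum]
    apply Finset.sum_congr rfl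
    intro i _
    ring
  have hpath : ∀ ε : ℝ, 0 ≤ ε → ε ≤ ε0 → Mf t p (ν1 + ε * (ν - ν1)) = Mf t p ν1 - ε * s := by
    intro ε he0 he1
    have h1 : ∑ i, |t i - (ν1 + ε * (ν - ν1)) * p i| = ∑ i, |t i - ν1 * p i| + ε * s := by
      rw [hs, Finset.mul_sum, ← Finset.sum_add_distrib]
      apply Finset.sum_congr rfl
      intro i _
      have e1 := hJ ε he0 he1 i
      have e2 := hJ 0 le_rfl hε0.le i
      simp only [zero_mul, add_zero] at e2
      have e3 : t i - (ν1 + ε * (ν - ν1)) * p i = t i - ν1 * p i + ε * (-(ν - ν1) * p i) := by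
        ring
      rw [e3, e1, e2]
      ring
    unfold Mf
    rw [h1]
    ring
  have hs0 : 0 ≤ s := by
    have hm : 0 < min ε0 1 := lt_min hε0 one_pos
    have h1 := hpath (min ε0 1) hm.le (min_le_left _ _)
    have h2 := hmax (hconv (min ε0 1) hm.le (min_le_right _ _))
    simp only [mem_ofPred_eq] at h2
    rw [h1] at h2
    have h3 : 0 ≤ min ε0 1 * s := by linarith
    exact nonneg_of_mul_nonneg_right h3 hm
  have hlow : Mf t p ν ≤ Mf t p ν1 - s := by
    have h1 : ∑ i, |t i - ν1 * p i| + s ≤ ∑ i, |t i - ν * p i| := by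
      rw [hs, ← Finset.sum_add_distrib]
      apply Finset.sum_le_sum
      intro i _
      have e2 := hJ 0 le_rfl hε0.le i
      simp only [zero_mul, add_zero] at e2
      have e3 := sg_mul_le J i (t i - ν * p i)
      rw [e2]
      have e4 : sg J i * (t i - ν1 * p i) + sg J i * (-(ν - ν1) * p i) =
          sg J i * (t i - ν * p i) := by ring
      rw [e4]
      exact e3
    unfold Mf
    linarith
  have hsabs : δ * |ν1 - ν| ≤ s := by
    rw [← abs_of_nonneg hs0, hs', abs_mul, abs_neg, abs_sub_comm ν ν1, mul_comm]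
    exact mul_le_mul_of_nonneg_left (hδ J) (abs_nonneg _)
  linarith

end slope

section incl
variable {n : ℕ} {D : Set (Fin n → ℝ)}

theorem smul_mono (hD : Convex ℝ D) (h0 : (0 : Fin n → ℝ) ∈ D) {a b : ℝ} (ha : 0 ≤ a)
    (hab : a ≤ b) : a • D ⊆ b • D := by
  rintro _ ⟨x, hx, rfl⟩
  rcases ha.eq_or_lt with rfl | hpos
  · exact ⟨0, h0, by simp⟩
  · have hb : 0 < b := lt_of_lt_of_le hpos hab
    refine ⟨(a / b) • x, hD.smul_mem_of_zero_mem h0 hx ⟨by positivity, ?_⟩, ?_⟩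
    · rw [div_le_one hb]; exact hab
    · show b • ((a / b) • x) = a • x
      rw [smul_smul, mul_div_cancel₀ _ hb.ne']

theorem comb_mem (hD : Convex ℝ D) (h0 : (0 : Fin n → ℝ) ∈ D) {x z : Fin n → ℝ} (hx : x ∈ D)
    (hz : z ∈ D) {a b c : ℝ} (ha : 0 ≤ a) (hb : 0 ≤ b) (hc : a + b ≤ c) :
    a • x + b • z ∈ c • D := by
  apply smul_mono hD h0 (add_nonneg ha hb) hc
  rw [hD.add_smul ha hb]
  exact ⟨_, ⟨x, hx, rfl⟩, _, ⟨z, hz, rfl⟩, rfl⟩

theorem slice_incl (hD : Convex ℝ D) (h0 : (0 : Fin n → ℝ) ∈ D) (hA : Asym n D)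
    {M e M' e' : ℝ} (hM : |e| ≤ M) (hM' : |e'| ≤ M')
    (hs : ((n : ℝ) - 1) * |e' - e| ≤ ((n : ℝ) + 1) * (M' - M)) :
    ((M + e) / 2) • D + ((M - e) / 2) • (-D) ⊆
      ((M' + e') / 2) • D + ((M' - e') / 2) • (-D) := by
  have a1 := abs_le.mp hM
  have a2 := abs_le.mp hM'
  rcases n.eq_zero_or_pos with hn | hn
  · subst hn
    intro y _
    have h1 : y = 0 := Subsingleton.elim _ _
    rw [h1]
    refine ⟨0, ⟨0, h0, by simp⟩, 0, ⟨0, by simpa using h0, by simp⟩, by simp⟩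
  have hn1 : (1 : ℝ) ≤ n := by exact_mod_cast hn
  have s1 : ((n : ℝ) - 1) * (e' - e) ≤ ((n : ℝ) + 1) * (M' - M) :=
    (mul_le_mul_of_nonneg_left (le_abs_self _) (by linarith)).trans hs
  have s2 : -(((n : ℝ) - 1) * (e' - e)) ≤ ((n : ℝ) + 1) * (M' - M) := by
    have := (mul_le_mul_of_nonneg_left (neg_abs_le (e' - e)) (by linarith : 0 ≤ (n:ℝ) - 1))
    linarith
  set α := (M + e) / 2 with hα
  set β := (M - e) / 2 with hβ
  set α' := (M' + e') / 2 with hα'
  set β' := (M' - e') / 2 with hβ'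
  have hα0 : 0 ≤ α := by rw [hα]; linarith
  have hβ0 : 0 ≤ β := by rw [hβ]; linarith
  have hα0' : 0 ≤ α' := by rw [hα']; linarith
  have hβ0' : 0 ≤ β' := by rw [hβ']; linarith
  have k1 : 0 ≤ (α' - α) + n * (β' - β) := by
    rw [hα, hβ, hα', hβ']; linarith
  have k2 : 0 ≤ (β' - β) + n * (α' - α) := by
    rw [hα, hβ, hα', hβ']; linarith
  have negmem : ∀ z ∈ D, ∃ w ∈ D, -z = (n : ℝ) • w := by
    intro z hz
    obtain ⟨w, hw, hwz⟩ := hA z hz
    exact ⟨w, hw, hwz.symm⟩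
  rintro _ ⟨_, ⟨x, hx, rfl⟩, _, ⟨z', hz', rfl⟩, rfl⟩
  have hz : -z' ∈ D := hz'
  have goal' : ∀ X Z : Fin n → ℝ, X ∈ α' • D → Z ∈ β' • D →
      α • x + β • z' = X - Z → α • x + β • z' ∈ α' • D + β' • (-D) := by
    intro X Z hX hZ h
    rw [h, sub_eq_add_neg]
    refine ⟨X, hX, -Z, ?_, rfl⟩
    obtain ⟨Z', hZ', rfl⟩ := hZ
    refine ⟨-Z', by simpa using hZ', ?_⟩
    show β' • (-Z') = -(β' • Z')
    rw [smul_neg]
  show α • x + β • z' ∈ α' • D + β' • (-D)
  by_cases hb : β ≤ β'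
  · by_cases ha : α ≤ α'
    · apply goal' (α • x) (β • (-z'))
      · exact smul_mono hD h0 hα0 ha ⟨x, hx, rfl⟩
      · exact smul_mono hD h0 hβ0 hb ⟨_, hz, rfl⟩
      · rw [smul_neg, sub_neg_eq_add]
    · push Not at ha
      obtain ⟨w, hw, hxw⟩ := negmem x hx
      apply goal' (α' • x) (β • (-z') + (n * (α - α')) • w)
      · exact ⟨x, hx, rfl⟩
      · apply comb_mem hD h0 hz hw hβ0 (by nlinarith)
        linarith
      · have : x = -((n : ℝ) • w) := by rw [← hxw, neg_neg]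
        have e1 : (α - α') • x = -((n * (α - α')) • w) := by
          nth_rw 1 [this]
          rw [smul_neg, smul_smul, mul_comm (α - α')]
        have e2 : α • x = α' • x + (α - α') • x := by module
        rw [e2, e1]
        module
  · push Not at hb
    obtain ⟨w, hw, hzw⟩ := negmem (-z') hz
    rw [neg_neg] at hzw
    apply goal' (α • x + (n * (β - β')) • w) (β' • (-z'))
    · apply comb_mem hD h0 hx hw hα0 (by nlinarith)
      linarith
    · exact ⟨_, hz, rfl⟩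
    · have e1 : (β - β') • z' = (n * (β - β')) • w := by
        nth_rw 1 [hzw]
        rw [smul_smul, mul_comm (β - β')]
      have e2 : β • z' = β' • z' + (β - β') • z' := by module
      rw [e2, e1]
      module

end incl

end Pool.Agent.Lib.MP_725e58_gt.Tow
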