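import Mathlib
import Pool.Agent.Lib.MP_725e58_gt.Tow.Slope
import Pool.Agent.Lib.MP_725e58_gt.Tow.Susp
import Pool.Agent.Lib.MP_725e58_gt.Tow.SSum

/-!
Joins of a convex set with finitely many points: sectionwise comparison with the simplex.
-/

set_option autoImplicit false

namespace Pool.Agent.Lib.MP_725e58_gt.Tow

open MeasureTheory Set Pointwise
open scoped ENNReal

section join
variable {n : ℕ} {κ : Type*} [Fintype κ] [DecidableEq κ]

/-- the join of `D × {0}` with the unit points of the second factor -/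
def JJ (D : Set (Fin n → ℝ)) (κ : Type*) [DecidableEq κ] : Set ((Fin n → ℝ) × (κ → ℝ)) :=
  convexHull ℝ ((fun y => (y, 0)) '' D ∪ range (fun i : κ => (0, Pi.single i 1)))

theorem JJ_convex (D : Set (Fin n → ℝ)) : Convex ℝ (JJ D κ) := convex_convexHull ℝ _

theorem JJ_compact {D : Set (Fin n → ℝ)} (hDc : IsCompact D) (hD : Convex ℝ D) :
    IsCompact (JJ D κ) := by
  apply isCompact_hull_insert
  · exact hDc.image (by fun_prop)
  · have : (fun y : Fin n → ℝ => (y, (0 : κ → ℝ))) = ⇑(LinearMap.inl ℝ (Fin n → ℝ) (κ → ℝ)) := by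
      funext w; rfl
    rw [this]
    exact hD.linear_image _
  · exact finite_range _

theorem mem_JJ {D : Set (Fin n → ℝ)} (hD : Convex ℝ D) (h0 : (0 : Fin n → ℝ) ∈ D)
    {y : Fin n → ℝ} {t : κ → ℝ} :
    (y, t) ∈ JJ D κ ↔ (∀ i, 0 ≤ t i) ∧ ∑ i, t i ≤ 1 ∧ y ∈ (1 - ∑ i, t i) • D := by
  constructor
  · intro h
    have hsub : JJ D κ ⊆ {q | (∀ i, 0 ≤ q.2 i) ∧ ∑ i, q.2 i ≤ 1 ∧
        q.1 ∈ (1 - ∑ i, q.2 i) • D} := by
      apply convexHull_min
      · rintro _ (⟨y, hy, rfl⟩ | ⟨i, rfl⟩)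
        · refine ⟨by simp, by simp, ?_⟩
          simpa using hy
        · refine ⟨?_, by simp, ?_⟩
          · intro j
            by_cases hj : j = i
            · subst hj; simp
            · simp [hj]
          · simp only [Finset.sum_pi_single', Finset.mem_univ, if_true, sub_self]
            exact ⟨0, h0, by simp⟩
      · rintro ⟨y, t⟩ ⟨h1, h2, h3⟩ ⟨y', t'⟩ ⟨h1', h2', h3'⟩ a b ha hb hab
        simp only at h1 h2 h3 h1' h2' h3'
        refine ⟨fun i => ?_, ?_, ?_⟩
        · have := h1 i; have := h1' i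
          simp only [Prod.snd_add, Prod.smul_snd, Pi.add_apply, Pi.smul_apply, smul_eq_mul]
          positivity
        · simp only [Prod.snd_add, Prod.smul_snd, Pi.add_apply, Pi.smul_apply, smul_eq_mul,
            Finset.sum_add_distrib, ← Finset.mul_sum]
          calc a * ∑ i, t i + b * ∑ i, t' i ≤ a * 1 + b * 1 := by gcongr
            _ = 1 := by linarith
        · obtain ⟨x, hx, hxy⟩ := h3
          obtain ⟨x', hx', hxy'⟩ := h3'
          have hs : 0 ≤ 1 - ∑ i, t i := by linarith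
          have hs' : 0 ≤ 1 - ∑ i, t' i := by linarith
          have := comb_mem hD h0 hx hx' (mul_nonneg ha hs) (mul_nonneg hb hs') le_rfl
          have e1 : (1 - ∑ i, (a • (y, t) + b • (y', t')).2 i) =
              a * (1 - ∑ i, t i) + b * (1 - ∑ i, t' i) := by
            simp only [Prod.snd_add, Prod.smul_snd, Pi.add_apply, Pi.smul_apply, smul_eq_mul,
              Finset.sum_add_distrib, ← Finset.mul_sum]
            linear_combination (-1 : ℝ) * hab
          rw [e1]
          convert this using 1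
          simp only [Prod.fst_add, Prod.smul_fst, mul_smul]
          rw [← hxy, ← hxy']
    exact hsub h
  · rintro ⟨h1, h2, x, hx, hxy⟩
    let z : Option κ → (Fin n → ℝ) × (κ → ℝ) := fun o => o.elim (x, 0)
      (fun i => (0, Pi.single i 1))
    let w : Option κ → ℝ := fun o => o.elim (1 - ∑ i, t i) t
    have hz : ∀ o, z o ∈ JJ D κ := by
      intro o
      apply subset_convexHull ℝ _
      rcases o with _ | j
      · left; exact ⟨x, hx, rfl⟩
      · right; exact ⟨j, rfl⟩
    have hw : ∀ o ∈ (Finset.univ : Finset (Option κ)), 0 ≤ w o := by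
      rintro (_ | j) _
      · simp only [w, Option.elim]
        linarith
      · exact h1 j
    have h1s : ∑ o, w o = 1 := by
      rw [Fintype.sum_option]
      simp [w]
    have := (JJ_convex D).sum_mem hw h1s (fun o _ => hz o)
    convert this using 1
    rw [Fintype.sum_option]
    simp only [z, w, Option.elim]
    ext j
    · have hxy' : (1 - ∑ i, t i) • x = y := hxy
      simp [Prod.fst_sum, ← hxy']
    · simp only [Prod.snd_add, Prod.smul_snd, smul_zero, zero_add, Prod.snd_sum,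
        Finset.sum_apply, Pi.smul_apply, smul_eq_mul]
      rw [Finset.sum_eq_single j]
      · simp
      · intro b _ hb
        rw [Pi.single_eq_of_ne hb.symm, mul_zero]
      · simp

theorem JJ_volume_cmp {D T : Set (Fin n → ℝ)} (hDc : IsCompact D) (hD : Convex ℝ D)
    (h0 : (0 : Fin n → ℝ) ∈ D) (hTc : IsCompact T) (hT : Convex ℝ T)
    (hT0 : (0 : Fin n → ℝ) ∈ T) :
    ((volume : Measure (Fin n → ℝ)).prod (volume : Measure (κ → ℝ))) (JJ D κ) * volume T =
      ((volume : Measure (Fin n → ℝ)).prod (volume : Measure (κ → ℝ))) (JJ T κ) * volume D := by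
  have key : ∀ (S : Set (Fin n → ℝ)), IsCompact S → Convex ℝ S → (0 : Fin n → ℝ) ∈ S →
      ((volume : Measure (Fin n → ℝ)).prod (volume : Measure (κ → ℝ))) (JJ S κ) =
        (∫⁻ t : κ → ℝ, {t : κ → ℝ | (∀ i, 0 ≤ t i) ∧ ∑ i, t i ≤ 1}.indicator
          (fun t => ENNReal.ofReal |(1 - ∑ i, t i) ^ n|) t) * volume S := by
    intro S hSc hS hS0
    rw [Measure.prod_apply_symm (JJ_compact hSc hS).measurableSet,
      ← lintegral_mul_const' _ _ hSc.measure_lt_top.ne]
    apply lintegral_congr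
    intro t
    by_cases ht : t ∈ {t : κ → ℝ | (∀ i, 0 ≤ t i) ∧ ∑ i, t i ≤ 1}
    · rw [indicator_of_mem ht]
      have : (fun x => (x, t)) ⁻¹' JJ S κ = (1 - ∑ i, t i) • S := by
        ext y
        rw [mem_preimage, mem_JJ hS hS0]
        exact ⟨fun h => h.2.2, fun h => ⟨ht.1, ht.2, h⟩⟩
      rw [this, Measure.addHaar_smul]
      simp
    · rw [indicator_of_notMem ht, zero_mul]
      have : (fun x => (x, t)) ⁻¹' JJ S κ = ∅ := by
        rw [eq_empty_iff_forall_notMem]
        intro y hy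
        rw [mem_preimage, mem_JJ hS hS0] at hy
        exact ht ⟨hy.1, hy.2.1⟩
      rw [this, measure_empty]
  rw [key D hDc hD h0, key T hTc hT hT0]
  ring

/-- every slice of the reflection body lies in some `α D - β D` -/
theorem slice_sub {D : Set (Fin n → ℝ)} (hD : Convex ℝ D) (h0 : (0 : Fin n → ℝ) ∈ D)
    (p : κ → ℝ) {y : Fin n → ℝ} {t : κ → ℝ} (h : (y, t) ∈ RB (JJ D κ) (0, p)) :
    ∃ ν : ℝ, |ef t p ν| ≤ Mf t p ν ∧
      y ∈ ((Mf t p ν + ef t p ν) / 2) • D + ((Mf t p ν - ef t p ν) / 2) • (-D) := by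
  have hne : (JJ D κ).Nonempty := ⟨(0, 0), subset_convexHull ℝ _ (Or.inl ⟨0, h0, rfl⟩)⟩
  have hconv : Convex ℝ ((fun z => (2 : ℝ) • ((0, p) : (Fin n → ℝ) × (κ → ℝ)) - z) '' JJ D κ) := by
    have hB : (fun z => (2 : ℝ) • ((0, p) : (Fin n → ℝ) × (κ → ℝ)) - z) '' JJ D κ =
        (fun w => (2 : ℝ) • ((0, p) : (Fin n → ℝ) × (κ → ℝ)) + w) '' (-JJ D κ) := by
      rw [← image_neg_eq_neg, image_image]
      simp only [← sub_eq_add_neg]
    rw [hB]
    exact (JJ_convex D).neg.translate _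
  rw [RB, (JJ_convex D).convexHull_union hconv hne (hne.image _), mem_convexJoin] at h
  obtain ⟨⟨y1, t1⟩, h1, _, ⟨⟨y2, t2⟩, h2, rfl⟩, a, s, ha, hs, has, heq⟩ := h
  obtain ⟨p1, q1, x1, hx1, hxy1⟩ := (mem_JJ hD h0).mp h1
  obtain ⟨p2, q2, x2, hx2, hxy2⟩ := (mem_JJ hD h0).mp h2
  have ht : ∀ i, t i = a * t1 i + s * (2 * p i - t2 i) := by
    intro i
    have := congrFun (congrArg Prod.snd heq) i
    simp only [Prod.snd_add, Prod.smul_snd, Pi.add_apply, Pi.smul_apply, smul_eq_mul,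
      Prod.snd_sub, Pi.sub_apply] at this
    rw [← this]
  have hy : y = (a * (1 - ∑ i, t1 i)) • x1 + (s * (1 - ∑ i, t2 i)) • (-x2) := by
    have := congrArg Prod.fst heq
    simp only [Prod.fst_add, Prod.smul_fst, Prod.fst_sub, smul_zero, zero_sub] at this
    have e1 : (1 - ∑ i, t1 i) • x1 = y1 := hxy1
    have e2 : (1 - ∑ i, t2 i) • x2 = y2 := hxy2
    rw [← this, ← e1, ← e2]
    module
  have hsumt : ∑ i, t i = a * ∑ i, t1 i + s * (2 * ∑ i, p i - ∑ i, t2 i) := by
    simp_rw [ht]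
    rw [Finset.sum_add_distrib, ← Finset.mul_sum, ← Finset.mul_sum, Finset.sum_sub_distrib,
      ← Finset.mul_sum]
  have habs : ∑ i, |t i - 2 * s * p i| ≤ a * ∑ i, t1 i + s * ∑ i, t2 i := by
    rw [Finset.mul_sum, Finset.mul_sum, ← Finset.sum_add_distrib]
    apply Finset.sum_le_sum
    intro i _
    have e : t i - 2 * s * p i = a * t1 i + -(s * t2 i) := by rw [ht]; ring
    rw [e]
    refine (abs_add_le _ _).trans ?_
    rw [abs_neg, abs_of_nonneg (mul_nonneg ha (p1 i)), abs_of_nonneg (mul_nonneg hs (p2 i))]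
  set A := a * (1 - ∑ i, t1 i) with hA
  set B := s * (1 - ∑ i, t2 i) with hB
  have hA0 : 0 ≤ A := mul_nonneg ha (by linarith)
  have hB0 : 0 ≤ B := mul_nonneg hs (by linarith)
  have hM : A + B ≤ Mf t p (2 * s) := by
    unfold Mf
    have : A + B = 1 - (a * ∑ i, t1 i + s * ∑ i, t2 i) := by
      rw [hA, hB]; linear_combination has
    rw [this]
    linarith
  have he : ef t p (2 * s) = A - B := by
    unfold ef
    rw [hsumt, hA, hB]
    linear_combination (-1 : ℝ) * has
  refine ⟨2 * s, ?_, ?_⟩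
  · rw [he, abs_le]
    constructor <;> linarith
  · rw [hy]
    refine ⟨A • x1, ?_, B • (-x2), ?_, rfl⟩
    · exact smul_mono hD h0 hA0 (by rw [he]; linarith) ⟨x1, hx1, rfl⟩
    · have hneg0 : (0 : Fin n → ℝ) ∈ -D := by simpa using h0
      exact smul_mono hD.neg hneg0 hB0 (by rw [he]; linarith) ⟨-x2, by simpa using hx2, rfl⟩

/-- every admissible combination occurs in the slice -/
theorem sub_slice {D : Set (Fin n → ℝ)} (p t : κ → ℝ) {ν : ℝ} (hν : |ef t p ν| ≤ Mf t p ν)
    {y : Fin n → ℝ}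
    (hy : y ∈ ((Mf t p ν + ef t p ν) / 2) • D + ((Mf t p ν - ef t p ν) / 2) • (-D)) :
    (y, t) ∈ RB (JJ D κ) (0, p) := by
  have hν' := abs_le.mp hν
  obtain ⟨_, ⟨x, hx, rfl⟩, _, ⟨z, hz, rfl⟩, rfl⟩ := hy
  have hz' : -z ∈ D := hz
  set M := Mf t p ν with hM
  set e := ef t p ν with he
  let w : Option κ × Bool → ℝ := fun o => match o with
    | (none, true) => (M + e) / 2
    | (none, false) => (M - e) / 2
    | (some i, true) => max (t i - ν * p i) 0
    | (some i, false) => max (-(t i - ν * p i)) 0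
  let v : Option κ × Bool → (Fin n → ℝ) × (κ → ℝ) := fun o => match o with
    | (none, true) => (x, 0)
    | (none, false) => (z, (2 : ℝ) • p)
    | (some i, true) => (0, Pi.single i 1)
    | (some i, false) => (0, (2 : ℝ) • p - Pi.single i 1)
  have hmem : ∀ q ∈ JJ D κ, q ∈ RB (JJ D κ) (0, p) := fun q hq =>
    subset_convexHull ℝ _ (Or.inl hq)
  have hmem' : ∀ q ∈ JJ D κ, (2 : ℝ) • ((0, p) : (Fin n → ℝ) × (κ → ℝ)) - q ∈
      RB (JJ D κ) (0, p) := fun q hq => subset_convexHull ℝ _ (Or.inr ⟨q, hq, rfl⟩)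
  have hv : ∀ o, v o ∈ RB (JJ D κ) (0, p) := by
    rintro ⟨_ | i, _ | _⟩
    · have h1 : ((-z, 0) : (Fin n → ℝ) × (κ → ℝ)) ∈ JJ D κ :=
        subset_convexHull ℝ _ (Or.inl ⟨_, hz', rfl⟩)
      have := hmem' _ h1
      simpa [v] using this
    · exact hmem _ (subset_convexHull ℝ _ (Or.inl ⟨x, hx, rfl⟩))
    · have h1 : ((0, Pi.single i 1) : (Fin n → ℝ) × (κ → ℝ)) ∈ JJ D κ :=
        subset_convexHull ℝ _ (Or.inr ⟨i, rfl⟩)
      have := hmem' _ h1
      simpa [v] using this
    · exact hmem _ (subset_convexHull ℝ _ (Or.inr ⟨i, rfl⟩))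
  have hw : ∀ o ∈ (Finset.univ : Finset (Option κ × Bool)), 0 ≤ w o := by
    rintro ⟨_ | i, _ | _⟩ _
    · show 0 ≤ (M - e) / 2
      linarith
    · show 0 ≤ (M + e) / 2
      linarith
    · exact le_max_right _ _
    · exact le_max_right _ _
  have hmax : ∀ r : ℝ, max r 0 - max (-r) 0 = r := by
    intro r
    rcases le_total 0 r with h | h
    · rw [max_eq_left h, max_eq_right (by linarith)]; ring
    · rw [max_eq_right h, max_eq_left (by linarith)]; ring
  have hmaxabs : ∀ r : ℝ, max r 0 + max (-r) 0 = |r| := by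
    intro r
    rcases le_total 0 r with h | h
    · rw [max_eq_left h, max_eq_right (by linarith), abs_of_nonneg h]; ring
    · rw [max_eq_right h, max_eq_left (by linarith), abs_of_nonpos h]; ring
  have h1 : ∑ o, w o = 1 := by
    rw [Fintype.sum_prod_type, Fintype.sum_option]
    simp only [Fintype.sum_bool, w]
    have : ∑ i, (max (t i - ν * p i) 0 + max (-(t i - ν * p i)) 0) = ∑ i, |t i - ν * p i| :=
      Finset.sum_congr rfl fun i _ => hmaxabs _
    rw [this]
    have : M = 1 - ∑ i, |t i - ν * p i| := hM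
    linarith
  have hsum := (RB_convex (JJ D κ) (0, p)).sum_mem hw h1 (fun o _ => hv o)
  convert hsum using 1
  rw [Fintype.sum_prod_type, Fintype.sum_option]
  simp only [Fintype.sum_bool, w, v]
  ext j
  · simp only [Prod.fst_add, Prod.smul_fst, Prod.fst_sum, smul_zero, add_zero,
      Finset.sum_const_zero]
  · simp only [Prod.snd_add, Prod.smul_snd, Prod.snd_sum, smul_zero, zero_add, Pi.add_apply,
      Finset.sum_apply, Pi.smul_apply, smul_eq_mul, Pi.sub_apply]
    have hneg : ∑ i, max (-(t i - ν * p i)) 0 = (ν - (M - e)) / 2 := by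
      have e1 : ∑ i, |t i - ν * p i| = ∑ i, (t i - ν * p i) +
          2 * ∑ i, max (-(t i - ν * p i)) 0 := by
        rw [Finset.mul_sum, ← Finset.sum_add_distrib]
        apply Finset.sum_congr rfl
        intro i _
        have a1 := hmax (t i - ν * p i)
        have a2 := hmaxabs (t i - ν * p i)
        linarith
      have e2 : ∑ i, (t i - ν * p i) = ∑ i, t i - ν * ∑ i, p i := by
        rw [Finset.sum_sub_distrib, Finset.mul_sum]
      have e3 : M = 1 - ∑ i, |t i - ν * p i| := hM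
      have e4 : e = (1 - ∑ i, t i) - ν * (1 - ∑ i, p i) := he
      rw [e1, e2] at e3
      linarith
    have hone : ∑ i, max (t i - ν * p i) 0 * (Pi.single i (1:ℝ) : κ → ℝ) j =
        max (t j - ν * p j) 0 := by
      rw [Finset.sum_eq_single j]
      · simp
      · intro b _ hb
        rw [Pi.single_eq_of_ne hb.symm, mul_zero]
      · simp
    have htwo : ∑ i, max (-(t i - ν * p i)) 0 * (2 * p j - (Pi.single i (1:ℝ) : κ → ℝ) j) =
        (∑ i, max (-(t i - ν * p i)) 0) * (2 * p j) - max (-(t j - ν * p j)) 0 := by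
      have : ∀ i, max (-(t i - ν * p i)) 0 * (2 * p j - (Pi.single i (1:ℝ) : κ → ℝ) j) =
          max (-(t i - ν * p i)) 0 * (2 * p j) -
            max (-(t i - ν * p i)) 0 * (Pi.single i (1:ℝ) : κ → ℝ) j := fun i => by ring
      simp_rw [this]
      rw [Finset.sum_sub_distrib, ← Finset.sum_mul]
      congr 1
      rw [Finset.sum_eq_single j]
      · simp
      · intro b _ hb
        rw [Pi.single_eq_of_ne hb.symm, mul_zero]
      · simp
    rw [Finset.sum_add_distrib, hone, htwo, hneg]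
    have a1 := hmax (t j - ν * p j)
    linarith

/-- sectionwise comparison of the reflection bodies -/
theorem RB_join_cmp (hC : Cmp n) {D : Set (Fin n → ℝ)} (hDc : IsCompact D) (hD : Convex ℝ D)
    (h0 : (0 : Fin n → ℝ) ∈ D) (hA : Asym n D) (hT0 : (0 : Fin n → ℝ) ∈ TT n) (p : κ → ℝ)
    {u : ℝ} (hu : 0 < u) (hp : 1 - ∑ i, p i = ((n : ℝ) + 1) * u)
    (hJ : ∀ J : Finset κ, ((n : ℝ) - 1) * u ≤ |∑ i, sg J i * p i|) :
    ((volume : Measure (Fin n → ℝ)).prod (volume : Measure (κ → ℝ))) (RB (JJ D κ) (0, p)) *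
      volume (TT n) ≤
    ((volume : Measure (Fin n → ℝ)).prod (volume : Measure (κ → ℝ))) (RB (JJ (TT n) κ) (0, p)) *
      volume D := by
  have hq : 0 < 1 - ∑ i, p i := by rw [hp]; positivity
  rw [Measure.prod_apply_symm (RB_compact (JJ_compact hDc hD) (JJ_convex D) _).measurableSet,
    Measure.prod_apply_symm
      (RB_compact (JJ_compact (TT_compact n) (TT_convex n)) (JJ_convex _) _).measurableSet,
    ← lintegral_mul_const' _ _ (TT_volume_ne_top n),
    ← lintegral_mul_const' _ _ hDc.measure_lt_top.ne]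
  apply lintegral_mono
  intro t
  simp only
  by_cases hne : ∃ ν0 : ℝ, |ef t p ν0| ≤ Mf t p ν0
  · obtain ⟨ν0, hν0⟩ := hne
    obtain ⟨ν1, hν1, hbest⟩ := exists_best t p hq hJ hν0
    have hsub1 : (fun x => (x, t)) ⁻¹' RB (JJ D κ) (0, p) ⊆
        ((Mf t p ν1 + ef t p ν1) / 2) • D + ((Mf t p ν1 - ef t p ν1) / 2) • (-D) := by
      intro y hy
      obtain ⟨ν, hν, hyν⟩ := slice_sub hD h0 p hy
      apply slice_incl hD h0 hA hν hν1 _ hyν
      have h1 := hbest ν hν
      have h2 : ef t p ν1 - ef t p ν = -((ν1 - ν) * (((n : ℝ) + 1) * u)) := by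
        unfold ef
        rw [hp]
        ring
      rw [h2, abs_neg, abs_mul, abs_of_pos (show 0 < ((n : ℝ) + 1) * u by positivity)]
      have h3 := mul_le_mul_of_nonneg_left h1 (show (0:ℝ) ≤ (n : ℝ) + 1 by positivity)
      calc ((n : ℝ) - 1) * (|ν1 - ν| * (((n : ℝ) + 1) * u)) =
            ((n : ℝ) + 1) * (((n : ℝ) - 1) * u * |ν1 - ν|) := by ring
        _ ≤ _ := h3
    have hsub2 : ((Mf t p ν1 + ef t p ν1) / 2) • TT n +
        ((Mf t p ν1 - ef t p ν1) / 2) • (-TT n) ⊆
        (fun x => (x, t)) ⁻¹' RB (JJ (TT n) κ) (0, p) := fun y hy => sub_slice p t hν1 hy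
    have hν1' := abs_le.mp hν1
    calc volume ((fun x => (x, t)) ⁻¹' RB (JJ D κ) (0, p)) * volume (TT n)
        ≤ volume (((Mf t p ν1 + ef t p ν1) / 2) • D +
            ((Mf t p ν1 - ef t p ν1) / 2) • (-D)) * volume (TT n) := by
          gcongr
      _ ≤ volume (((Mf t p ν1 + ef t p ν1) / 2) • TT n +
            ((Mf t p ν1 - ef t p ν1) / 2) • (-TT n)) * volume D :=
          hC D hDc hD h0 hA _ _ (by linarith) (by linarith)
      _ ≤ _ := by gcongr
  · have : (fun x => (x, t)) ⁻¹' RB (JJ D κ) (0, p) = ∅ := by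
      rw [eq_empty_iff_forall_notMem]
      intro y hy
      obtain ⟨ν, hν, -⟩ := slice_sub hD h0 p hy
      exact hne ⟨ν, hν⟩
    rw [this, measure_empty, zero_mul]
    exact zero_le

theorem join_of_simplex (hC : Cmp n) {D : Set (Fin n → ℝ)} (hDc : IsCompact D)
    (hD : Convex ℝ D) (h0 : (0 : Fin n → ℝ) ∈ D) (hA : Asym n D)
    (hT0 : (0 : Fin n → ℝ) ∈ TT n) (p : κ → ℝ) (hp0 : ∀ i, 0 ≤ p i)
    {u : ℝ} (hu : 0 < u) (hp : 1 - ∑ i, p i = ((n : ℝ) + 1) * u)
    (hJ : ∀ J : Finset κ, ((n : ℝ) - 1) * u ≤ |∑ i, sg J i * p i|) {C : ℝ≥0∞}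
    (hS : ((volume : Measure (Fin n → ℝ)).prod (volume : Measure (κ → ℝ)))
      (RB (JJ (TT n) κ) (0, p)) ≤
      C * ((volume : Measure (Fin n → ℝ)).prod (volume : Measure (κ → ℝ))) (JJ (TT n) κ)) :
    Good ((volume : Measure (Fin n → ℝ)).prod (volume : Measure (κ → ℝ))) C (JJ D κ) := by
  refine ⟨(0, p), ?_, ?_⟩
  · rw [mem_JJ hD h0]
    have hq : 0 < 1 - ∑ i, p i := by rw [hp]; positivity
    exact ⟨hp0, by linarith, 0, h0, by simp⟩
  · have h1 := RB_join_cmp hC hDc hD h0 hA hT0 p hu hp hJ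
    have h2 := JJ_volume_cmp (κ := κ) hDc hD h0 (TT_compact n) (TT_convex n) hT0
    have h3 : ((volume : Measure (Fin n → ℝ)).prod (volume : Measure (κ → ℝ)))
        (RB (JJ D κ) (0, p)) * volume (TT n) ≤
        (C * ((volume : Measure (Fin n → ℝ)).prod (volume : Measure (κ → ℝ))) (JJ D κ)) *
          volume (TT n) := by
      refine h1.trans ?_
      rw [mul_assoc, h2, ← mul_assoc]
      gcongr
    exact (ENNReal.mul_le_mul_iff_left (TT_volume_ne_zero n) (TT_volume_ne_top n)).mp h3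

end join

end Pool.Agent.Lib.MP_725e58_gt.Tow
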