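import Mathlib
import Pool.Agent.Lib.MP_725e58_gt.Tow.Join

/-!
The simplex inequality in the coordinates of a join.
-/

set_option autoImplicit false

namespace Pool.Agent.Lib.MP_725e58_gt.Tow

open MeasureTheory Set Pointwise
open scoped ENNReal

theorem TT_zero (n : ℕ) : (0 : Fin n → ℝ) ∈ TT n := by
  let z : Option (Fin n) → (Fin n → ℝ) := fun o => o.elim (-(fun _ => 1)) (fun j => Pi.single j 1)
  have hz : ∀ o, z o ∈ TT n := by
    intro o
    apply subset_convexHull ℝ _
    rcases o with _ | j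
    · right; rfl
    · left; exact ⟨j, rfl⟩
  have h1 : ∑ _o : Option (Fin n), (1 / ((n : ℝ) + 1)) = 1 := by
    rw [Finset.sum_const, Finset.card_univ, Fintype.card_option, Fintype.card_fin, nsmul_eq_mul]
    push_cast
    field_simp
  have := (TT_convex n).sum_mem (t := Finset.univ) (w := fun _ => 1 / ((n : ℝ) + 1)) (z := z)
    (fun _ _ => by positivity) h1 (fun o _ => hz o)
  convert this using 1
  funext j
  rw [Fintype.sum_option]
  simp only [z, Option.elim, Pi.add_apply, Pi.smul_apply, Finset.sum_apply, Pi.neg_apply,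
    smul_eq_mul, Pi.zero_apply]
  rw [Finset.sum_eq_single j]
  · simp
  · intro b _ hb
    rw [Pi.single_eq_of_ne hb.symm, mul_zero]
  · simp

section
variable {n : ℕ} {κ : Type*} [Fintype κ] [DecidableEq κ]

/-- the linear change of coordinates between the standard simplex and the join -/
noncomputable def chg (n : ℕ) (p : κ → ℝ) (hp : 1 - ∑ i, p i ≠ 0) :
    (Fin n ⊕ κ → ℝ) ≃ₗ[ℝ] (Fin n → ℝ) × (κ → ℝ) where
  toFun x := (fun j => x (Sum.inl j), fun i => x (Sum.inr i) - (∑ o, x o) * p i)
  invFun q := Sum.elim q.1 (fun i => q.2 i + (∑ j, q.1 j + ∑ i, q.2 i) / (1 - ∑ i, p i) * p i)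
  map_add' x y := by
    ext i
    · simp
    · simp only [Pi.add_apply, Finset.sum_add_distrib, Prod.snd_add]
      ring
  map_smul' c x := by
    ext i
    · simp
    · simp only [Pi.smul_apply, smul_eq_mul, ← Finset.mul_sum, RingHom.id_apply, Prod.smul_snd]
      ring
  left_inv x := by
    funext o
    rcases o with j | i
    · rfl
    · simp only [Sum.elim_inr, Fintype.sum_sum_type, Finset.sum_sub_distrib, ← Finset.mul_sum]
      field_simp
      ring
  right_inv q := by
    ext i
    · rfl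
    · simp only [Fintype.sum_sum_type, Sum.elim_inl, Sum.elim_inr, Finset.sum_add_distrib,
        ← Finset.mul_sum]
      field_simp
      ring

/-- the weights of the standard simplex -/
def aw (n : ℕ) (w : κ → ℝ) : Fin n ⊕ κ → ℝ := Sum.elim (fun _ => 1) w

theorem chg_image (w : κ → ℝ) (hw : ∀ i, 0 < w i) {u : ℝ}
    (hu : u = 1 / ((n : ℝ) + 1 + ∑ i, w i)) (hp : 1 - ∑ i, w i * u ≠ 0) :
    (fun v => ((0, fun i => w i * u) : (Fin n → ℝ) × (κ → ℝ)) + chg n (fun i => w i * u) hp v) ''
      Sy (fun _ => 1) (-aw n w) = JJ (TT n) κ := by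
  have hpos : 0 < (n : ℝ) + 1 + ∑ i, w i := by
    have : 0 ≤ ∑ i, w i := Finset.sum_nonneg fun i _ => (hw i).le
    positivity
  have hf : (fun v => ((0, fun i => w i * u) : (Fin n → ℝ) × (κ → ℝ)) +
      chg n (fun i => w i * u) hp v) =
      ⇑((chg n (fun i => w i * u) hp :
          (Fin n ⊕ κ → ℝ) →ₗ[ℝ] ((Fin n → ℝ) × (κ → ℝ))).toAffineMap +
        AffineMap.const ℝ (Fin n ⊕ κ → ℝ) ((0, fun i => w i * u) : (Fin n → ℝ) × (κ → ℝ))) := by
    funext v
    simp [add_comm]
  have hchg : ∀ x, chg n (fun i => w i * u) hp x =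
    (fun j => x (Sum.inl j), fun i => x (Sum.inr i) - (∑ o, x o) * (w i * u)) := fun x => rfl
  have e1 : ∀ j : Fin n, ((0, fun i => w i * u) : (Fin n → ℝ) × (κ → ℝ)) +
      chg n (fun i => w i * u) hp (Pi.single (Sum.inl j) 1) = (Pi.single j 1, 0) := by
    intro j
    rw [hchg]
    ext i
    · by_cases h : i = j
      · subst h; simp
      · simp [h]
    · simp
  have e2 : ∀ k : κ, ((0, fun i => w i * u) : (Fin n → ℝ) × (κ → ℝ)) +
      chg n (fun i => w i * u) hp (Pi.single (Sum.inr k) 1) = (0, Pi.single k 1) := by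
    intro k
    rw [hchg]
    ext i
    · simp
    · by_cases h : i = k
      · subst h; simp
      · simp [h]
  have e3 : ((0, fun i => w i * u) : (Fin n → ℝ) × (κ → ℝ)) +
      chg n (fun i => w i * u) hp (-aw n w) = (-(fun _ => 1), 0) := by
    have hs : ∑ o, (-aw n w) o = -((n : ℝ) + ∑ i, w i) := by
      simp only [Pi.neg_apply, Finset.sum_neg_distrib, Fintype.sum_sum_type, aw, Sum.elim_inl,
        Sum.elim_inr, Finset.sum_const, Finset.card_univ, Fintype.card_fin, nsmul_eq_mul, mul_one]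
    rw [hchg, hs]
    ext i
    · simp [aw]
    · simp only [Prod.snd_add, Pi.add_apply, Pi.neg_apply, aw, Sum.elim_inr, Pi.zero_apply]
      have : ((n : ℝ) + 1 + ∑ i, w i) * u = 1 := by
        rw [hu, mul_one_div, div_self hpos.ne']
      linear_combination (w i) * this
  rw [Sy, hf, AffineMap.image_convexHull, ← hf, image_union, image_singleton, ← range_comp, e3, JJ]
  apply Subset.antisymm
  · apply convexHull_min _ (convex_convexHull ℝ _)
    rintro _ (⟨j | k, rfl⟩ | rfl)
    · apply subset_convexHull ℝ _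
      left
      exact ⟨_, subset_convexHull ℝ _ (Or.inl ⟨j, rfl⟩), (e1 j).symm⟩
    · apply subset_convexHull ℝ _
      right
      exact ⟨k, (e2 k).symm⟩
    · apply subset_convexHull ℝ _
      left
      exact ⟨_, subset_convexHull ℝ _ (Or.inr rfl), rfl⟩
  · apply convexHull_min _ (convex_convexHull ℝ _)
    rintro _ (⟨y, hy, rfl⟩ | ⟨k, rfl⟩)
    · have hsub : TT n ⊆ (fun y : Fin n → ℝ => (y, (0 : κ → ℝ))) ⁻¹'
          (convexHull ℝ (range ((fun v => ((0, fun i => w i * u) : (Fin n → ℝ) × (κ → ℝ)) +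
            chg n (fun i => w i * u) hp v) ∘ fun i : Fin n ⊕ κ => Pi.single i (1:ℝ)) ∪
              {(-(fun _ => (1:ℝ)), 0)})) := by
        apply convexHull_min
        · rintro _ (⟨j, rfl⟩ | rfl)
          · apply subset_convexHull ℝ _
            left
            exact ⟨Sum.inl j, e1 j⟩
          · apply subset_convexHull ℝ _
            right
            rfl
        · have : (fun y : Fin n → ℝ => (y, (0 : κ → ℝ))) =
              ⇑(LinearMap.inl ℝ (Fin n → ℝ) (κ → ℝ)) := by
            funext w; rfl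
          rw [this]
          exact (convex_convexHull ℝ _).linear_preimage _
      exact hsub hy
    · apply subset_convexHull ℝ _
      left
      exact ⟨Sum.inr k, e2 k⟩

instance prodHaar : ((volume : Measure (Fin n → ℝ)).prod
    (volume : Measure (κ → ℝ))).IsAddHaarMeasure := Measure.prod.instIsAddHaarMeasure _ _

theorem simplex_join (w : κ → ℝ) (hw : ∀ i, 0 < w i) {u : ℝ}
    (hu : u = 1 / ((n : ℝ) + 1 + ∑ i, w i)) {C : ℝ}
    (hSS : SS (wt (aw n w)) ≤ C * (1 + ∑ i, aw n w i)) :
    ((volume : Measure (Fin n → ℝ)).prod (volume : Measure (κ → ℝ)))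
      (RB (JJ (TT n) κ) (0, fun i => w i * u)) ≤
      ENNReal.ofReal C *
        ((volume : Measure (Fin n → ℝ)).prod (volume : Measure (κ → ℝ))) (JJ (TT n) κ) := by
  have hpos : 0 < (n : ℝ) + 1 + ∑ i, w i := by
    have : 0 ≤ ∑ i, w i := Finset.sum_nonneg fun i _ => (hw i).le
    positivity
  have hp : 1 - ∑ i, w i * u ≠ 0 := by
    rw [← Finset.sum_mul, hu, mul_one_div]
    have : 1 - (∑ i, w i) / ((n : ℝ) + 1 + ∑ i, w i) = ((n : ℝ) + 1) / ((n : ℝ) + 1 + ∑ i, w i) := by
      field_simp
      ring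
    rw [this]
    positivity
  let L : (Fin n ⊕ κ → ℝ) ≃L[ℝ] (Fin n → ℝ) × (κ → ℝ) :=
    (chg n (fun i => w i * u) hp).toContinuousLinearEquiv
  have haw : ∀ i, 0 < aw n w i := by
    rintro (j | i)
    · exact one_pos
    · exact hw i
  have h1 := simplex_le (aw n w) haw hSS
  obtain ⟨c, hc0, hct, hc⟩ := exists_scale (volume : Measure (Fin n ⊕ κ → ℝ))
    ((volume : Measure (Fin n → ℝ)).prod (volume : Measure (κ → ℝ))) L
    ((0, fun i => w i * u) : (Fin n → ℝ) × (κ → ℝ))
  rw [hc, hc (Sy (fun _ => 1) (-aw n w)), mul_left_comm] at h1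
  have h2 := (ENNReal.mul_le_mul_iff_right hc0 hct).mp h1
  have h3 : (fun v => ((0, fun i => w i * u) : (Fin n → ℝ) × (κ → ℝ)) + L v) ''
      Sy (fun _ => 1) (-aw n w) = JJ (TT n) κ := chg_image w hw hu hp
  have h4 := RB_image (L : (Fin n ⊕ κ → ℝ) →ₗ[ℝ] (Fin n → ℝ) × (κ → ℝ))
    ((0, fun i => w i * u) : (Fin n → ℝ) × (κ → ℝ)) (Sy (fun _ => 1) (-aw n w)) 0
  have h5 : (fun v => ((0, fun i => w i * u) : (Fin n → ℝ) × (κ → ℝ)) + L v) ''
      RB (Sy (fun _ => 1) (-aw n w)) 0 = RB (JJ (TT n) κ) (0, fun i => w i * u) := by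
    have h6 : (fun v => ((0, fun i => w i * u) : (Fin n → ℝ) × (κ → ℝ)) +
        (L : (Fin n ⊕ κ → ℝ) →ₗ[ℝ] (Fin n → ℝ) × (κ → ℝ)) v) =
        (fun v => ((0, fun i => w i * u) : (Fin n → ℝ) × (κ → ℝ)) + L v) := rfl
    rw [h6, h3, map_zero, add_zero] at h4
    exact h4.symm
  rw [h3, h5] at h2
  exact h2

/-- all ingredients together: a join is good -/
theorem join_good (hC : Cmp n) {D : Set (Fin n → ℝ)} (hDc : IsCompact D)
    (hD : Convex ℝ D) (h0 : (0 : Fin n → ℝ) ∈ D) (hA : Asym n D) (w : κ → ℝ)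
    (hw : ∀ i, 0 < w i) (hJ : ∀ J : Finset κ, ((n : ℝ) - 1) ≤ |∑ i, sg J i * w i|) {C : ℝ}
    (hSS : SS (wt (aw n w)) ≤ C * (1 + ∑ i, aw n w i)) :
    Good ((volume : Measure (Fin n → ℝ)).prod (volume : Measure (κ → ℝ))) (ENNReal.ofReal C)
      (JJ D κ) := by
  have hpos : 0 < (n : ℝ) + 1 + ∑ i, w i := by
    have : 0 ≤ ∑ i, w i := Finset.sum_nonneg fun i _ => (hw i).le
    positivity
  set u := 1 / ((n : ℝ) + 1 + ∑ i, w i) with hu
  have hu0 : 0 < u := by positivity
  apply join_of_simplex hC hDc hD h0 hA (TT_zero n) (fun i => w i * u)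
    (fun i => (mul_pos (hw i) hu0).le) hu0
  · rw [← Finset.sum_mul]
    have : ((n : ℝ) + 1 + ∑ i, w i) * u = 1 := by
      rw [hu, mul_one_div, div_self hpos.ne']
    linarith
  · intro J
    have : ∑ i, sg J i * (w i * u) = (∑ i, sg J i * w i) * u := by
      rw [Finset.sum_mul]
      exact Finset.sum_congr rfl fun i _ => by ring
    rw [this, abs_mul, abs_of_pos hu0]
    exact mul_le_mul_of_nonneg_right (hJ J) hu0.le
  · exact simplex_join w hw hu hSS

theorem int_abs {k : ℤ} (hk : Odd k) : (1 : ℝ) ≤ |(k : ℝ)| := by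
  have h1 : k ≠ 0 := by
    rintro rfl
    simp at hk
  have h2 : 1 ≤ |k| := Int.one_le_abs h1
  have h3 : ((|k| : ℤ) : ℝ) = |(k : ℝ)| := by push_cast; rfl
  rw [← h3]
  exact_mod_cast h2

/-- join of a planar convex set and an odd number of points -/
theorem join_two_odd {D : Set (Fin 2 → ℝ)} (hDc : IsCompact D)
    (hD : Convex ℝ D) (h0 : (0 : Fin 2 → ℝ) ∈ D) (hA : Asym 2 D) (hm : Odd (Fintype.card κ)) :
    Good ((volume : Measure (Fin 2 → ℝ)).prod (volume : Measure (κ → ℝ)))
      (((Fintype.card κ + 2).choose ((Fintype.card κ + 2) / 2) : ℕ) : ℝ≥0∞) (JJ D κ) := by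
  have h := join_good cmp_two hDc hD h0 hA (fun _ : κ => 1) (fun _ => one_pos) ?_
    (C := ((Fintype.card κ + 2).choose ((Fintype.card κ + 2) / 2) : ℕ)) ?_
  · rwa [ENNReal.ofReal_natCast] at h
  · intro J
    simp_rw [mul_one]
    rw [sum_sg]
    have h1 : Odd (2 * (J.card : ℤ) - Fintype.card κ) := by
      rw [Int.odd_sub]
      have : Odd ((Fintype.card κ : ℤ)) := by exact_mod_cast hm
      constructor
      · intro h
        exact absurd (even_two_mul _) (Int.not_even_iff_odd.mpr h)
      · intro h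
        exact absurd this (Int.not_odd_iff_even.mpr h)
    have h2 := int_abs h1
    push_cast at h2
    norm_num
    exact h2
  · have hwt : wt (aw 2 (fun _ : κ => 1)) = fun _ => 1 := by
      funext o
      rcases o with _ | j | i <;> rfl
    have hodd : Odd (Fintype.card κ + 2) := by
      obtain ⟨k, hk⟩ := hm
      exact ⟨k + 1, by omega⟩
    have hcard : Fintype.card (Option (Fin 2 ⊕ κ)) = (Fintype.card κ + 2) + 1 := by
      rw [Fintype.card_option, Fintype.card_sum, Fintype.card_fin]
      ring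
    have h1 := SS_one (κ := Option (Fin 2 ⊕ κ)) hodd hcard
    rw [SS, hwt, h1]
    apply le_of_eq
    congr 1
    rw [Fintype.sum_sum_type]
    simp [aw]
    ring

/-- join of a planar convex set and an even number of points -/
theorem join_two_even {D : Set (Fin 2 → ℝ)} (hDc : IsCompact D)
    (hD : Convex ℝ D) (h0 : (0 : Fin 2 → ℝ) ∈ D) (hA : Asym 2 D) (hm : Even (Fintype.card κ))
    (k0 : κ) :
    Good ((volume : Measure (Fin 2 → ℝ)).prod (volume : Measure (κ → ℝ)))
      (((Fintype.card κ + 2).choose ((Fintype.card κ + 2) / 2) : ℕ) : ℝ≥0∞) (JJ D κ) := by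
  have h := join_good cmp_two hDc hD h0 hA (fun i : κ => if i = k0 then 2 else 1) ?_ ?_
    (C := ((Fintype.card κ + 2).choose ((Fintype.card κ + 2) / 2) : ℕ)) ?_
  · rwa [ENNReal.ofReal_natCast] at h
  · intro i
    split_ifs <;> norm_num
  · intro J
    have e : ∀ i, sg J i * (if i = k0 then 2 else 1 : ℝ) =
        sg J i + (if i = k0 then sg J i else 0) := by
      intro i
      split_ifs <;> ring
    simp_rw [e]
    rw [Finset.sum_add_distrib, sum_sg]
    simp only [Finset.sum_ite_eq', Finset.mem_univ, if_true]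
    let s : ℤ := if k0 ∈ J then 1 else -1
    have hs : sg J k0 = (s : ℝ) := by
      unfold sg
      simp only [s]
      split_ifs <;> simp
    have hsodd : Odd s := by
      simp only [s]
      split_ifs
      · exact odd_one
      · exact ⟨-1, by norm_num⟩
    have h1 : Odd (2 * (J.card : ℤ) - Fintype.card κ + s) := by
      have h2 : Even (2 * (J.card : ℤ) - Fintype.card κ) := by
        apply Even.sub (even_two_mul _)
        exact_mod_cast hm
      exact h2.add_odd hsodd
    have h2 := int_abs h1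
    push_cast at h2
    rw [hs]
    norm_num
    exact h2
  · have hwt : wt (aw 2 (fun i : κ => if i = k0 then (2:ℝ) else 1)) =
        fun o => if o = some (Sum.inr k0) then 2 else 1 := by
      funext o
      rcases o with _ | j | i
      · simp [wt]
      · simp [wt, aw]
      · simp [wt, aw]
    have heven : Even (Fintype.card κ + 2) := by
      obtain ⟨k, hk⟩ := hm
      exact ⟨k + 1, by omega⟩
    have hcard : Fintype.card (Option (Fin 2 ⊕ κ)) = (Fintype.card κ + 2) + 1 := by
      rw [Fintype.card_option, Fintype.card_sum, Fintype.card_fin]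
      ring
    have h1 := SS_two (κ := Option (Fin 2 ⊕ κ)) heven (by omega) hcard (some (Sum.inr k0))
    rw [SS, hwt, h1]
    apply le_of_eq
    congr 1
    rw [Fintype.sum_sum_type]
    have h2 : ∑ i : κ, (if i = k0 then (2:ℝ) else 1) = Fintype.card κ + 1 := by
      have e : ∀ i : κ, (if i = k0 then (2:ℝ) else 1) = 1 + (if i = k0 then 1 else 0) := by
        intro i
        split_ifs <;> norm_num
      simp_rw [e]
      rw [Finset.sum_add_distrib]
      simp
    simp only [aw, Sum.elim_inl, Sum.elim_inr, h2]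
    simp
    ring

/-- join of a three-dimensional convex set and one point -/
theorem join_three {D : Set (Fin 3 → ℝ)} (hDc : IsCompact D)
    (hD : Convex ℝ D) (h0 : (0 : Fin 3 → ℝ) ∈ D) (hA : Asym 3 D) (hm : Fintype.card κ = 1) :
    Good ((volume : Measure (Fin 3 → ℝ)).prod (volume : Measure (κ → ℝ)))
      (6 : ℝ≥0∞) (JJ D κ) := by
  obtain ⟨k0, hk0⟩ := Fintype.card_eq_one_iff.mp hm
  have hsum : ∀ f : κ → ℝ, ∑ i, f i = f k0 := fun f => by
    rw [Finset.sum_eq_single k0]
    · intro b _ hb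
      exact absurd (hk0 b) hb
    · simp
  have h := join_good cmp_three hDc hD h0 hA (fun i : κ => if i = k0 then 2 else 1) ?_ ?_
    (C := (6 : ℕ)) ?_
  · rw [ENNReal.ofReal_natCast] at h
    exact_mod_cast h
  · intro i
    split_ifs <;> norm_num
  · intro J
    rw [hsum, if_pos rfl, abs_mul, sg_abs]
    norm_num
  · have hwt : wt (aw 3 (fun i : κ => if i = k0 then (2:ℝ) else 1)) =
        fun o => if o = some (Sum.inr k0) then 2 else 1 := by
      funext o
      rcases o with _ | j | i
      · simp [wt]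
      · simp [wt, aw]
      · simp [wt, aw]
    have hcard : Fintype.card (Option (Fin 3 ⊕ κ)) = 4 + 1 := by
      rw [Fintype.card_option, Fintype.card_sum, Fintype.card_fin, hm]
    have h1 := SS_two (κ := Option (Fin 3 ⊕ κ)) (d := 4) ⟨2, rfl⟩ (by norm_num) hcard
      (some (Sum.inr k0))
    rw [SS, hwt, h1]
    have hch : Nat.choose 4 (4 / 2) = 6 := by decide
    rw [hch, Fintype.sum_sum_type]
    simp only [aw, Sum.elim_inl, Sum.elim_inr, hsum]
    simp
    norm_num

end

end Pool.Agent.Lib.MP_725e58_gt.Tow
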