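import Mathlib
import Pool.Agent.Lib.MP_725e58_gt.Tow.SimpJoin

/-!
A centre of asymmetry at most `n`, and joins in arbitrary position.
-/

set_option autoImplicit false

namespace Pool.Agent.Lib.MP_725e58_gt.Tow

open MeasureTheory Set Pointwise Module
open scoped ENNReal

theorem exists_center {n : ℕ} (hn : 0 < n) {D : Set (Fin n → ℝ)} (hDc : IsCompact D)
    (hD : Convex ℝ D) (hne : D.Nonempty) :
    ∃ c ∈ D, ∀ y ∈ D, ∃ z ∈ D, c - y = (n : ℝ) • (z - c) := by
  classical
  have hn' : (0 : ℝ) < n := by exact_mod_cast hn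
  obtain ⟨y0, hy0⟩ := hne
  let F : D → Set (Fin n → ℝ) := fun y =>
    (fun z => (1 / ((n : ℝ) + 1)) • (y : Fin n → ℝ) + (n / ((n : ℝ) + 1)) • z) '' D
  have hconv : ∀ y, Convex ℝ (F y) := by
    intro y
    have : F y = (fun z => (1 / ((n : ℝ) + 1)) • (y : Fin n → ℝ) + z) ''
        ((n / ((n : ℝ) + 1)) • D) := by
      rw [← image_smul, image_image]
    rw [this]
    exact (hD.smul _).translate _
  have hcomp : ∀ y, IsCompact (F y) := fun y => hDc.image (by fun_prop)
  have hint : ∀ I : Finset D, I.card ≤ finrank ℝ (Fin n → ℝ) + 1 → (⋂ i ∈ I, F i).Nonempty := by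
    intro I hI
    rw [finrank_fintype_fun_eq_card, Fintype.card_fin] at hI
    refine ⟨(1 / ((n : ℝ) + 1)) • (∑ y ∈ I, (y : Fin n → ℝ) + ((n : ℝ) + 1 - I.card) • y0), ?_⟩
    simp only [mem_iInter]
    intro y hy
    refine ⟨(1 / (n : ℝ)) • (∑ x ∈ I.erase y, (x : Fin n → ℝ) + ((n : ℝ) + 1 - I.card) • y0),
      ?_, ?_⟩
    · let z : Option D → (Fin n → ℝ) := fun o => o.elim y0 (fun x => (x : Fin n → ℝ))
      let w : Option D → ℝ := fun o => o.elim (((n : ℝ) + 1 - I.card) / n) (fun _ => 1 / (n : ℝ))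
      have hw : ∀ o ∈ Finset.insertNone (I.erase y), 0 ≤ w o := by
        rintro (_ | x) _
        · simp only [w, Option.elim]
          apply div_nonneg _ hn'.le
          have : (I.card : ℝ) ≤ n + 1 := by exact_mod_cast hI
          linarith
        · simp only [w, Option.elim]
          positivity
      have hz : ∀ o ∈ Finset.insertNone (I.erase y), z o ∈ D := by
        rintro (_ | x) _
        · exact hy0
        · exact x.2
      have hcard : ((I.erase y).card : ℝ) = I.card - 1 := by
        rw [Finset.card_erase_of_mem hy]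
        have : 1 ≤ I.card := Finset.card_pos.mpr ⟨y, hy⟩
        push_cast [Nat.cast_sub this]
        ring
      have h1 : ∑ o ∈ Finset.insertNone (I.erase y), w o = 1 := by
        rw [Finset.sum_insertNone]
        simp only [w, Option.elim, Finset.sum_const, nsmul_eq_mul]
        rw [hcard]
        field_simp
        ring
      have h2 := hD.sum_mem hw h1 hz
      rw [Finset.sum_insertNone] at h2
      simp only [w, z, Option.elim] at h2
      convert h2 using 1
      rw [← Finset.smul_sum, smul_add, smul_smul, add_comm]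
      congr 2
      ring
    · simp only
      rw [smul_smul, ← Finset.add_sum_erase I (fun x => (x : Fin n → ℝ)) hy]
      have e : (n : ℝ) / ((n : ℝ) + 1) * (1 / n) = 1 / ((n : ℝ) + 1) := by
        field_simp
      rw [e]
      simp only [smul_add]
      abel
  obtain ⟨c, hc⟩ := Convex.helly_theorem_compact' (𝕜 := ℝ) hconv hcomp hint
  rw [mem_iInter] at hc
  have hc' : ∀ y ∈ D, ∃ z ∈ D, (1 / ((n : ℝ) + 1)) • y + (n / ((n : ℝ) + 1)) • z = c := by
    intro y hy
    obtain ⟨z, hz, h⟩ := hc ⟨y, hy⟩
    exact ⟨z, hz, h⟩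
  refine ⟨c, ?_, ?_⟩
  · obtain ⟨z, hz, h⟩ := hc' y0 hy0
    rw [← h]
    apply hD hy0 hz (by positivity) (by positivity)
    field_simp
    ring
  · intro y hy
    obtain ⟨z, hz, h⟩ := hc' y hy
    refine ⟨z, hz, ?_⟩
    funext i
    have hi := congrFun h i
    simp only [Pi.add_apply, Pi.smul_apply, smul_eq_mul, Pi.sub_apply] at hi ⊢
    have h1 : (n : ℝ) + 1 ≠ 0 := by positivity
    field_simp at hi
    linarith

section base
variable {E : Type*} [NormedAddCommGroup E] [NormedSpace ℝ E] [FiniteDimensional ℝ E]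
  [MeasurableSpace E] [BorelSpace E] (μ : Measure E) [μ.IsAddHaarMeasure]

omit [MeasurableSpace E] [BorelSpace E] in
theorem finrank_union_le (K : Set E) (V : Finset E) :
    finrank ℝ (vectorSpan ℝ (K ∪ (V : Set E))) ≤ finrank ℝ (vectorSpan ℝ K) + V.card := by
  classical
  induction V using Finset.induction_on with
  | empty => rw [Finset.coe_empty, union_empty, Finset.card_empty, add_zero]
  | insert a s ha ih =>
    rw [Finset.card_insert_of_notMem ha, Finset.coe_insert, union_insert]
    have := finrank_vectorSpan_insert_le_set (k := ℝ) (K ∪ (s : Set E)) a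
    omega

/-- a join in arbitrary position, given that joins in coordinates are good -/
theorem base_good [DecidableEq E] {n : ℕ} (hn : 0 < n) {C : ℝ≥0∞} {K : Set E} (hc : IsCompact K)
    (hK : Convex ℝ K) (hd : finrank ℝ (vectorSpan ℝ K) ≤ n) (V : Finset E)
    (hV : V.card + n ≤ finrank ℝ E) (hspan : vectorSpan ℝ (K ∪ (V : Set E)) = ⊤)
    (hjoin : V.card + n = finrank ℝ E → ∀ D : Set (Fin n → ℝ), IsCompact D → Convex ℝ D →
      (0 : Fin n → ℝ) ∈ D → Asym n D →
      Good ((volume : Measure (Fin n → ℝ)).prod (volume : Measure (V → ℝ))) C (JJ D V)) :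
    Good μ C (convexHull ℝ (K ∪ (V : Set E))) := by
  have hdim := finrank_union_le K V
  rw [hspan, finrank_top] at hdim
  have hn' : finrank ℝ (vectorSpan ℝ K) = n := by omega
  have hcard : V.card + n = finrank ℝ E := by omega
  have hKne : K.Nonempty := by
    rw [nonempty_iff_ne_empty]
    rintro rfl
    rw [vectorSpan_empty, finrank_bot] at hn'
    omega
  obtain ⟨k0, hk0⟩ := hKne
  set W := vectorSpan ℝ K with hW
  let e : W ≃ₗ[ℝ] (Fin n → ℝ) := LinearEquiv.ofFinrankEq _ _ (by
    rw [hn', finrank_fintype_fun_eq_card, Fintype.card_fin])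
  let D0 : Set (Fin n → ℝ) := {y | k0 + ((e.symm y : W) : E) ∈ K}
  have hD0c : IsCompact D0 := by
    have h1 : D0 = (fun y : Fin n → ℝ => k0 + ((e.symm y : W) : E)) ⁻¹' K := rfl
    rw [h1]
    have hemb : Topology.IsClosedEmbedding (fun y : Fin n → ℝ => k0 + ((e.symm y : W) : E)) := by
      have h2 : Topology.IsClosedEmbedding (fun w : W => k0 + (w : E)) :=
        (Homeomorph.addLeft k0).isClosedEmbedding.comp
          (Submodule.closed_of_finiteDimensional W).isClosedEmbedding_subtypeVal
      exact h2.comp e.symm.toContinuousLinearEquiv.toHomeomorph.isClosedEmbedding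
    exact hemb.isCompact_preimage hc
  have hD0x : Convex ℝ D0 := by
    intro x hx y hy a b ha hb hab
    have h := hK hx hy ha hb hab
    have e1 : k0 + ((e.symm (a • x + b • y) : W) : E) =
        a • (k0 + ((e.symm x : W) : E)) + b • (k0 + ((e.symm y : W) : E)) := by
      have : k0 = (a + b) • k0 := by rw [hab, one_smul]
      rw [map_add, map_smul, map_smul, Submodule.coe_add, Submodule.coe_smul, Submodule.coe_smul]
      nth_rw 1 [this]
      module
    show k0 + ((e.symm (a • x + b • y) : W) : E) ∈ K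
    rw [e1]
    exact h
  have hD0n : D0.Nonempty := ⟨0, by simpa [D0] using hk0⟩
  obtain ⟨c0, hc0, hcen⟩ := exists_center hn hD0c hD0x hD0n
  let c : E := k0 + ((e.symm c0 : W) : E)
  have hcK : c ∈ K := hc0
  let D : Set (Fin n → ℝ) := (fun y => (-c0) + y) '' D0
  have hDmem : ∀ y, y ∈ D ↔ c + ((e.symm y : W) : E) ∈ K := by
    intro y
    constructor
    · rintro ⟨x, hx, rfl⟩
      have hx' : k0 + ((e.symm x : W) : E) ∈ K := hx
      have : c + ((e.symm (-c0 + x) : W) : E) = k0 + ((e.symm x : W) : E) := by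
        simp only [c, map_add, map_neg, Submodule.coe_add, Submodule.coe_neg]
        abel
      rw [this]
      exact hx'
    · intro hy
      refine ⟨c0 + y, ?_, by simp⟩
      show k0 + ((e.symm (c0 + y) : W) : E) ∈ K
      have : c + ((e.symm y : W) : E) = k0 + ((e.symm (c0 + y) : W) : E) := by
        simp only [c, map_add, Submodule.coe_add]
        abel
      rw [← this]
      exact hy
  have hDc : IsCompact D := hD0c.image (by fun_prop)
  have hDx : Convex ℝ D := hD0x.translate _
  have hD0' : (0 : Fin n → ℝ) ∈ D := ⟨c0, hc0, by simp⟩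
  have hA : Asym n D := by
    rintro _ ⟨y, hy, rfl⟩
    obtain ⟨z, hz, h⟩ := hcen y hy
    refine ⟨-c0 + z, ⟨z, hz, rfl⟩, ?_⟩
    show (n : ℝ) • (-c0 + z) = -(-c0 + y)
    have h1 : -c0 + z = z - c0 := by abel
    have h2 : -(-c0 + y) = c0 - y := by abel
    rw [h1, h2, h]
  have hg := hjoin hcard D hDc hDx hD0' hA
  -- the coordinate map
  let Ψ : ((Fin n → ℝ) × (V → ℝ)) →ₗ[ℝ] E :=
    (W.subtype ∘ₗ (e.symm : (Fin n → ℝ) →ₗ[ℝ] W)).coprod
      (∑ v : V, (LinearMap.proj v : (V → ℝ) →ₗ[ℝ] ℝ).smulRight ((v : E) - c))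
  have hΨ1 : ∀ y : Fin n → ℝ, Ψ (y, 0) = ((e.symm y : W) : E) := by
    intro y
    simp [Ψ]
  have hΨ2 : ∀ v : V, Ψ (0, Pi.single v 1) = (v : E) - c := by
    intro v
    simp only [Ψ, LinearMap.coprod_apply, map_zero, zero_add, LinearMap.sum_apply,
      LinearMap.smulRight_apply, LinearMap.proj_apply]
    rw [Finset.sum_eq_single v]
    · simp
    · intro b _ hb
      simp [hb]
    · simp
  have hsurj : Function.Surjective Ψ := by
    rw [← LinearMap.range_eq_top, eq_top_iff, ← hspan,
      vectorSpan_eq_span_vsub_set_right (k := ℝ) (p := c) (Or.inl hcK), Submodule.span_le]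
    rintro _ ⟨x, hx | hx, rfl⟩
    · have hxc : x - c ∈ W := by
        have := vsub_mem_vectorSpan ℝ hx hcK
        simpa using this
      refine ⟨(e ⟨x - c, hxc⟩, 0), ?_⟩
      rw [hΨ1]
      simp
    · exact ⟨(0, Pi.single ⟨x, hx⟩ 1), hΨ2 ⟨x, hx⟩⟩
  have hfin : finrank ℝ ((Fin n → ℝ) × (V → ℝ)) = finrank ℝ E := by
    rw [finrank_prod, finrank_fintype_fun_eq_card, finrank_fintype_fun_eq_card, Fintype.card_fin,
      Fintype.card_coe]
    omega
  have hinj : Function.Injective Ψ :=
    (LinearMap.injective_iff_surjective_of_finrank_eq_finrank hfin).mpr hsurj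
  let L : ((Fin n → ℝ) × (V → ℝ)) ≃L[ℝ] E :=
    (LinearEquiv.ofBijective Ψ ⟨hinj, hsurj⟩).toContinuousLinearEquiv
  have hL : ∀ q, L q = Ψ q := fun q => rfl
  have himg := hg.image ((volume : Measure (Fin n → ℝ)).prod (volume : Measure (V → ℝ))) μ L c
  have hset : (fun q => c + L q) '' JJ D V = convexHull ℝ (K ∪ (V : Set E)) := by
    have hf : (fun q => c + L q) = ⇑(Ψ.toAffineMap +
        AffineMap.const ℝ ((Fin n → ℝ) × (V → ℝ)) c) := by
      funext v
      simp [hL, add_comm]
    rw [JJ, hf, AffineMap.image_convexHull, ← hf, image_union, image_image, ← range_comp]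
    congr 2
    · ext x
      constructor
      · rintro ⟨y, hy, rfl⟩
        simp only [hL, hΨ1]
        exact (hDmem y).mp hy
      · intro hx
        have hxc : x - c ∈ W := by
          have := vsub_mem_vectorSpan ℝ hx hcK
          simpa using this
        refine ⟨e ⟨x - c, hxc⟩, ?_, ?_⟩
        · rw [hDmem]
          simpa using hx
        · simp only [hL, hΨ1]
          simp
    · ext x
      constructor
      · rintro ⟨v, rfl⟩
        simp only [Function.comp_apply, hL, hΨ2]
        simp
      · intro hx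
        refine ⟨⟨x, hx⟩, ?_⟩
        simp only [Function.comp_apply, hL, hΨ2]
        simp
  rw [hset] at himg
  exact himg

end base

end Pool.Agent.Lib.MP_725e58_gt.Tow
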