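import Mathlib

/-!
Towers of suspensions over bodies of small dimension.
-/

set_option autoImplicit false

namespace Pool.Agent.Lib.MP_725e58_gt.Tow

/-- `Tower n K`: the set `K` is obtained from a compact convex set of dimension at most two
(or, in a four-dimensional space, of dimension at most three) by repeatedly adding the endpoints of
a segment that meets the set constructed so far; `n` counts the dimensions. -/
inductive Tower {E : Type*} [NormedAddCommGroup E] [NormedSpace ℝ E] : ℕ → Set E → Prop
  | plane (K : Set E) (hc : IsCompact K) (hK : Convex ℝ K)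
      (hd : Module.finrank ℝ (vectorSpan ℝ K) ≤ 2) : Tower 2 K
  | solid (K : Set E) (h4 : Module.finrank ℝ E = 4) (hc : IsCompact K) (hK : Convex ℝ K)
      (hd : Module.finrank ℝ (vectorSpan ℝ K) ≤ 3) : Tower 3 K
  | step (n : ℕ) (K : Set E) (p q : E) (h : Tower n K) (hpq : (segment ℝ p q ∩ K).Nonempty) :
      Tower (n + 1) (convexHull ℝ (K ∪ {p, q}))

end Pool.Agent.Lib.MP_725e58_gt.Tow
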