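import Mathlib
import Pool.Agent.Lib.MP_725e58_gt.Tow.Center
import Pool.Agent.Lib.MP_725e58_gt.Tow.Defs

/-!
Towers of suspensions satisfy the Fary-Redei inequality.
-/

set_option autoImplicit false

namespace Pool.Agent.Lib.MP_725e58_gt.Tow

open MeasureTheory Set Pointwise Module
open scoped ENNReal

section
variable {E : Type*} [NormedAddCommGroup E] [NormedSpace ℝ E]

theorem hull_hull_union (A B : Set E) :
    convexHull ℝ (convexHull ℝ A ∪ B) = convexHull ℝ (A ∪ B) := by
  apply Subset.antisymm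
  · apply convexHull_min _ (convex_convexHull ℝ _)
    apply union_subset
    · exact convexHull_mono subset_union_left
    · exact subset_union_right.trans (subset_convexHull ℝ _)
  · exact convexHull_mono (union_subset_union_left _ (subset_convexHull ℝ _))

theorem vectorSpan_hull (A : Set E) : vectorSpan ℝ (convexHull ℝ A) = vectorSpan ℝ A := by
  rw [← direction_affineSpan, affineSpan_convexHull, direction_affineSpan]

theorem span_step {K : Set E} {c p q : E} (hcK : c ∈ K) {θ : ℝ}
    (hp : p = c + (1 - θ) • (p - q)) (hq : q = c - θ • (p - q)) (V : Set E) :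
    vectorSpan ℝ (K ∪ V ∪ {p, q}) ≤ vectorSpan ℝ (K ∪ V) ⊔ Submodule.span ℝ {p - q} := by
  rw [vectorSpan_eq_span_vsub_set_right (k := ℝ) (p := c) (Or.inl (Or.inl hcK)),
    Submodule.span_le]
  have hu : p - q ∈ Submodule.span ℝ {p - q} := Submodule.mem_span_singleton_self _
  rintro _ ⟨x, hx | hx, rfl⟩
  · apply Submodule.mem_sup_left
    exact vsub_mem_vectorSpan ℝ hx (Or.inl hcK)
  · apply Submodule.mem_sup_right
    rcases hx with rfl | rfl
    · have : x - c = (1 - θ) • (x - q) := by
        nth_rw 1 [hp]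
        abel
      show x - c ∈ _
      rw [this]
      exact Submodule.smul_mem _ _ hu
    · have : x - c = (-θ) • (p - x) := by
        nth_rw 1 [hq]
        rw [neg_smul]
        abel
      show x - c ∈ _
      rw [this]
      exact Submodule.smul_mem _ _ hu

theorem seg_param {p q c : E} (h : c ∈ segment ℝ p q) :
    ∃ θ : ℝ, 0 ≤ θ ∧ θ ≤ 1 ∧ p = c + (1 - θ) • (p - q) ∧ q = c - θ • (p - q) := by
  obtain ⟨a, b, ha, hb, hab, rfl⟩ := h
  refine ⟨a, ha, by linarith, ?_, ?_⟩
  · have : b = 1 - a := by linarith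
    rw [this]
    module
  · have : b = 1 - a := by linarith
    rw [this]
    module

variable [FiniteDimensional ℝ E] [MeasurableSpace E] [BorelSpace E] (μ : Measure E)
  [μ.IsAddHaarMeasure]

theorem tower_step [DecidableEq E] {C : ℝ≥0∞} {j : ℕ} {K : Set E} (hc : IsCompact K)
    (hK : Convex ℝ K)
    (hd : finrank ℝ (vectorSpan ℝ K) ≤ j) {p q : E} (hpq : (segment ℝ p q ∩ K).Nonempty)
    (ih : ∀ V : Finset E, V.card + j ≤ finrank ℝ E → vectorSpan ℝ (K ∪ (V : Set E)) = ⊤ →
      Good μ C (convexHull ℝ (K ∪ (V : Set E))))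
    (V : Finset E) (hV : V.card + (j + 1) ≤ finrank ℝ E)
    (hspan : vectorSpan ℝ (convexHull ℝ (K ∪ {p, q}) ∪ (V : Set E)) = ⊤) :
    Good μ C (convexHull ℝ (convexHull ℝ (K ∪ {p, q}) ∪ (V : Set E))) := by
  obtain ⟨c, hcs, hcK⟩ := hpq
  obtain ⟨θ, h0, h1, hp, hq⟩ := seg_param hcs
  have hcomm : K ∪ {p, q} ∪ (V : Set E) = K ∪ (V : Set E) ∪ {p, q} := by
    rw [union_assoc, union_comm {p, q}, ← union_assoc]
  have hset : convexHull ℝ (convexHull ℝ (K ∪ {p, q}) ∪ (V : Set E)) =
      convexHull ℝ (convexHull ℝ (K ∪ (V : Set E)) ∪ {p, q}) := by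
    rw [hull_hull_union, hull_hull_union, hcomm]
  set W := vectorSpan ℝ (K ∪ (V : Set E)) with hW
  have htop : W ⊔ Submodule.span ℝ {p - q} = ⊤ := by
    rw [eq_top_iff]
    calc (⊤ : Submodule ℝ E) = vectorSpan ℝ (convexHull ℝ (K ∪ {p, q}) ∪ (V : Set E)) :=
          hspan.symm
      _ ≤ vectorSpan ℝ (convexHull ℝ (convexHull ℝ (K ∪ {p, q}) ∪ (V : Set E))) :=
          vectorSpan_mono ℝ (subset_convexHull ℝ _)
      _ = vectorSpan ℝ (K ∪ (V : Set E) ∪ {p, q}) := by
          rw [hull_hull_union, vectorSpan_hull, hcomm]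
      _ ≤ W ⊔ Submodule.span ℝ {p - q} := span_step hcK hp hq _
  have hWlt : W < ⊤ := by
    rw [lt_top_iff_ne_top]
    intro hWt
    have h2 := finrank_union_le K V
    rw [← hW, hWt, finrank_top] at h2
    omega
  obtain ⟨f, hf0, hfW⟩ := W.exists_le_ker_of_lt_top hWlt
  have hfu : f (p - q) ≠ 0 := by
    intro h
    apply hf0
    rw [← LinearMap.ker_eq_top, eq_top_iff, ← htop]
    apply sup_le hfW
    rw [Submodule.span_singleton_le_iff_mem]
    exact h
  let φ : E →ₗ[ℝ] ℝ := (f (p - q))⁻¹ • f
  have hφu : φ (p - q) = 1 := by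
    show (f (p - q))⁻¹ * f (p - q) = 1
    exact inv_mul_cancel₀ hfu
  have hφW : ∀ w ∈ W, φ w = 0 := by
    intro w hw
    have : f w = 0 := hfW hw
    show (f (p - q))⁻¹ * f w = 0
    rw [this, mul_zero]
  have hφP : ∀ v ∈ convexHull ℝ (K ∪ (V : Set E)), φ v = φ c := by
    have hsub : convexHull ℝ (K ∪ (V : Set E)) ⊆ {v | φ v = φ c} := by
      apply convexHull_min
      · intro v hv
        have h2 : v - c ∈ W := by
          have := vsub_mem_vectorSpan ℝ hv (Or.inl hcK : c ∈ K ∪ (V : Set E))
          simpa using this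
        have h3 := hφW _ h2
        rw [map_sub] at h3
        exact sub_eq_zero.mp h3
      · exact convex_hyperplane φ.isLinear _
    exact fun v hv => hsub hv
  have hPc : IsCompact (convexHull ℝ (K ∪ (V : Set E))) :=
    isCompact_hull_insert hc hK V.finite_toSet
  have hcP : c ∈ convexHull ℝ (K ∪ (V : Set E)) := subset_convexHull ℝ _ (Or.inl hcK)
  have hih := ih (insert (c + (p - q)) V) (by
    have := Finset.card_insert_le (c + (p - q)) V
    omega) (by
      rw [eq_top_iff, ← htop]
      apply sup_le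
      · apply vectorSpan_mono
        apply union_subset_union_right
        rw [Finset.coe_insert]
        exact subset_insert _ _
      · rw [Submodule.span_singleton_le_iff_mem]
        have h2 := vsub_mem_vectorSpan ℝ (s := K ∪ ((insert (c + (p - q)) V : Finset E) : Set E))
          (p₁ := c + (p - q)) (p₂ := c) (Or.inr (by simp)) (Or.inl hcK)
        simpa using h2)
  have hcone : convexHull ℝ (K ∪ ((insert (c + (p - q)) V : Finset E) : Set E)) =
      convexHull ℝ (convexHull ℝ (K ∪ (V : Set E)) ∪ {c + (p - q)}) := by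
    rw [hull_hull_union, Finset.coe_insert, union_assoc, insert_eq, union_comm {c + (p - q)}]
  rw [hcone] at hih
  have hgood := Good.susp μ φ hφP hφu hcP hPc (convex_convexHull ℝ _) h0 h1 hih
  rw [← hp, ← hq] at hgood
  rw [hset]
  exact hgood

theorem tower_good [DecidableEq E] (h3 : 3 ≤ finrank ℝ E) {j : ℕ} {K : Set E}
    (hT : Tower j K) : IsCompact K ∧ Convex ℝ K ∧ finrank ℝ (vectorSpan ℝ K) ≤ j ∧
      ∀ V : Finset E, V.card + j ≤ finrank ℝ E → vectorSpan ℝ (K ∪ (V : Set E)) = ⊤ →
        Good μ (((finrank ℝ E).choose (finrank ℝ E / 2) : ℕ) : ℝ≥0∞)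
          (convexHull ℝ (K ∪ (V : Set E))) := by
  induction hT with
  | plane K hc hK hd =>
    refine ⟨hc, hK, hd, fun V hV hspan => ?_⟩
    apply base_good μ two_pos hc hK hd V hV hspan
    intro hcard D hDc hD h0 hA
    have hcc : Fintype.card V = V.card := Fintype.card_coe V
    rcases Nat.even_or_odd V.card with he | ho
    · have hne : V.Nonempty := by
        rw [← Finset.card_pos]
        omega
      obtain ⟨v, hv⟩ := hne
      have := join_two_even (κ := V) hDc hD h0 hA (by rw [hcc]; exact he) ⟨v, hv⟩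
      rwa [hcc, hcard] at this
    · have := join_two_odd (κ := V) hDc hD h0 hA (by rw [hcc]; exact ho)
      rwa [hcc, hcard] at this
  | solid K h4 hc hK hd =>
    refine ⟨hc, hK, hd, fun V hV hspan => ?_⟩
    apply base_good μ three_pos hc hK hd V hV hspan
    intro hcard D hDc hD h0 hA
    have hcc : Fintype.card V = 1 := by
      rw [Fintype.card_coe V]
      omega
    have := join_three (κ := V) hDc hD h0 hA hcc
    rw [h4]
    have hch : Nat.choose 4 (4 / 2) = 6 := by decide
    rw [hch]
    exact_mod_cast this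
  | step n K p q h hpq ih =>
    obtain ⟨hc, hK, hd, ih⟩ := ih
    have hc' : IsCompact (convexHull ℝ (K ∪ {p, q})) :=
      isCompact_hull_insert hc hK (Set.toFinite _)
    refine ⟨hc', convex_convexHull ℝ _, ?_, ?_⟩
    · obtain ⟨c, hcs, hcK⟩ := hpq
      obtain ⟨θ, h0, h1, hp, hq⟩ := seg_param hcs
      rw [vectorSpan_hull]
      have h2 := span_step (K := K) hcK hp hq ∅
      rw [union_empty] at h2
      have h3 := Submodule.finrank_mono h2
      have h4 := Submodule.finrank_add_le_finrank_add_finrank (vectorSpan ℝ K)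
        (Submodule.span ℝ {p - q})
      have h5 : finrank ℝ (Submodule.span ℝ {p - q}) ≤ 1 := by
        have := finrank_span_le_card (R := ℝ) ({p - q} : Set E)
        simpa using this
      omega
    · intro V hV hspan
      exact tower_step μ hc hK hd hpq ih V hV hspan

/-- towers of full dimension satisfy the inequality -/
theorem tower_main (h3 : 3 ≤ finrank ℝ E) {K : Set E} (hT : Tower (finrank ℝ E) K)
    (hint : (interior K).Nonempty) :
    Good μ (((finrank ℝ E).choose (finrank ℝ E / 2) : ℕ) : ℝ≥0∞) K := by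
  classical
  obtain ⟨hc, hK, hd, h⟩ := tower_good μ h3 hT
  have hspan : vectorSpan ℝ K = ⊤ := by
    exact AffineSubspace.vectorSpan_eq_top_of_affineSpan_eq_top ℝ E E
      (hK.interior_nonempty_iff_affineSpan_eq_top.mp hint)
  have := h ∅ (by simp) (by simpa using hspan)
  simpa [hK.convexHull_eq] using this

end

end Pool.Agent.Lib.MP_725e58_gt.Tow
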