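import Mathlib
import Pool.Agent.Lib.MP_725e58_gt.Tow.Tower

/-!
Polytopes with at most `d + 2` vertices are towers.
-/

set_option autoImplicit false

namespace Pool.Agent.Lib.MP_725e58_gt.Tow

open MeasureTheory Set Module
open scoped ENNReal Pointwise

section
variable {E : Type*} [NormedAddCommGroup E] [NormedSpace ℝ E]

theorem dim_le_of_card [DecidableEq E] {S : Finset E} {n : ℕ} (h : S.card ≤ n + 1) :
    finrank ℝ (vectorSpan ℝ (S : Set E)) ≤ n := by
  rcases S.eq_empty_or_nonempty with rfl | hne
  · rw [Finset.coe_empty, vectorSpan_empty, finrank_bot]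
    exact Nat.zero_le _
  · obtain ⟨m, hm⟩ : ∃ m, S.card = m + 1 := ⟨S.card - 1, by
      have := hne.card_pos
      omega⟩
    have h1 := finrank_vectorSpan_image_finset_le ℝ (fun x : E => x) S hm
    rw [Finset.image_id'] at h1
    omega

/-- two coefficients of the same sign in an affine dependence -/
theorem exists_two_pos [DecidableEq E] {S : Finset E} {n : ℕ} (hS : S.card = n + 2)
    (hd : finrank ℝ (vectorSpan ℝ (S : Set E)) ≤ n) :
    ∃ w : S → ℝ, ∑ i, w i = 0 ∧ ∑ i, w i • (i : E) = 0 ∧ ∃ i j : S, i ≠ j ∧ 0 < w i ∧ 0 < w j := by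
  classical
  have hcard : Fintype.card S = n + 2 := by rw [Fintype.card_coe, hS]
  have hrange : range (fun i : S => (i : E)) = (S : Set E) := by
    ext x; simp
  have hna : ¬ AffineIndependent ℝ (fun i : S => (i : E)) := by
    rw [← finrank_vectorSpan_le_iff_not_affineIndependent ℝ _ hcard, hrange]
    exact hd
  rw [affineIndependent_iff] at hna
  push Not at hna
  obtain ⟨s, w0, hw0, hw1, i0, hi0, hne⟩ := hna
  let w : S → ℝ := fun i => if i ∈ s then w0 i else 0
  have h0 : ∑ i, w i = 0 := by
    simp only [w]
    rw [Finset.sum_ite_mem, Finset.univ_inter, hw0]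
  have h1 : ∑ i, w i • (i : E) = 0 := by
    have : ∀ i : S, w i • (i : E) = if i ∈ s then w0 i • (i : E) else 0 := by
      intro i
      simp only [w]
      split_ifs
      · rfl
      · rw [zero_smul]
    simp_rw [this]
    rw [Finset.sum_ite_mem, Finset.univ_inter, hw1]
  have hwne : w i0 ≠ 0 := by
    simp only [w, if_pos hi0]
    exact hne
  obtain ⟨i, -, hi⟩ := Finset.exists_pos_of_sum_zero_of_exists_nonzero w h0
    ⟨i0, Finset.mem_univ _, hwne⟩
  have h0' : ∑ i, (-w) i = 0 := by
    simp only [Pi.neg_apply, Finset.sum_neg_distrib, h0, neg_zero]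
  obtain ⟨j, -, hj⟩ := Finset.exists_pos_of_sum_zero_of_exists_nonzero (-w) h0'
    ⟨i0, Finset.mem_univ _, by simpa using hwne⟩
  have hj' : w j < 0 := by
    simp only [Pi.neg_apply] at hj
    linarith
  have hij : i ≠ j := by
    rintro rfl
    linarith
  by_cases hp : ∃ k, k ≠ i ∧ 0 < w k
  · obtain ⟨k, hk, hk'⟩ := hp
    exact ⟨w, h0, h1, k, i, hk, hk', hi⟩
  by_cases hn : ∃ k, k ≠ j ∧ w k < 0
  · obtain ⟨k, hk, hk'⟩ := hn
    refine ⟨-w, h0', ?_, k, j, hk, by simpa using hk', hj⟩
    simp only [Pi.neg_apply, neg_smul, Finset.sum_neg_distrib, h1, neg_zero]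
  exfalso
  push Not at hp hn
  have hz : ∀ k, k ≠ i → k ≠ j → w k = 0 := fun k hk hk' => le_antisymm (hp k hk) (hn k hk')
  have e0 : ∑ k, w k = w i + w j := by
    apply Finset.sum_eq_add i j hij
    · intro c _ hc
      exact hz c hc.1 hc.2
    · intro h; exact absurd (Finset.mem_univ _) h
    · intro h; exact absurd (Finset.mem_univ _) h
  have e1 : ∑ k, w k • (k : E) = w i • (i : E) + w j • (j : E) := by
    apply Finset.sum_eq_add i j hij
    · intro c _ hc
      rw [hz c hc.1 hc.2, zero_smul]
    · intro h; exact absurd (Finset.mem_univ _) h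
    · intro h; exact absurd (Finset.mem_univ _) h
  rw [h0] at e0
  rw [h1] at e1
  have e2 : w j = -w i := by linarith
  rw [e2, neg_smul, ← sub_eq_add_neg, ← smul_sub] at e1
  have e3 := (smul_eq_zero.mp e1.symm).resolve_left hi.ne'
  exact hij (Subtype.ext (sub_eq_zero.mp e3))

theorem tower_succ_self {n : ℕ} {K : Set E} (h : Tower n K) (hK : Convex ℝ K)
    (hne : K.Nonempty) : Tower (n + 1) K := by
  obtain ⟨p, hp⟩ := hne
  have h1 := Tower.step n K p p h ⟨p, left_mem_segment ℝ p p, hp⟩
  have h2 : K ∪ {p, p} = K := by
    apply union_eq_self_of_subset_right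
    rintro x (rfl | rfl) <;> exact hp
  rwa [h2, hK.convexHull_eq] at h1

theorem points_tower [DecidableEq E] (n : ℕ) : ∀ S : Finset E, S.Nonempty → S.card ≤ n + 4 →
    finrank ℝ (vectorSpan ℝ (S : Set E)) ≤ n + 2 →
    Tower (n + 2) (convexHull ℝ (S : Set E)) := by
  induction n with
  | zero =>
    intro S _ _ hd
    apply Tower.plane _ (S.finite_toSet.isCompact_convexHull ℝ) (convex_convexHull ℝ _)
    rw [vectorSpan_hull]
    exact hd
  | succ n ih =>
    intro S hne hcard hd
    obtain ⟨v, hv⟩ := hne
    by_cases hc : S.card ≤ n + 4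
    · -- remove one point
      rcases (S.erase v).eq_empty_or_nonempty with he | hne'
      · have hS1 : S.card ≤ 1 := by
          have h1 := Finset.card_erase_of_mem hv
          rw [he, Finset.card_empty] at h1
          omega
        have h1 := ih S ⟨v, hv⟩ hc ((dim_le_of_card (n := 0) hS1).trans (Nat.zero_le _))
        exact tower_succ_self h1 (convex_convexHull ℝ _)
          ⟨v, subset_convexHull ℝ _ (Finset.mem_coe.mpr hv)⟩
      · have hce : (S.erase v).card ≤ n + 3 := by
          rw [Finset.card_erase_of_mem hv]
          omega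
        have h1 := ih (S.erase v) hne' (by omega) (dim_le_of_card (n := n + 2) hce)
        obtain ⟨q, hq⟩ := hne'
        have h2 := Tower.step _ _ v q h1
          ⟨q, right_mem_segment ℝ v q, subset_convexHull ℝ _ (Finset.mem_coe.mpr hq)⟩
        have h3 : ((S.erase v : Finset E) : Set E) ∪ {v, q} = (S : Set E) := by
          ext x
          simp only [Finset.coe_erase, mem_union, mem_diff, Finset.mem_coe, mem_singleton_iff,
            mem_insert_iff]
          constructor
          · rintro (h | rfl | rfl)
            · exact h.1
            · exact hv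
            · exact Finset.mem_of_mem_erase hq
          · intro h
            by_cases hx : x = v
            · exact Or.inr (Or.inl hx)
            · exact Or.inl ⟨h, hx⟩
        rw [hull_hull_union, h3] at h2
        exact h2
    · have hcS : S.card = (n + 3) + 2 := by omega
      obtain ⟨w, h0, h1, i, j, hij, hi, hj⟩ := exists_two_pos hcS (by omega)
      -- the remaining points
      set V : Finset E := (S.erase (i : E)).erase (j : E) with hV
      have hji : (j : E) ∈ S.erase (i : E) := by
        rw [Finset.mem_erase]
        exact ⟨fun h => hij (Subtype.ext h.symm), j.2⟩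
      have hVc : V.card = n + 3 := by
        rw [hV, Finset.card_erase_of_mem hji, Finset.card_erase_of_mem i.2]
        omega
      have hVne : V.Nonempty := by
        rw [← Finset.card_pos]
        omega
      obtain ⟨v0, hv0⟩ := hVne
      have hs : 0 < w i + w j := by linarith
      set c : E := (w i / (w i + w j)) • (i : E) + (w j / (w i + w j)) • (j : E) with hc'
      have hcseg : c ∈ segment ℝ (i : E) (j : E) :=
        ⟨_, _, by positivity, by positivity, by field_simp, rfl⟩
      have hcspan : c - v0 ∈ vectorSpan ℝ (V : Set E) := by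
        have e1 : ∑ k : S, w k • ((k : E) - v0) = 0 := by
          simp only [smul_sub, Finset.sum_sub_distrib, h1, ← Finset.sum_smul, h0, zero_smul,
            sub_zero]
        have e2 : ∑ k : S, w k • ((k : E) - v0) =
            ∑ k ∈ ((Finset.univ.erase i).erase j : Finset S), w k • ((k : E) - v0) +
              (w i • ((i : E) - v0) + w j • ((j : E) - v0)) := by
          rw [← Finset.add_sum_erase Finset.univ _ (Finset.mem_univ i),
            ← Finset.add_sum_erase (Finset.univ.erase i) _
              (Finset.mem_erase.mpr ⟨hij.symm, Finset.mem_univ j⟩)]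
          abel
        rw [e1] at e2
        have e3 : (w i + w j) • (c - v0) = w i • ((i : E) - v0) + w j • ((j : E) - v0) := by
          rw [hc', smul_sub, smul_add, smul_smul, smul_smul, mul_div_cancel₀ _ hs.ne',
            mul_div_cancel₀ _ hs.ne', add_smul, smul_sub, smul_sub]
          abel
        have e4 : c - v0 = (-(w i + w j)⁻¹) •
            ∑ k ∈ ((Finset.univ.erase i).erase j : Finset S), w k • ((k : E) - v0) := by
          have e5 : ∑ k ∈ ((Finset.univ.erase i).erase j : Finset S), w k • ((k : E) - v0) =
              -((w i + w j) • (c - v0)) := by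
            rw [e3]
            exact eq_neg_of_add_eq_zero_left e2.symm
          rw [e5, smul_neg, neg_smul, neg_neg, smul_smul, inv_mul_cancel₀ hs.ne', one_smul]
        rw [e4]
        apply Submodule.smul_mem
        apply Submodule.sum_mem
        intro k hk
        apply Submodule.smul_mem
        have hkV : (k : E) ∈ (V : Set E) := by
          rw [Finset.mem_erase, Finset.mem_erase] at hk
          rw [Finset.mem_coe, hV, Finset.mem_erase, Finset.mem_erase]
          exact ⟨fun h => hk.1 (Subtype.ext h), fun h => hk.2.1 (Subtype.ext h), k.2⟩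
        have := vsub_mem_vectorSpan ℝ hkV (Finset.mem_coe.mpr hv0)
        simpa using this
      have hspan : vectorSpan ℝ ((insert c V : Finset E) : Set E) ≤
          vectorSpan ℝ (V : Set E) := by
        rw [Finset.coe_insert, vectorSpan_eq_span_vsub_set_right (k := ℝ) (p := v0)
          (Or.inr (Finset.mem_coe.mpr hv0)), Submodule.span_le]
        rintro _ ⟨x, rfl | hx, rfl⟩
        · exact hcspan
        · exact vsub_mem_vectorSpan ℝ hx (Finset.mem_coe.mpr hv0)
      have hdim : finrank ℝ (vectorSpan ℝ ((insert c V : Finset E) : Set E)) ≤ n + 2 := by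
        have e1 : finrank ℝ (vectorSpan ℝ (V : Set E)) ≤ n + 2 :=
          dim_le_of_card (by omega)
        have hfd : FiniteDimensional ℝ (vectorSpan ℝ (V : Set E)) :=
          finiteDimensional_vectorSpan_of_finite ℝ V.finite_toSet
        exact (Submodule.finrank_mono hspan).trans e1
      have hcc : (insert c V).card ≤ n + 4 := by
        have := Finset.card_insert_le c V
        omega
      have h2 := ih (insert c V) ⟨c, Finset.mem_insert_self _ _⟩ hcc hdim
      have h3 := Tower.step _ _ (i : E) (j : E) h2
        ⟨c, hcseg, subset_convexHull ℝ _ (Finset.mem_coe.mpr (Finset.mem_insert_self _ _))⟩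
      have h4 : convexHull ℝ (((insert c V : Finset E) : Set E) ∪ {(i : E), (j : E)}) =
          convexHull ℝ (S : Set E) := by
        apply Subset.antisymm
        · apply convexHull_min _ (convex_convexHull ℝ _)
          have hiS : (i : E) ∈ convexHull ℝ (S : Set E) := subset_convexHull ℝ _ i.2
          have hjS : (j : E) ∈ convexHull ℝ (S : Set E) := subset_convexHull ℝ _ j.2
          rintro x (hx | rfl | rfl)
          · rw [Finset.coe_insert] at hx
            rcases hx with rfl | hx
            · exact (convex_convexHull ℝ _).segment_subset hiS hjS hcseg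
            · apply subset_convexHull ℝ _
              exact Finset.mem_of_mem_erase (Finset.mem_of_mem_erase (Finset.mem_coe.mp hx))
          · exact hiS
          · exact hjS
        · apply convexHull_mono
          intro x hx
          by_cases hxi : x = (i : E)
          · exact Or.inr (Or.inl hxi)
          by_cases hxj : x = (j : E)
          · exact Or.inr (Or.inr hxj)
          left
          rw [Finset.coe_insert]
          right
          rw [Finset.mem_coe, hV, Finset.mem_erase, Finset.mem_erase]
          exact ⟨hxj, hxi, hx⟩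
      rw [hull_hull_union, h4] at h3
      exact h3

end

end Pool.Agent.Lib.MP_725e58_gt.Tow
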